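import Pool.Agent.TH729.CV.Aff

/-!
# Isolated values of rational functions at the points of products (helper729)
-/

set_option autoImplicit false
set_option linter.unusedSimpArgs false
set_option linter.unusedTactic false
set_option linter.unusedSectionVars false

namespace Pool.Agent.TH729.CV

open Set Filter Topology MvPolynomial

variable {L : Type*} [NontriviallyNormedField L] [CompleteSpace L] [CharZero L]

variable {k : Type*} [Field k] {τ : Type*} [Finite τ] {κ : Type*} [Finite κ]

/-- the values of the rational functions `p i / q` at the points of `P` in `Ω` -/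
def Vals (σ : k →+* L) (P : Set (τ → k)) (Ω : Set (τ → L)) (p : κ → MvPolynomial τ k)
    (q : MvPolynomial τ k) : Set (κ → k) :=
  {t | ∃ y ∈ P, (fun i => σ (y i)) ∈ Ω ∧ eval y q ≠ 0 ∧ ∀ i, t i = eval y (p i) / eval y q}

/-- **isolated values** -/
theorem vals_isolated {σ : k →+* L} {P : Set (τ → k)} (h : FA σ P) {Ω : Set (τ → L)}
    (hΩ : IsOpen Ω) (p : κ → MvPolynomial τ k) (q : MvPolynomial τ k) :
    {t ∈ Vals σ P Ω p q | ∃ U ∈ 𝓝 (fun i => σ (t i)), ∀ s ∈ Vals σ P Ω p q,
      (fun i => σ (s i)) ∈ U → s = t}.Finite := by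
  classical
  set T := {t ∈ Vals σ P Ω p q | ∃ U ∈ 𝓝 (fun i => σ (t i)), ∀ s ∈ Vals σ P Ω p q,
      (fun i => σ (s i)) ∈ U → s = t} with hT
  have hch : ∀ t : κ → k, ∃ y : τ → k, t ∈ T → y ∈ P ∧ (fun i => σ (y i)) ∈ Ω ∧
      eval y q ≠ 0 ∧ ∀ i, t i = eval y (p i) / eval y q := by
    intro t
    by_cases ht : t ∈ T
    · obtain ⟨y, hy⟩ := ht.1
      exact ⟨y, fun _ => hy⟩
    · exact ⟨fun _ => 0, fun h => (ht h).elim⟩
  choose y hy using hch
  refine Set.Finite.of_finite_image (f := fun t => IA σ P fun i => σ (y t i))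
    (h.subset (by rintro _ ⟨t, -, rfl⟩; exact ⟨_, rfl⟩)) ?_
  -- the polynomial of an isolated value
  have hcont : ∀ f : MvPolynomial τ k, Continuous fun z : τ → L => eval₂ σ z f := by
    intro f
    induction f using MvPolynomial.induction_on with
    | C a => simpa using continuous_const
    | add p q hp hq =>
      simp only [eval₂_add]
      exact hp.add hq
    | mul_X p i hp =>
      simp only [eval₂_mul, eval₂_X]
      exact hp.mul (continuous_apply i)
  have hco : ∀ (f : MvPolynomial τ k) (w : τ → k),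
      eval₂ σ (fun i => σ (w i)) f = σ (eval w f) := by
    intro f w
    have := eval₂_comp_left σ (RingHom.id k) w f
    rw [RingHom.comp_id] at this
    exact this.symm
  have hmem : ∀ t ∈ T, ∀ j, p j - C (t j) * q ∈ IA σ P fun i => σ (y t i) := by
    intro t ht j
    obtain ⟨h1, h2, h3, h4⟩ := hy t ht
    obtain ⟨-, U, hU, hU'⟩ := ht
    rw [mem_IA]
    have hq0 : eval₂ σ (fun i => σ (y t i)) q ≠ 0 := by
      rw [hco]
      exact (map_ne_zero σ).2 h3
    have e1 : ∀ᶠ z in 𝓝 (fun i => σ (y t i)), eval₂ σ z q ≠ 0 :=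
      (hcont q).continuousAt.eventually_ne hq0
    have e2 : Tendsto (fun z : τ → L => fun i => eval₂ σ z (p i) / eval₂ σ z q)
        (𝓝 fun i => σ (y t i)) (𝓝 fun i => σ (t i)) := by
      refine tendsto_pi_nhds.2 fun i => ?_
      have := ((hcont (p i)).tendsto (fun i => σ (y t i))).div ((hcont q).tendsto _) hq0
      rwa [hco, hco, ← map_div₀, ← h4] at this
    filter_upwards [e1, e2.eventually hU, hΩ.mem_nhds h2] with z hz1 hz2 hz3 w hw hwz
    rw [← hwz, hco] at hz1
    have hz1' : eval w q ≠ 0 := fun h => hz1 (by rw [h, map_zero])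
    change (fun i => eval₂ σ z (p i) / eval₂ σ z q) ∈ U at hz2
    have hz4 : (fun i => σ (eval w (p i) / eval w q)) ∈ U := by
      have h5 : (fun i => σ (eval w (p i) / eval w q)) =
          fun i => eval₂ σ z (p i) / eval₂ σ z q := by
        funext i
        rw [← hwz, hco, hco, map_div₀]
      rw [h5]
      exact hz2
    have h5 := hU' (fun i => eval w (p i) / eval w q)
      ⟨w, hw, by rw [hwz]; exact hz3, hz1', fun _ => rfl⟩ hz4
    have h6 : t j = eval w (p j) / eval w q := (congrFun h5 j).symm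
    rw [map_sub, map_mul, eval_C, h6]
    field_simp
    ring
  intro t ht s hs hts
  obtain ⟨g1, g2, g3, g4⟩ := hy t ht
  funext j
  have h1 := hmem s hs j
  have h2 : p j - C (s j) * q ∈ IA σ P fun i => σ (y t i) := by
    have hts' : IA σ P (fun i => σ (y t i)) = IA σ P fun i => σ (y s i) := hts
    rw [hts']
    exact h1
  have h3 := (mem_IA.1 h2).self_of_nhds (y t) g1 rfl
  rw [map_sub, map_mul, eval_C, sub_eq_zero] at h3
  rw [g4 j, h3]
  field_simp

/-- unions -/
theorem isolated_union {X : Type*} [TopologicalSpace X] {α ι : Type*} [Finite ι] (φ : α → X)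
    (D : ι → Set α)
    (h : ∀ i, {t ∈ D i | ∃ U ∈ 𝓝 (φ t), ∀ s ∈ D i, φ s ∈ U → s = t}.Finite) :
    {t ∈ ⋃ i, D i | ∃ U ∈ 𝓝 (φ t), ∀ s ∈ ⋃ i, D i, φ s ∈ U → s = t}.Finite := by
  refine (Set.finite_iUnion h).subset ?_
  rintro t ⟨ht, U, hU, hUt⟩
  obtain ⟨i, hi⟩ := mem_iUnion.1 ht
  exact mem_iUnion.2 ⟨i, hi, U, hU, fun s hs => hUt s (mem_iUnion.2 ⟨i, hs⟩)⟩

/-- one equation of degree at most three or two equations of degree at most two -/
theorem FA.block [ProperSpace L] (σ : k →+* L) (hσ : DenseRange σ) {n : ℕ}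
    {f g : MvPolynomial (Fin n) k}
    (h : (f.totalDegree ≤ 2 ∧ g.totalDegree ≤ 2) ∨ (f.totalDegree ≤ 3 ∧ g = 0)) :
    FA σ {y : Fin n → k | eval y f = 0 ∧ eval y g = 0} := by
  have := dk_of_dense σ hσ
  rcases h with ⟨hf, hg⟩ | ⟨hf, rfl⟩
  · obtain ⟨B₁, hB₁, hB₁'⟩ := rep_affine2 σ f hf
    obtain ⟨B₂, hB₂, hB₂'⟩ := rep_affine2 σ g hg
    refine FA.of_FS σ (p := fun v => B₁.b v v = 0 ∧ B₂.b v v = 0) ?_ ?_
      (pair_FS (n + 1) B₁ B₂ hB₁ hB₂)
    · intro y
      refine and_congr ?_ ?_
      · have h2 := hB₁' (fun i => σ (y i))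
        simp only at h2
        rw [h2, eval₂_co, map_eq_zero]
      · have h2 := hB₂' (fun i => σ (y i))
        simp only at h2
        rw [h2, eval₂_co, map_eq_zero]
    · intro c v hc
      simp only [map_smul, LinearMap.smul_apply, smul_eq_mul, mul_eq_zero, hc, false_or]
  · obtain ⟨G, hG, hG'⟩ := rep_affine σ f hf
    have h1 : FA σ {y : Fin n → k | eval y f = 0} := by
      refine FA.of_FS σ (p := fun v => G.f v v v = 0) ?_ ?_ (main_FS (n + 1) G hG)
      · intro y
        have h2 := hG' (fun i => σ (y i))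
        simp only at h2
        rw [h2, eval₂_co, map_eq_zero]
      · intro c v hc
        simp only [map_smul, LinearMap.smul_apply, smul_eq_mul, mul_eq_zero, hc, false_or]
    have h2 : {y : Fin n → k | eval y f = 0 ∧ eval y (0 : MvPolynomial (Fin n) k) = 0} =
        {y | eval y f = 0} := by
      ext y
      simp
    rw [h2]
    exact h1

end Pool.Agent.TH729.CV
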