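import Pool.Agent.TH729.CV.Trans2

/-!
# Affine local ideals, products, and isolated values (helper729)
-/

set_option autoImplicit false
set_option linter.unusedSimpArgs false
set_option linter.unusedTactic false
set_option linter.unusedSectionVars false

namespace Pool.Agent.TH729.CV

open Set Filter Topology MvPolynomial

variable {L : Type*} [NontriviallyNormedField L] [CompleteSpace L] [CharZero L]

variable {k : Type*} [Field k] {τ : Type*} [Finite τ]

/-- the polynomials vanishing at the points of `D` near `x` -/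
def IA (σ : k →+* L) (D : Set (τ → k)) (x : τ → L) : Ideal (MvPolynomial τ k) where
  carrier := {f | ∀ᶠ z in 𝓝 x, ∀ y ∈ D, (fun i => σ (y i)) = z → eval y f = 0}
  zero_mem' := Eventually.of_forall fun z y _ _ => map_zero _
  add_mem' := by
    intro f g hf hg
    filter_upwards [hf, hg] with z h1 h2 y hy hyz
    rw [map_add, h1 y hy hyz, h2 y hy hyz, add_zero]
  smul_mem' := by
    intro c f hf
    filter_upwards [hf] with z h1 y hy hyz
    rw [smul_eq_mul, map_mul, h1 y hy hyz, mul_zero]

lemma mem_IA {σ : k →+* L} {D : Set (τ → k)} {x : τ → L} {f : MvPolynomial τ k} :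
    f ∈ IA σ D x ↔ ∀ᶠ z in 𝓝 x, ∀ y ∈ D, (fun i => σ (y i)) = z → eval y f = 0 := Iff.rfl

/-- finitely many local ideals -/
def FA (σ : k →+* L) (D : Set (τ → k)) : Prop := (Set.range fun x : τ → L => IA σ D x).Finite

lemma IA_stab (σ : k →+* L) (D : Set (τ → k)) (x : τ → L) :
    ∀ᶠ z in 𝓝 x, ∀ y ∈ D, (fun i => σ (y i)) = z → ∀ f ∈ IA σ D x, eval y f = 0 := by
  obtain ⟨G, hG⟩ := (IsNoetherian.noetherian (IA σ D x) : (IA σ D x).FG)
  have h1 : ∀ᶠ z in 𝓝 x, ∀ g ∈ G, ∀ y ∈ D, (fun i => σ (y i)) = z → eval y g = 0 := by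
    rw [Filter.eventually_all_finset]
    intro g hg
    have : g ∈ IA σ D x := by
      rw [← hG]
      exact Submodule.subset_span hg
    exact this
  filter_upwards [h1] with z hz y hy hyz f hf
  rw [← hG] at hf
  refine Submodule.span_induction (p := fun f _ => eval y f = 0)
    (fun g hg => hz g hg y hy hyz) (map_zero _) ?_ ?_ hf
  · intro f g _ _ h1 h2
    rw [map_add, h1, h2, add_zero]
  · intro c f _ h1
    rw [smul_eq_mul, map_mul, h1, mul_zero]

/-- substituting all but one block -/
lemma exists_sub {ι : Type*} [DecidableEq ι] (y : ι × τ → k) (i : ι) (f : MvPolynomial (ι × τ) k) :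
    ∃ g : MvPolynomial τ k, ∀ v : τ → k,
      eval v g = eval (fun s => if s.1 = i then v s.2 else y s) f := by
  refine ⟨aeval (fun s : ι × τ => if s.1 = i then (X s.2 : MvPolynomial τ k) else C (y s)) f,
    fun v => ?_⟩
  have h1 : eval v (aeval (fun s : ι × τ => if s.1 = i then (X s.2 : MvPolynomial τ k)
      else C (y s)) f) = eval₂ (RingHom.id k) (fun s => eval v (if s.1 = i then
        (X s.2 : MvPolynomial τ k) else C (y s))) f := by
    rw [aeval_def, eval₂_comp_left (eval v)]
    congr 1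
    ext a
    simp
  rw [h1]
  change _ = eval₂ (RingHom.id k) _ f
  congr 1
  funext s
  by_cases hs : s.1 = i
  · rw [if_pos hs, if_pos hs, eval_X]
  · rw [if_neg hs, if_neg hs, eval_C]

/-- the product -/
def PD {ι : Type*} (D : ι → Set (τ → k)) : Set (ι × τ → k) :=
  {y | ∀ j, (fun i => y (j, i)) ∈ D j}

lemma IA_prod_le {ι : Type*} [Finite ι] (σ : k →+* L) (D : ι → Set (τ → k)) {x x' : ι × τ → L}
    (h : ∀ j, IA σ (D j) (fun i => x (j, i)) = IA σ (D j) fun i => x' (j, i)) :
    IA σ (PD D) x ≤ IA σ (PD D) x' := by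
  classical
  have := Fintype.ofFinite ι
  intro f hf
  -- neighbourhoods of the factors
  have hpr : ∀ (x : ι × τ → L) (Q : (ι × τ → L) → Prop), (∀ᶠ z in 𝓝 x, Q z) →
      ∃ U : ι → Set (τ → L), (∀ j, U j ∈ 𝓝 fun i => x (j, i)) ∧
        ∀ z : ι × τ → L, (∀ j, (fun i => z (j, i)) ∈ U j) → Q z := by
    intro x Q hQ
    have hc : Continuous fun w : ι → τ → L => (fun s : ι × τ => w s.1 s.2) :=
      continuous_pi fun s => (continuous_apply s.2).comp (continuous_apply s.1)
    have h1 : Tendsto (fun w : ι → τ → L => (fun s : ι × τ => w s.1 s.2))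
        (𝓝 fun j i => x (j, i)) (𝓝 x) := hc.tendsto (fun j i => x (j, i))
    have h2 := h1.eventually hQ
    rw [nhds_pi] at h2
    obtain ⟨I, hI, t, ht, hsub⟩ := Filter.mem_pi.1 h2
    refine ⟨t, ht, fun z hz => ?_⟩
    have h3 : (fun (j : ι) (i : τ) => z (j, i)) ∈ I.pi t := fun j _ => hz j
    exact hsub h3
  obtain ⟨U, hU, hUf⟩ := hpr x _ (mem_IA.1 hf)
  have hst : ∀ j, ∃ U' ∈ 𝓝 (fun i => x' (j, i)), ∀ y ∈ D j, (fun i => σ (y i)) ∈ U' →
      ∀ g ∈ IA σ (D j) (fun i => x' (j, i)), eval y g = 0 := by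
    intro j
    refine ⟨_, IA_stab σ (D j) (fun i => x' (j, i)), fun y hy hyU g hg => ?_⟩
    exact hyU y hy rfl g hg
  choose U' hU' hUs using hst
  have key : ∀ s : Finset ι, ∀ y ∈ PD D, (∀ j ∈ s, (fun i => σ (y (j, i))) ∈ U' j) →
      (∀ j ∉ s, (fun i => σ (y (j, i))) ∈ U j) → eval y f = 0 := by
    intro s
    induction s using Finset.induction_on with
    | empty =>
      intro y hy _ h2
      exact hUf (fun s => σ (y s)) (fun j => h2 j (by simp)) y hy rfl
    | insert i s hi ih =>
      intro y hy h1 h2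
      obtain ⟨g, hg⟩ := exists_sub y i f
      have h3 : g ∈ IA σ (D i) (fun a => x (i, a)) := by
        rw [mem_IA]
        filter_upwards [hU i] with z hz v hv hvz
        rw [hg]
        have e1 : ∀ j, (fun a => (if (j, a).1 = i then v (j, a).2 else y (j, a) : k)) =
            if j = i then v else fun a => y (j, a) := by
          intro j
          by_cases hj : j = i
          · simp [hj]
          · simp [hj]
        refine ih _ ?_ ?_ ?_
        · intro j
          change (fun a => (if (j, a).1 = i then v (j, a).2 else y (j, a) : k)) ∈ D j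
          rw [e1]
          by_cases hj : j = i
          · rw [if_pos hj, hj]
            exact hv
          · rw [if_neg hj]
            exact hy j
        · intro j hj
          have hji : j ≠ i := fun h => hi (h ▸ hj)
          simp only [if_neg hji]
          exact h1 j (Finset.mem_insert_of_mem hj)
        · intro j hj
          by_cases hji : j = i
          · subst hji
            simp only [if_true]
            rw [hvz]
            exact hz
          · simp only [if_neg hji]
            exact h2 j (by simp [hji, hj])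
      rw [h i] at h3
      have h4 := hUs i (fun a => y (i, a)) (hy i) (h1 i (Finset.mem_insert_self _ _)) g h3
      rw [hg] at h4
      rw [← h4]
      congr 1
      congr 1
      funext s
      by_cases hs : s.1 = i
      · rw [if_pos hs, ← hs]
      · rw [if_neg hs]
  rw [mem_IA]
  have hcj : ∀ j, ∀ᶠ z : ι × τ → L in 𝓝 x', (fun i => z (j, i)) ∈ U' j := by
    intro j
    have hc : Continuous fun z : ι × τ → L => (fun i => z (j, i)) :=
      continuous_pi fun i => continuous_apply _
    exact (hc.tendsto x').eventually (hU' j)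
  filter_upwards [Filter.eventually_all.2 hcj] with z hz y hy hyz
  refine key Finset.univ y hy (fun j _ => ?_) (fun j hj => (hj (Finset.mem_univ j)).elim)
  have := hz j
  rw [← hyz] at this
  exact this

/-- **products** -/
theorem FA.prod {ι : Type*} [Finite ι] {σ : k →+* L} {D : ι → Set (τ → k)}
    (h : ∀ j, FA σ (D j)) : FA σ (PD D) := by
  classical
  have := Fintype.ofFinite ι
  have h1 : (Set.pi univ fun j => Set.range fun x : τ → L => IA σ (D j) x).Finite :=
    Set.Finite.pi fun j => h j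
  set Φ : (ι × τ → L) → (ι → Ideal (MvPolynomial τ k)) := fun x j => IA σ (D j) fun i => x (j, i)
    with hΦ
  have h2 : (Set.range Φ).Finite := by
    refine h1.subset ?_
    rintro _ ⟨x, rfl⟩ j _
    exact ⟨_, rfl⟩
  have h3 : ∀ x x', Φ x = Φ x' → IA σ (PD D) x = IA σ (PD D) x' := fun x x' hx =>
    le_antisymm (IA_prod_le σ D fun j => congrFun hx j)
      (IA_prod_le σ D fun j => (congrFun hx j).symm)
  have hex : ∀ w : ι → Ideal (MvPolynomial τ k), ∃ I : Ideal (MvPolynomial (ι × τ) k),
      ∀ x, Φ x = w → IA σ (PD D) x = I := by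
    intro w
    by_cases hw : ∃ x, Φ x = w
    · obtain ⟨x, hx⟩ := hw
      exact ⟨_, fun x' hx' => h3 _ _ (hx'.trans hx.symm)⟩
    · exact ⟨⊤, fun x hx => (hw ⟨x, hx⟩).elim⟩
  choose Ψ hΨ using hex
  refine (h2.image Ψ).subset ?_
  rintro _ ⟨x, rfl⟩
  exact ⟨Φ x, ⟨x, rfl⟩, (hΨ _ x rfl).symm⟩

/-- **isolated values** -/
theorem isolated_finite {σ : k →+* L} {P : Set (τ → k)} (h : FA σ P) (p q : MvPolynomial τ k) :
    {t : k | (∃ y ∈ P, eval y q ≠ 0 ∧ t = eval y p / eval y q) ∧
      ∃ U ∈ 𝓝 (σ t), ∀ y ∈ P, eval y q ≠ 0 → σ (eval y p / eval y q) ∈ U →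
        eval y p / eval y q = t}.Finite := by
  classical
  set T := {t : k | (∃ y ∈ P, eval y q ≠ 0 ∧ t = eval y p / eval y q) ∧
      ∃ U ∈ 𝓝 (σ t), ∀ y ∈ P, eval y q ≠ 0 → σ (eval y p / eval y q) ∈ U →
        eval y p / eval y q = t} with hT
  have hch : ∀ t : k, ∃ y : τ → k, t ∈ T → y ∈ P ∧ eval y q ≠ 0 ∧ t = eval y p / eval y q := by
    intro t
    by_cases ht : t ∈ T
    · obtain ⟨y, hy⟩ := ht.1
      exact ⟨y, fun _ => hy⟩
    · exact ⟨fun _ => 0, fun h => (ht h).elim⟩
  choose y hy using hch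
  refine Set.Finite.of_finite_image (f := fun t => IA σ P fun i => σ (y t i))
    (h.subset (by rintro _ ⟨t, -, rfl⟩; exact ⟨_, rfl⟩)) ?_
  -- the polynomial of an isolated value
  have hcont : ∀ f : MvPolynomial τ k, Continuous fun z : τ → L => eval₂ σ z f := by
    intro f
    induction f using MvPolynomial.induction_on with
    | C a => simpa using continuous_const
    | add p q hp hq =>
      simp only [eval₂_add]
      exact hp.add hq
    | mul_X p i hp =>
      simp only [eval₂_mul, eval₂_X]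
      exact hp.mul (continuous_apply i)
  have hco : ∀ (f : MvPolynomial τ k) (w : τ → k),
      eval₂ σ (fun i => σ (w i)) f = σ (eval w f) := by
    intro f w
    have := eval₂_comp_left σ (RingHom.id k) w f
    rw [RingHom.comp_id] at this
    exact this.symm
  have hmem : ∀ t ∈ T, p - C t * q ∈ IA σ P fun i => σ (y t i) := by
    intro t ht
    obtain ⟨h1, h2, h3⟩ := hy t ht
    obtain ⟨-, U, hU, hU'⟩ := ht
    rw [mem_IA]
    have hq0 : eval₂ σ (fun i => σ (y t i)) q ≠ 0 := by
      rw [hco]
      exact (map_ne_zero σ).2 h2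
    have e1 : ∀ᶠ z in 𝓝 (fun i => σ (y t i)), eval₂ σ z q ≠ 0 :=
      (hcont q).continuousAt.eventually_ne hq0
    have e2 : Tendsto (fun z : τ → L => eval₂ σ z p / eval₂ σ z q) (𝓝 fun i => σ (y t i))
        (𝓝 (σ t)) := by
      have := ((hcont p).tendsto (fun i => σ (y t i))).div ((hcont q).tendsto _) hq0
      rwa [hco, hco, ← map_div₀, ← h3] at this
    filter_upwards [e1, e2.eventually hU] with z hz1 hz2 w hw hwz
    rw [← hwz, hco] at hz1
    have hz1' : eval w q ≠ 0 := fun h => hz1 (by rw [h, map_zero])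
    change eval₂ σ z p / eval₂ σ z q ∈ U at hz2
    rw [← hwz, hco, hco, ← map_div₀] at hz2
    have h4 := hU' w hw hz1' hz2
    rw [map_sub, map_mul, eval_C, ← h4]
    field_simp
    ring
  intro t ht s hs hts
  have h1 := hmem s hs
  have h2 : p - C s * q ∈ IA σ P fun i => σ (y t i) := by
    have hts' : IA σ P (fun i => σ (y t i)) = IA σ P fun i => σ (y s i) := hts
    rw [hts']
    exact h1
  obtain ⟨g1, g2, g3⟩ := hy t ht
  have h3 := (mem_IA.1 h2).self_of_nhds (y t) g1 rfl
  rw [map_sub, map_mul, eval_C, sub_eq_zero] at h3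
  rw [g3, h3]
  field_simp

/-! ### Affine sets from conic sets -/

/-- homogenization -/
lemma exists_hom (σ : k →+* L) {n : ℕ} (f : MvPolynomial (Fin n) k) :
    ∃ (g : MvPolynomial (Fin (n + 1)) k) (N : ℕ), ∀ (s : L) (z : Fin n → L), s ≠ 0 →
      eval₂ σ (Fin.cons s z : Fin (n + 1) → L) g = s ^ N * eval₂ σ (s⁻¹ • z) f := by
  induction f using MvPolynomial.induction_on with
  | C a => exact ⟨C a, 0, fun s z hs => by simp⟩
  | add p q hp hq =>
    obtain ⟨g₁, N₁, h₁⟩ := hp
    obtain ⟨g₂, N₂, h₂⟩ := hq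
    refine ⟨X 0 ^ N₂ * g₁ + X 0 ^ N₁ * g₂, N₁ + N₂, fun s z hs => ?_⟩
    simp only [eval₂_add, eval₂_mul, eval₂_pow, eval₂_X, Fin.cons_zero, h₁ s z hs, h₂ s z hs]
    ring
  | mul_X p i hp =>
    obtain ⟨g, N, h⟩ := hp
    refine ⟨g * X i.succ, N + 1, fun s z hs => ?_⟩
    simp only [eval₂_mul, eval₂_X, Fin.cons_succ, h s z hs, Pi.smul_apply, smul_eq_mul]
    field_simp
    ring

/-- affine sets -/
theorem FA.of_FS (σ : k →+* L) {n : ℕ} {V : (Fin n → k) → Prop} {p : E L (n + 1) → Prop}
    (hp1 : ∀ y : Fin n → k, p (aug fun i => σ (y i)) ↔ V y)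
    (hp2 : ∀ (c : L) (v : E L (n + 1)), c ≠ 0 → (p (c • v) ↔ p v))
    (hfin : FS σ.fieldRange (cn {v | Rt σ.fieldRange v ∧ p v})) : FA σ {y | V y} := by
  set A := cn {v : E L (n + 1) | Rt σ.fieldRange v ∧ p v} with hA
  have hcf : Continuous fun z : E L (n + 1) => (fun i => z (Fin.succ i) : E L n) :=
    continuous_pi fun i => continuous_apply _
  have hca : Continuous (aug : E L n → E L (n + 1)) := by
    refine continuous_pi fun i => ?_
    refine Fin.cases ?_ (fun i => ?_) i
    · exact continuous_const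
    · exact continuous_apply i
  have key : ∀ (x : E L n) (f : MvPolynomial (Fin n) k) (g : MvPolynomial (Fin (n + 1)) k) (N : ℕ),
      (∀ (s : L) (z : Fin n → L), s ≠ 0 →
        eval₂ σ (Fin.cons s z : Fin (n + 1) → L) g = s ^ N * eval₂ σ (s⁻¹ • z) f) →
      (f ∈ IA σ {y | V y} x ↔ mp σ g ∈ J σ.fieldRange A (aug x)) := by
    intro x f g N hg
    constructor
    · intro hf
      rw [mem_J]
      have h0 : ∀ᶠ w in 𝓝 (aug x), (w : E L (n + 1)) 0 ≠ 0 :=
        (continuous_apply (A := fun _ : Fin (n + 1) => L) 0).continuousAt.eventually_ne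
          (by rw [aug_zero]; exact one_ne_zero)
      have h1 : Tendsto (fun w : E L (n + 1) => (w 0)⁻¹ • (fun i => w (Fin.succ i) : E L n))
          (𝓝 (aug x)) (𝓝 x) := by
        have h2 : Tendsto (fun w : E L (n + 1) => (w 0)⁻¹) (𝓝 (aug x)) (𝓝 ((aug x 0)⁻¹)) :=
          ((continuous_apply (A := fun _ : Fin (n + 1) => L) 0).tendsto (aug x)).inv₀
            (by rw [aug_zero]; exact one_ne_zero)
        have h3 := h2.smul (hcf.tendsto (aug x))
        rw [aug_zero, inv_one, one_smul] at h3
        exact h3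
      filter_upwards [h0, h1.eventually hf] with w hw0 hw1 hwA
      obtain ⟨r, u, hr, ⟨hu1, hu2⟩, rfl⟩ := hwA
      obtain ⟨u, rfl⟩ := (rt_iff σ).1 hu1
      have hu0 : u 0 ≠ 0 := by
        intro h
        apply hw0
        simp [h]
      have hσ0 : σ (u 0) ≠ 0 := (map_ne_zero σ).2 hu0
      -- the affine point
      set y : Fin n → k := fun i => (u 0)⁻¹ * u i.succ with hy
      have hau : (aug fun i => σ (y i) : E L (n + 1)) = (σ (u 0))⁻¹ • fun i => σ (u i) := by
        funext i
        refine Fin.cases ?_ (fun i => ?_) i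
        · rw [aug_zero, Pi.smul_apply, smul_eq_mul, inv_mul_cancel₀ hσ0]
        · rw [aug_succ, Pi.smul_apply, smul_eq_mul, hy]
          simp
      have hVy : V y := by
        rw [← hp1, hau, hp2 _ _ (inv_ne_zero hσ0)]
        exact hu2
      have h4 := hw1 y hVy (by
        funext i
        simp only [Pi.smul_apply, smul_eq_mul, hy, map_mul, map_inv₀]
        have : r * σ (u 0) ≠ 0 := mul_ne_zero hr hσ0
        field_simp)
      -- all multiples
      intro t
      have h5 : PL fun t : L => aeval (t • (r • fun i => σ (u i)) : E L (n + 1)) (mp σ g) :=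
        PL.aeval (γ := fun t => t • (r • fun i => σ (u i)))
          (fun i => PL.id.mul (PL.const _)) _
      refine h5.zero (a := 1) ?_ t
      filter_upwards [isOpen_ne.mem_nhds (one_ne_zero (α := L))] with t ht
      have ht' : t ≠ 0 := ht
      rw [aeval_mp]
      have h6 : (t • (r • fun i => σ (u i)) : E L (n + 1)) =
          Fin.cons (t * (r * σ (u 0))) ((t * (r * σ (u 0))) • fun i => σ (y i)) := by
        funext i
        refine Fin.cases ?_ (fun i => ?_) i
        · simp
        · simp only [Pi.smul_apply, smul_eq_mul, Fin.cons_succ, hy, map_mul, map_inv₀]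
          field_simp
      have h7 : t * (r * σ (u 0)) ≠ 0 := mul_ne_zero ht' (mul_ne_zero hr hσ0)
      rw [h6, hg _ _ h7, smul_smul, inv_mul_cancel₀ h7, one_smul, eval₂_co, h4, map_zero,
        mul_zero]
    · intro hgJ
      rw [mem_IA]
      filter_upwards [(hca.tendsto x).eventually (mem_J.1 hgJ)] with z hz y hy hyz
      have h1 : (aug z : E L (n + 1)) ∈ A := by
        rw [← hyz]
        refine sub_cn _ ⟨?_, (hp1 y).2 hy⟩
        intro i
        refine Fin.cases ?_ (fun i => ?_) i
        · exact ⟨1, map_one σ⟩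
        · exact ⟨y i, rfl⟩
      have h2 := hz h1 1
      rw [one_smul, aeval_mp, ← hyz] at h2
      have h3 := hg 1 (fun i => σ (y i)) one_ne_zero
      change eval₂ σ (Fin.cons 1 fun i => σ (y i)) g = 0 at h2
      rw [h2, one_pow, one_mul, inv_one, one_smul, eval₂_co] at h3
      exact σ.injective (by rw [← h3, map_zero])
  choose g N hg using fun f : MvPolynomial (Fin n) k => exists_hom σ f
  have hfin2 := hfin.image fun I => ({f | mp σ (g f) ∈ I} : Set (MvPolynomial (Fin n) k))
  refine Set.Finite.of_finite_image (f := fun I : Ideal (MvPolynomial (Fin n) k) => (I : Set (MvPolynomial (Fin n) k))) (hfin2.subset ?_) (SetLike.coe_injective.injOn)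
  rintro _ ⟨_, ⟨x, rfl⟩, rfl⟩
  refine ⟨J σ.fieldRange A (aug x), ⟨aug x, rfl⟩, ?_⟩
  ext f
  exact (key x f (g f) (N f) (hg f)).symm

end Pool.Agent.TH729.CV
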