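import Pool.Agent.TH729.CV.Sweep

/-!
# Cubic forms without interior points: the structure at nonflex zeros (helper729)
-/

set_option autoImplicit false
set_option linter.unusedSimpArgs false
set_option linter.unusedTactic false
set_option linter.unusedSectionVars false

namespace Pool.Agent.TH729.CV

open Set Filter Topology

variable {L : Type*} [NontriviallyNormedField L] [CompleteSpace L] [CharZero L]

variable {m : ℕ} {F : Tri L m} {K : Subfield L} [DK K]

/-- values at a tangent point -/
lemma tan_vals {P w : E L m} (h0 : F.f P P P = 0) (h1 : F.f P P w = 0) :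
    F.f (tan' F P w) (tan' F P w) P = 9 * (F.f P w w) ^ 3 ∧
    (∀ Z, F.f P P Z = 0 → F.f (tan' F P w) (tan' F P w) Z =
      -6 * F.f w w w * F.f P w w * F.f P w Z + 9 * (F.f P w w) ^ 2 * F.f w w Z) ∧
    (∀ Z, F.f (tan' F P w) Z Z = F.f w w w * F.f P Z Z - 3 * F.f P w w * F.f w Z Z) ∧
    (∀ Z, F.f P P Z = 0 → F.f (tan' F P w) P Z = - 3 * F.f P w w * F.f P w Z) ∧
    F.f (tan' F P w) P P = 0 ∧ F.f P P (tan' F P w) = 0 := by
  simp only [tan']
  refine ⟨?_, fun Z hZ => ?_, fun Z => ?_, fun Z hZ => ?_, ?_, ?_⟩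
  · try simp only [Tri.s12, Tri.s23] at h0 h1
    simp only [map_add, map_sub, map_neg, map_smul, map_zero, LinearMap.add_apply,
      LinearMap.sub_apply, LinearMap.neg_apply, LinearMap.smul_apply, LinearMap.zero_apply,
      smul_eq_mul, Tri.s12, Tri.s23]
    rw [h0, h1]
    ring
  · try simp only [Tri.s12, Tri.s23] at h0 h1 hZ
    simp only [map_add, map_sub, map_neg, map_smul, map_zero, LinearMap.add_apply,
      LinearMap.sub_apply, LinearMap.neg_apply, LinearMap.smul_apply, LinearMap.zero_apply,
      smul_eq_mul, Tri.s12, Tri.s23]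
    rw [hZ]
    ring
  · simp only [map_add, map_sub, map_neg, map_smul, map_zero, LinearMap.add_apply,
      LinearMap.sub_apply, LinearMap.neg_apply, LinearMap.smul_apply, LinearMap.zero_apply,
      smul_eq_mul]
  · try simp only [Tri.s12, Tri.s23] at h0 h1 hZ
    simp only [map_add, map_sub, map_neg, map_smul, map_zero, LinearMap.add_apply,
      LinearMap.sub_apply, LinearMap.neg_apply, LinearMap.smul_apply, LinearMap.zero_apply,
      smul_eq_mul, Tri.s12, Tri.s23]
    rw [hZ]
    ring
  · try simp only [Tri.s12, Tri.s23] at h0 h1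
    simp only [map_add, map_sub, map_neg, map_smul, map_zero, LinearMap.add_apply,
      LinearMap.sub_apply, LinearMap.neg_apply, LinearMap.smul_apply, LinearMap.zero_apply,
      smul_eq_mul, Tri.s12, Tri.s23]
    rw [h0, h1]
    ring
  · simp only [map_add, map_sub, map_neg, map_smul, map_zero, LinearMap.add_apply,
      LinearMap.sub_apply, LinearMap.neg_apply, LinearMap.smul_apply, LinearMap.zero_apply,
      smul_eq_mul]
    rw [h0, h1]
    ring

/-- a straight line is strictly differentiable -/
lemma sdv_line (Z Y : E L m) : SDV (fun t : L => Z + t • Y) 0 :=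
  SDV.add (SDV.const Z 0) (SDV.smul (SD.clm (ContinuousLinearMap.id L L) 0) (SDV.const Y 0))

/-- Step 1 -/
theorem step1 (hF : Rat3 F K) {P Z Y e : E L m} (hP : P ∈ W F K) (he : F.f P P e ≠ 0)
    (h1 : F.f P P Z = 0) (h2 : F.f Z Z Z = 0) (h3 : F.f P Z Z ≠ 0) (h4 : F.f P P Y = 0)
    (h5 : F.f Z Z Y = 0) (h6 : F.f Y Y Y = 0) (h7 : F.f Z Y Y ≠ 0) : Int' F K Y := by
  have hP0 := W.zero_of hP
  set γ : L → E L m := fun t => tan' F P (Z + t • Y) with hγ
  have hPv : ∀ t : L, F.f P P (Z + t • Y) = 0 := by
    intro t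
    simp only [map_add, map_sub, map_neg, map_smul, map_zero, LinearMap.add_apply,
      LinearMap.sub_apply, LinearMap.neg_apply, LinearMap.smul_apply, LinearMap.zero_apply,
      smul_eq_mul]
    rw [h1, h4]
    ring
  have hγW : ∀ t, γ t ∈ W F K := fun t => tan_mem hF hP he (hPv t)
  have hv : Continuous fun t : L => Z + t • Y := by fun_prop
  have hγc : Continuous γ :=
    ((cont F hv hv hv).smul continuous_const).sub
      ((continuous_const.mul (cont F continuous_const hv hv)).smul hv)
  have hγ0 : γ 0 = (-3 * F.f P Z Z) • Z := by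
    simp only [hγ, tan', zero_smul, add_zero, h2, zero_sub, neg_mul, neg_smul]
  have hsm : ∀ᶠ t in 𝓝 (0:L), F.f (γ t) (γ t) P ≠ 0 := by
    have hc : Continuous fun t => F.f (γ t) (γ t) P := cont F hγc hγc continuous_const
    refine hc.continuousAt.eventually_ne ?_
    rw [hγ0]
    simp only [map_add, map_sub, map_neg, map_smul, map_zero, LinearMap.add_apply,
      LinearMap.sub_apply, LinearMap.neg_apply, LinearMap.smul_apply, LinearMap.zero_apply,
      smul_eq_mul]
    have : F.f Z Z P = F.f P Z Z := F.p3 P Z Z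
    rw [this]
    simp [h3]
  refine sweep (γ := γ) (SDV.tan F P (sdv_line Z Y)) (hsm.mono fun t ht => tg_of_mem hF (hγW t) ht) h6 ?_
    (χ := fun t => 18 * F.f Z Y Y * F.f P (Z + t • Y) (Z + t • Y) * (F.f P Z Z + t * F.f P Z Y))
    ?_ ?_ ?_
  · rw [hγ0]
    simp only [map_add, map_sub, map_neg, map_smul, map_zero, LinearMap.add_apply,
      LinearMap.sub_apply, LinearMap.neg_apply, LinearMap.smul_apply, LinearMap.zero_apply,
      smul_eq_mul]
    simp [h3, h7]
  · have h8 := cont F (continuous_const (y := P)) hv hv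
    exact Continuous.continuousAt (by fun_prop)
  · simp [h3, h7]
  · refine Eventually.of_forall fun t => ?_
    obtain ⟨-, g2, -, -, -, -⟩ := tan_vals hP0 (hPv t)
    have a1 : F.f (Z + t • Y) (Z + t • Y) (Z + t • Y) = 3 * t ^ 2 * F.f Z Y Y := by
      try simp only [Tri.s12, Tri.s23] at h2 h5 h6
      simp only [map_add, map_sub, map_neg, map_smul, map_zero, LinearMap.add_apply,
        LinearMap.sub_apply, LinearMap.neg_apply, LinearMap.smul_apply, LinearMap.zero_apply,
        smul_eq_mul, Tri.s12, Tri.s23]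
      rw [h2, h5, h6]
      ring
    have a2 : F.f (Z + t • Y) (Z + t • Y) Y = 2 * t * F.f Z Y Y := by
      try simp only [Tri.s12, Tri.s23] at h2 h5 h6
      simp only [map_add, map_sub, map_neg, map_smul, map_zero, LinearMap.add_apply,
        LinearMap.sub_apply, LinearMap.neg_apply, LinearMap.smul_apply, LinearMap.zero_apply,
        smul_eq_mul, Tri.s12, Tri.s23]
      rw [h5, h6]
      ring
    have a3 : F.f P (Z + t • Y) (Z + t • Y) = F.f P Z Z + 2 * t * F.f P Z Y + t ^ 2 * F.f P Y Y := by
      simp only [map_add, map_sub, map_neg, map_smul, map_zero, LinearMap.add_apply,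
        LinearMap.sub_apply, LinearMap.neg_apply, LinearMap.smul_apply, LinearMap.zero_apply,
        smul_eq_mul, Tri.s12, Tri.s23]
      ring
    have a4 : F.f P (Z + t • Y) Y = F.f P Z Y + t * F.f P Y Y := by
      simp only [map_add, map_sub, map_neg, map_smul, map_zero, LinearMap.add_apply,
        LinearMap.sub_apply, LinearMap.neg_apply, LinearMap.smul_apply, LinearMap.zero_apply,
        smul_eq_mul]
    simp only [hγ]
    rw [g2 Y h4, a1, a2, a3, a4]
    ring

/-- the general hypotheses -/
structure Hyp (F : Tri L m) (K : Subfield L) : Prop where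
  rat : Rat3 F K
  int : ∀ R, ¬ Int' F K R

/-- Step 1' -/
theorem step1' (hH : Hyp F K) {P Z v e : E L m} (hP : P ∈ W F K) (he : F.f P P e ≠ 0)
    (h1 : F.f P P Z = 0) (h2 : F.f Z Z Z = 0) (h3 : F.f P Z Z ≠ 0) (h4 : F.f P P v = 0)
    (h5 : F.f Z Z v = 0) : F.f Z v v = 0 := by
  by_contra h
  refine hH.int (v + (-F.f v v v / (3 * F.f Z v v)) • Z) (step1 hH.rat hP he h1 h2 h3 ?_ ?_ ?_ ?_)
  · simp only [map_add, map_sub, map_neg, map_smul, map_zero, LinearMap.add_apply,
      LinearMap.sub_apply, LinearMap.neg_apply, LinearMap.smul_apply, LinearMap.zero_apply,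
      smul_eq_mul]
    rw [h4, h1]
    ring
  · simp only [map_add, map_sub, map_neg, map_smul, map_zero, LinearMap.add_apply,
      LinearMap.sub_apply, LinearMap.neg_apply, LinearMap.smul_apply, LinearMap.zero_apply,
      smul_eq_mul]
    rw [h5, h2]
    ring
  · have h3' : (3 : L) * F.f Z v v ≠ 0 := by simp [h]
    try simp only [Tri.s12, Tri.s23] at h2 h5 h h3'
    simp only [map_add, map_sub, map_neg, map_smul, map_zero, LinearMap.add_apply,
      LinearMap.sub_apply, LinearMap.neg_apply, LinearMap.smul_apply, LinearMap.zero_apply,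
      smul_eq_mul, Tri.s12, Tri.s23]
    rw [h5, h2]
    field_simp
    ring
  · try simp only [Tri.s12, Tri.s23] at h2 h5 h
    simp only [map_add, map_sub, map_neg, map_smul, map_zero, LinearMap.add_apply,
      LinearMap.sub_apply, LinearMap.neg_apply, LinearMap.smul_apply, LinearMap.zero_apply,
      smul_eq_mul, Tri.s12, Tri.s23]
    rw [h5, h2]
    simpa using h

/-- Step 2 -/
theorem step2 (hH : Hyp F K) {P Z v e : E L m} (hP : P ∈ W F K) (he : F.f P P e ≠ 0)
    (h1 : F.f P P Z = 0) (h2 : F.f Z Z Z = 0) (h3 : F.f P Z Z ≠ 0) (h4 : F.f P P v = 0)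
    (h5 : F.f Z Z v = 0) : F.f v v v = 0 := by
  have hP0 := W.zero_of hP
  have h6 := step1' hH hP he h1 h2 h3 h4 h5
  by_contra h
  have key : ∀ᶠ s : L in 𝓝[≠] 0, F.f P Z Z * F.f P (Z + s • v) (Z + s • v) =
      4 * (F.f P Z Z + s * F.f P Z v) ^ 2 := by
    have hc : Continuous fun s : L => F.f P (Z + s • v) (Z + s • v) :=
      cont F continuous_const (by fun_prop) (by fun_prop)
    have hev : ∀ᶠ s : L in 𝓝 0, F.f P (Z + s • v) (Z + s • v) ≠ 0 :=
      hc.continuousAt.eventually_ne (by simpa using h3)
    filter_upwards [hev.filter_mono nhdsWithin_le_nhds, self_mem_nhdsWithin] with s hs hs0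
    -- the auxiliary zero
    have e0 : F.f P P (Z + s • v) = 0 := by
      simp only [map_add, map_sub, map_neg, map_smul, map_zero, LinearMap.add_apply,
        LinearMap.sub_apply, LinearMap.neg_apply, LinearMap.smul_apply, LinearMap.zero_apply,
        smul_eq_mul]
      rw [h1, h4]
      ring
    have f2 : F.f (Z + s • v) (Z + s • v) (Z + s • v) = s ^ 3 * F.f v v v := by
      try simp only [Tri.s12, Tri.s23] at h2 h5 h6
      simp only [map_add, map_sub, map_neg, map_smul, map_zero, LinearMap.add_apply,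
        LinearMap.sub_apply, LinearMap.neg_apply, LinearMap.smul_apply, LinearMap.zero_apply,
        smul_eq_mul, Tri.s12, Tri.s23]
      rw [h5, h2, h6]
      ring
    have f3 : F.f (Z + s • v) (Z + s • v) Z = 0 := by
      try simp only [Tri.s12, Tri.s23] at h2 h5 h6
      simp only [map_add, map_sub, map_neg, map_smul, map_zero, LinearMap.add_apply,
        LinearMap.sub_apply, LinearMap.neg_apply, LinearMap.smul_apply, LinearMap.zero_apply,
        smul_eq_mul, Tri.s12, Tri.s23]
      rw [h5, h2, h6]
      ring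
    have f4 : F.f (Z + s • v) Z Z = 0 := by
      try simp only [Tri.s12, Tri.s23] at h2 h5 h6
      simp only [map_add, map_sub, map_neg, map_smul, map_zero, LinearMap.add_apply,
        LinearMap.sub_apply, LinearMap.neg_apply, LinearMap.smul_apply, LinearMap.zero_apply,
        smul_eq_mul, Tri.s12, Tri.s23]
      rw [h5, h2]
      ring
    have f5 : F.f P (Z + s • v) Z = F.f P Z Z + s * F.f P Z v := by
      simp only [map_add, map_sub, map_neg, map_smul, map_zero, LinearMap.add_apply,
        LinearMap.sub_apply, LinearMap.neg_apply, LinearMap.smul_apply, LinearMap.zero_apply,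
        smul_eq_mul, Tri.s12, Tri.s23]
    generalize hw : Z + s • v = w at *
    obtain ⟨g1, g2, g3, g4, g5, g6⟩ := tan_vals hP0 e0
    have g7 := tan_zero F hP0 e0
    set Q := tan' F P w with hQ
    have e3 : F.f P Q Q ≠ 0 := by
      rw [← F.p3 P Q Q, g1]
      exact mul_ne_zero (by norm_num) (pow_ne_zero _ hs)
    have g2' := g2 Z h1
    rw [f2, f3, f5, mul_zero, add_zero] at g2'
    have e4 : F.f P P (F.f Q Q P • Z - F.f Q Q Z • P) = 0 := by
      rw [map_sub, map_smul, map_smul, h1, hP0]
      simp
    have e5 : F.f Q Q (F.f Q Q P • Z - F.f Q Q Z • P) = 0 := by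
      rw [map_sub, map_smul, map_smul, smul_eq_mul, smul_eq_mul]
      ring
    have e6 := step1' hH hP he g6 g7 e3 e4 e5
    rw [g1, g2'] at e6
    have g3' := g3 Z
    rw [f2, f4] at g3'
    have g4' := g4 Z h1
    rw [f5] at g4'
    set D := F.f P w w with hD
    set q := F.f P Z Z with hq
    set c := F.f P Z v with hc
    set f := F.f v v v with hf
    have e7 : F.f Q ((9 * D ^ 3) • Z - (-6 * (s ^ 3 * f) * D * (q + s * c)) • P)
        ((9 * D ^ 3) • Z - (-6 * (s ^ 3 * f) * D * (q + s * c)) • P) =
        (9 * D ^ 3) ^ 2 * F.f Q Z Z - 2 * (9 * D ^ 3) * (-6 * (s ^ 3 * f) * D * (q + s * c)) *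
          F.f Q P Z + (-6 * (s ^ 3 * f) * D * (q + s * c)) ^ 2 * F.f Q P P := by
      generalize (9 * D ^ 3) = a
      generalize (-6 * (s ^ 3 * f) * D * (q + s * c)) = b
      clear_value Q
      simp only [map_add, map_sub, map_neg, map_smul, map_zero, LinearMap.add_apply,
        LinearMap.sub_apply, LinearMap.neg_apply, LinearMap.smul_apply, LinearMap.zero_apply,
        smul_eq_mul, Tri.s12, Tri.s23]
      ring
    rw [e7, g3', g4', g5] at e6
    have hs0' : s ≠ 0 := hs0
    have e8 : (81 * D ^ 5 * (s ^ 3 * f)) * (q * D - 4 * (q + s * c) ^ 2) = 0 := by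
      linear_combination e6
    have e9 := (mul_eq_zero.1 e8).resolve_left (by simp [hs, hs0', h])
    linear_combination e9
  have hc1 : Tendsto (fun s : L => F.f P Z Z * F.f P (Z + s • v) (Z + s • v)) (𝓝[≠] 0)
      (𝓝 (F.f P Z Z * F.f P Z Z)) := by
    have hc : Continuous fun s : L => F.f P Z Z * F.f P (Z + s • v) (Z + s • v) :=
      continuous_const.mul (cont F continuous_const (by fun_prop) (by fun_prop))
    have := (hc.tendsto 0).mono_left (nhdsWithin_le_nhds (s := {0}ᶜ))
    simpa using this
  have hc2 : Tendsto (fun s : L => 4 * (F.f P Z Z + s * F.f P Z v) ^ 2) (𝓝[≠] 0)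
      (𝓝 (4 * (F.f P Z Z) ^ 2)) := by
    have hc : Continuous fun s : L => 4 * (F.f P Z Z + s * F.f P Z v) ^ 2 := by fun_prop
    have := (hc.tendsto 0).mono_left (nhdsWithin_le_nhds (s := {0}ᶜ))
    simpa using this
  have h7 := tendsto_nhds_unique (hc1.congr' key) hc2
  have h8 : (F.f P Z Z) ^ 2 = 0 := by linear_combination (-1 / 3) * h7
  exact h3 (by simpa using h8)

/-- Step 4: for a zero `Z` in the annihilator -/
theorem step4 (hH : Hyp F K) {P Z w v e : E L m} (hP : P ∈ W F K) (he : F.f P P e ≠ 0)
    (h1 : F.f P P Z = 0) (h3 : F.f P Z Z ≠ 0)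
    (h4 : F.f P P w = 0) (hN : ∀ a b : L, F.f (a • Z + b • w) (a • Z + b • w) (a • Z + b • w) = 0)
    (h5 : F.f Z Z v = 0) : F.f Z w v = 0 := by
  have hP0 := W.zero_of hP
  -- consequences of `hN`
  have n1 : F.f Z Z Z = 0 := by
    have := hN 1 0
    simpa using this
  have n2 : F.f w w w = 0 := by
    have := hN 0 1
    simpa using this
  have n3 : F.f Z Z w = 0 ∧ F.f Z w w = 0 := by
    have i1 := hN 1 1
    have i2 := hN 1 (-1)
    try simp only [Tri.s12, Tri.s23] at n1 n2
    try simp only [Tri.s12, Tri.s23]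
    simp only [map_add, map_sub, map_neg, map_smul, map_zero,
      LinearMap.add_apply, LinearMap.sub_apply, LinearMap.neg_apply, LinearMap.smul_apply,
      LinearMap.zero_apply, smul_eq_mul, Tri.s12, Tri.s23, n1, n2] at i1 i2
    constructor
    · linear_combination (i1 - i2) / 6
    · linear_combination (i1 + i2) / 6
  -- the case of `v` with nonzero second form
  have main : ∀ v, F.f Z Z v = 0 → F.f Z v v ≠ 0 → F.f Z w v = 0 := by
    intro v hv hv2
    obtain ⟨g1, -, -, -, -, y1⟩ := tan_vals n1 hv
    have y2 := tan_zero F n1 hv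
    have y3 : F.f Z (tan' F Z v) (tan' F Z v) = 9 * (F.f Z v v) ^ 3 := by
      rw [← g1, F.p3 Z]
    have y4 : F.f Z w (tan' F Z v) = - 3 * F.f Z v v * F.f Z w v := by
      simp only [tan']
      have n31 := n3.1
      try simp only [Tri.s12, Tri.s23] at n31
      simp only [map_add, map_sub, map_neg, map_smul, map_zero, LinearMap.add_apply,
        LinearMap.sub_apply, LinearMap.neg_apply, LinearMap.smul_apply, LinearMap.zero_apply,
        smul_eq_mul, Tri.s12, Tri.s23]
      rw [n31]
      ring
    set Y := tan' F Z v with hY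
    by_contra hne
    refine hH.int Y (sweep (γ := fun t => Z + t • w) (sdv_line Z w) ?_ y2 ?_
      (χ := fun t => 2 * F.f Z w Y + t * F.f w w Y) ?_ ?_ ?_)
    · have hc : Continuous fun t : L => F.f P (Z + t • w) (Z + t • w) :=
        cont F continuous_const (by fun_prop) (by fun_prop)
      have hev : ∀ᶠ t : L in 𝓝 0, F.f P (Z + t • w) (Z + t • w) ≠ 0 :=
        hc.continuousAt.eventually_ne (by simpa using h3)
      refine hev.mono fun t ht => ?_
      have hm : Z + t • w ∈ W F K := by
        refine tg_of_mem hH.rat hP he _ ?_ ?_ ht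
        · simp only [map_add, map_sub, map_neg, map_smul, map_zero, LinearMap.add_apply,
            LinearMap.sub_apply, LinearMap.neg_apply, LinearMap.smul_apply, LinearMap.zero_apply,
            smul_eq_mul]
          rw [h1, h4]
          ring
        · have := hN 1 t
          rwa [one_smul] at this
      refine tg_of_mem hH.rat hm (e := P) ?_
      rwa [F.p3 P (Z + t • w) (Z + t • w)]
    · simp only [zero_smul, add_zero]
      rw [y3]
      simp [hv2]
    · exact Continuous.continuousAt (by fun_prop)
    · simp only [zero_mul, add_zero]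
      rw [y4]
      simp [hv2, hne]
    · refine Eventually.of_forall fun t => ?_
      clear_value Y
      try simp only [Tri.s12, Tri.s23] at y1
      simp only [map_add, map_sub, map_neg, map_smul, map_zero, LinearMap.add_apply,
        LinearMap.sub_apply, LinearMap.neg_apply, LinearMap.smul_apply, LinearMap.zero_apply,
        smul_eq_mul, Tri.s12, Tri.s23]
      rw [y1]
      ring
  by_cases hfl : ∀ v, F.f Z Z v = 0 → F.f Z v v = 0
  · have hw := n3.1
    have k1 := hfl (w + v) (by rw [map_add, hw, h5, add_zero])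
    have k2 := hfl v h5
    have k3 := n3.2
    simp only [map_add, LinearMap.add_apply, Tri.s12, Tri.s23] at k1 k2 k3 ⊢
    rw [k2, k3] at k1
    linear_combination k1 / 2
  · push Not at hfl
    obtain ⟨v₀, hv₀, hv₀'⟩ := hfl
    by_cases h6 : F.f Z v v = 0
    · have m0 := main v₀ hv₀ hv₀'
      by_cases h7 : F.f Z (v₀ + v) (v₀ + v) = 0
      · have h8 : F.f Z (v₀ - v) (v₀ - v) ≠ 0 := by
          intro h8
          simp only [map_add, map_sub, LinearMap.add_apply, LinearMap.sub_apply, Tri.s12,
            Tri.s23] at h6 h7 h8 hv₀'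
          rw [h6] at h7 h8
          apply hv₀'
          linear_combination (h7 + h8) / 2
        have := main (v₀ - v) (by rw [map_sub, hv₀, h5, sub_zero]) h8
        rw [map_sub, m0] at this
        linear_combination -this
      · have := main (v₀ + v) (by rw [map_add, hv₀, h5, add_zero]) h7
        rw [map_add, m0] at this
        linear_combination this
    · exact main v h5 h6

end Pool.Agent.TH729.CV
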