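import Pool.Agent.TH729.CV.Lin3

/-!
# Hyperplane sections and quadrics (helper729)
-/

set_option autoImplicit false
set_option linter.unusedSimpArgs false
set_option linter.unusedTactic false
set_option linter.unusedSectionVars false

namespace Pool.Agent.TH729.CV

open Set Filter Topology

variable {L : Type*} [NontriviallyNormedField L] [CompleteSpace L] [CharZero L]

variable {m : ℕ} {K : Subfield L}

/-- the functional of a vector -/
noncomputable def dt {n : ℕ} (a : Fin n → K) : E L n →ₗ[L] L where
  toFun v := ∑ i, (a i : L) * v i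
  map_add' v w := by
    simp only [Pi.add_apply, mul_add, Finset.sum_add_distrib]
  map_smul' c v := by
    simp only [Pi.smul_apply, smul_eq_mul, RingHom.id_apply, Finset.mul_sum]
    exact Finset.sum_congr rfl fun i _ => by ring

lemma dt_apply {n : ℕ} (a : Fin n → K) (v : E L n) : dt a v = ∑ i, (a i : L) * v i := rfl

lemma dt_cont {n : ℕ} (a : Fin n → K) : Continuous (dt a) :=
  LinearMap.continuous_of_finiteDimensional _

lemma dt_mem {n : ℕ} (a : Fin n → K) {v : E L n} (hv : Rt K v) : dt a v ∈ K := by
  rw [dt_apply]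
  exact K.sum_mem fun i _ => K.mul_mem (a i).2 (hv i)

/-- vectors representing rational functionals -/
lemma exists_dt {n : ℕ} (l : E L n →ₗ[L] L) (hl : ∀ v, Rt K v → l v ∈ K) :
    ∃ a : Fin n → K, ∀ v, dt a v = l v := by
  refine ⟨fun i => ⟨l (fun j => if i = j then 1 else 0), hl _ fun j => ?_⟩, fun v => ?_⟩
  · by_cases h : i = j
    · simp [h, K.one_mem]
    · simp [h, K.zero_mem]
  · rw [LinearMap.pi_apply_eq_sum_univ l v, dt_apply]
    refine Finset.sum_congr rfl fun i _ => ?_
    rw [smul_eq_mul, mul_comm]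

/-- parametrization of a hyperplane -/
noncomputable def par (a : Fin (m + 1) → K) (j : Fin (m + 1)) : E L m →ₗ[L] E L (m + 1) where
  toFun u := j.insertNth (-(∑ i, (a (j.succAbove i) : L) * u i) / (a j : L)) u
  map_add' u v := by
    funext k
    refine Fin.succAboveCases j ?_ (fun i => ?_) k
    · simp only [Fin.insertNth_apply_same, Pi.add_apply, mul_add, Finset.sum_add_distrib]
      ring
    · simp only [Fin.insertNth_apply_succAbove, Pi.add_apply]
  map_smul' c u := by
    funext k
    refine Fin.succAboveCases j ?_ (fun i => ?_) k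
    · simp only [Fin.insertNth_apply_same, Pi.smul_apply, smul_eq_mul, RingHom.id_apply]
      have : ∑ i, (a (j.succAbove i) : L) * (c * u i) = c * ∑ i, (a (j.succAbove i) : L) * u i := by
        rw [Finset.mul_sum]
        exact Finset.sum_congr rfl fun i _ => by ring
      rw [this]
      ring
    · simp only [Fin.insertNth_apply_succAbove, Pi.smul_apply, RingHom.id_apply]

lemma par_same (a : Fin (m + 1) → K) (j : Fin (m + 1)) (u : E L m) :
    par a j u j = -(∑ i, (a (j.succAbove i) : L) * u i) / (a j : L) := by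
  simp [par]

lemma par_succ (a : Fin (m + 1) → K) (j : Fin (m + 1)) (u : E L m) (i : Fin m) :
    par a j u (j.succAbove i) = u i := by
  simp [par]

lemma par_rt {a : Fin (m + 1) → K} {j : Fin (m + 1)} {u : E L m} (hu : Rt K u) :
    Rt K (par a j u) := by
  intro k
  refine Fin.succAboveCases j ?_ (fun i => ?_) k
  · rw [par_same]
    exact K.div_mem (K.neg_mem (K.sum_mem fun i _ => K.mul_mem (a _).2 (hu i))) (a j).2
  · rw [par_succ]
    exact hu i

lemma par_dt {a : Fin (m + 1) → K} {j : Fin (m + 1)} (hj : a j ≠ 0) (u : E L m) :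
    dt a (par a j u) = 0 := by
  have hj' : (a j : L) ≠ 0 := fun h => hj (Subtype.ext h)
  rw [dt_apply, Fin.sum_univ_succAbove _ j, par_same]
  simp only [par_succ]
  field_simp
  ring

lemma par_res {a : Fin (m + 1) → K} {j : Fin (m + 1)} (hj : a j ≠ 0) {v : E L (m + 1)}
    (hv : dt a v = 0) : par a j (fun i => v (j.succAbove i)) = v := by
  have hj' : (a j : L) ≠ 0 := fun h => hj (Subtype.ext h)
  rw [dt_apply, Fin.sum_univ_succAbove _ j] at hv
  funext k
  refine Fin.succAboveCases j ?_ (fun i => ?_) k
  · rw [par_same]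
    field_simp
    linear_combination -hv
  · rw [par_succ]

/-- the closure of the rational zeros of `φ` in a hyperplane -/
def WH (a : Fin (m + 1) → K) (φ : E L (m + 1) → L) : Set (E L (m + 1)) :=
  closure {v | Rt K v ∧ dt a v = 0 ∧ φ v = 0}

lemma WH_eq {a : Fin (m + 1) → K} {j : Fin (m + 1)} (hj : a j ≠ 0) (φ : E L (m + 1) → L) :
    WH a φ = {v | dt a v = 0 ∧ (fun i => v (j.succAbove i)) ∈
      closure {u : E L m | Rt K u ∧ φ (par a j u) = 0}} := by
  have hpc : Continuous (par a j) := LinearMap.continuous_of_finiteDimensional _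
  have hrc : Continuous fun (v : E L (m + 1)) (i : Fin m) => v (j.succAbove i) :=
    continuous_pi fun i => continuous_apply _
  apply Subset.antisymm
  · intro v hv
    have h1 : dt a v = 0 :=
      closure_minimal (t := {v | dt a v = 0}) (fun v hv => hv.2.1)
        (isClosed_eq (dt_cont a) continuous_const) hv
    refine ⟨h1, ?_⟩
    have h2 := image_closure_subset_closure_image hrc ⟨v, hv, rfl⟩
    refine closure_mono ?_ h2
    rintro _ ⟨w, ⟨hw1, hw2, hw3⟩, rfl⟩
    refine ⟨fun i => hw1 _, ?_⟩
    rw [par_res hj hw2]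
    exact hw3
  · rintro v ⟨hv1, hv2⟩
    have h2 := image_closure_subset_closure_image hpc ⟨_, hv2, rfl⟩
    rw [par_res hj hv1] at h2
    refine closure_mono ?_ h2
    rintro _ ⟨u, ⟨hu1, hu2⟩, rfl⟩
    exact ⟨par_rt hu1, par_dt hj u, hu2⟩

/-! ### Quadrics -/

/-- symmetric bilinear forms -/
structure Bil (L : Type*) [Field L] (m : ℕ) where
  /-- the form -/
  b : E L m →ₗ[L] E L m →ₗ[L] L
  symm : ∀ v w, b v w = b w v

/-- rational bilinear forms -/
def Rat2 (B : Bil L m) (K : Subfield L) : Prop := ∀ v w, Rt K v → Rt K w → B.b v w ∈ K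

lemma Bil.expand (B : Bil L m) (a c : E L m) : B.b a c = ∑ i, ∑ j, a i * (c j *
    B.b (fun l => if i = l then 1 else 0) (fun l => if j = l then 1 else 0)) := by
  have h1 : B.b a = ∑ i, a i • B.b (fun l => if i = l then 1 else 0) :=
    LinearMap.pi_apply_eq_sum_univ B.b a
  rw [h1, LinearMap.sum_apply]
  refine Finset.sum_congr rfl fun i _ => ?_
  have h2 := LinearMap.pi_apply_eq_sum_univ (B.b (fun l => if i = l then 1 else 0)) c
  rw [LinearMap.smul_apply, h2, smul_eq_mul, Finset.mul_sum]
  refine Finset.sum_congr rfl fun j _ => ?_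
  rw [smul_eq_mul]

lemma rt_basis (i : Fin m) : Rt K (fun l => if i = l then (1 : L) else 0) := by
  intro j
  by_cases h : i = j
  · simp [h, K.one_mem]
  · simp [h, K.zero_mem]

lemma Bil.cont (B : Bil L m) {X : Type*} [TopologicalSpace X] {a c : X → E L m} (ha : Continuous a)
    (hc : Continuous c) : Continuous fun x => B.b (a x) (c x) := by
  rw [show (fun x => B.b (a x) (c x)) = _ from funext fun x => B.expand (a x) (c x)]
  refine continuous_finsetSum _ fun i _ => continuous_finsetSum _ fun j _ => ?_
  exact ((continuous_apply i).comp ha).mul (((continuous_apply j).comp hc).mul continuous_const)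

/-- pullback -/
def Bil.comap (B : Bil L m) {n : ℕ} (l : E L n →ₗ[L] E L m) : Bil L n where
  b := B.b.compl₁₂ l l
  symm _ _ := B.symm _ _

/-- pullback -/
def Tri.comap (F : Tri L m) {n : ℕ} (l : E L n →ₗ[L] E L m) : Tri L n where
  f :=
    { toFun := fun a => (F.f (l a)).compl₁₂ l l
      map_add' := fun a b => by
        ext c d
        simp
      map_smul' := fun t a => by
        ext c d
        simp }
  s12 _ _ _ := F.s12 _ _ _
  s23 _ _ _ := F.s23 _ _ _

lemma Tri.comap_apply (F : Tri L m) {n : ℕ} (l : E L n →ₗ[L] E L m) (a b c : E L n) :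
    (F.comap l).f a b c = F.f (l a) (l b) (l c) := rfl

lemma Bil.comap_apply (B : Bil L m) {n : ℕ} (l : E L n →ₗ[L] E L m) (a b : E L n) :
    (B.comap l).b a b = B.b (l a) (l b) := rfl

/-- the closure of the rational zeros of a quadratic form -/
def WB (B : Bil L m) (K : Subfield L) : Set (E L m) := closure {v | Rt K v ∧ B.b v v = 0}

end Pool.Agent.TH729.CV
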