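import Pool.Agent.TH729.CV.AsmB

/-!
# Cubic forms: rational singular points (helper729)
-/

set_option autoImplicit false
set_option linter.unusedSimpArgs false
set_option linter.unusedTactic false
set_option linter.unusedSectionVars false

namespace Pool.Agent.TH729.CV

open Set Filter Topology

variable {L : Type*} [NontriviallyNormedField L] [CompleteSpace L] [CharZero L]

variable {m : ℕ} {F : Tri L m} {K : Subfield L} [DK K]

/-- tangent constructions at a rational singular point -/
lemma sing_tan (hF : Rat3 F K) {P : E L m} (hP : Rt K P) (hs : ∀ v, F.f P P v = 0) (v : E L m) :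
    tan' F P v ∈ W F K := by
  obtain ⟨w, hw, hw'⟩ := seq_rt (K := K) v
  refine W.of_seq (u := fun n => tan' F P (w n)) ?_ ?_
  · exact Eventually.of_forall fun n => Z.tan hF ⟨hP, hs P⟩ (hw n) (hs _)
  · exact ((tend F hw' hw' hw').smul tendsto_const_nhds).sub
      ((tendsto_const_nhds.mul (tend F tendsto_const_nhds hw' hw')).smul hw')

/-- without interior points, rational singular points are vertices -/
lemma vertex_of (hH : Hyp F K) {P : E L m} (hP : Rt K P) (hs : ∀ v, F.f P P v = 0) (v w : E L m) :
    F.f P v w = 0 := by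
  have key : ∀ v, F.f P v v = 0 := by
    intro v
    by_contra h
    obtain ⟨g1, -, -, -, -, -⟩ := tan_vals (hs P) (hs v)
    have g7 := tan_zero F (hs P) (hs v)
    have hne : F.f (tan' F P v) (tan' F P v) P ≠ 0 := by
      rw [g1]
      exact mul_ne_zero (by norm_num) (pow_ne_zero _ h)
    refine hH.int (tan' F P v) ⟨g7, ⟨P, hne⟩, ?_⟩
    have hc : Continuous fun Y : E L m => F.f P Y Y :=
      cont F continuous_const continuous_id continuous_id
    have hne2 : F.f P (tan' F P v) (tan' F P v) ≠ 0 := by rwa [← F.p3 P]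
    filter_upwards [hc.continuousAt.eventually_ne hne2] with Y hY h0
    exact sing_mem hH.rat hP hs h0 hY
  have h1 := key (v + w)
  have h2 := key v
  have h3 := key w
  try simp only [Tri.s12, Tri.s23] at h2 h3
  simp only [map_add, LinearMap.add_apply, Tri.s12, Tri.s23] at h1
  rw [h2, h3] at h1
  try simp only [Tri.s12, Tri.s23]
  linear_combination h1 / 2

/-- the smooth points of the closure -/
def WS (F : Tri L m) (K : Subfield L) : Set (E L m) := {v | v ∈ W F K ∧ ∃ e, F.f v v e ≠ 0}

lemma WS.smul {v : E L m} (h : v ∈ WS F K) {t : L} (ht : t ≠ 0) : t • v ∈ WS F K := by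
  obtain ⟨h1, e, he⟩ := h
  refine ⟨W.smul t h1, e, ?_⟩
  simp only [map_smul, LinearMap.smul_apply, smul_eq_mul]
  exact mul_ne_zero ht (mul_ne_zero ht he)

lemma WSc.smul {v : E L m} (h : v ∈ closure (WS F K)) {t : L} (ht : t ≠ 0) :
    t • v ∈ closure (WS F K) := by
  have hc : Continuous fun v : E L m => t • v := by fun_prop
  exact map_mem_closure hc h fun w hw => WS.smul hw ht

/-- rational zeros outside the closure of the smooth part lie in a rational hyperplane -/
theorem sing_cover (hF : Rat3 F K) (hN : NH F K) {R : E L m} (hR : Int' F K R) :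
    ∃ a : Fin m → K, a ≠ 0 ∧ ∀ P ∈ Z F K, P ∉ closure (WS F K) → dt a P = 0 := by
  obtain ⟨e, he⟩ := hR.2.1
  have hRR := hR.1
  have hRS : R ∈ WS F K := ⟨hR.mem, e, he⟩
  have hnz : ∃ v, F.f v v v ≠ 0 := by
    by_contra h
    push Not at h
    have h2 : ∀ᶠ t in 𝓝 (0 : L), 0 + (3 * F.f R R e) * t + (3 * F.f R e e) * t ^ 2 +
        F.f e e e * t ^ 3 = 0 := by
      refine Eventually.of_forall fun t => ?_
      have h5 : 0 + (3 * F.f R R e) * t + (3 * F.f R e e) * t ^ 2 + F.f e e e * t ^ 3 =
          F.f (R + t • e) (R + t • e) (R + t • e) := by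
        try simp only [Tri.s12, Tri.s23] at hRR
        simp only [map_add, map_sub, map_neg, map_smul, map_zero, LinearMap.add_apply,
          LinearMap.sub_apply, LinearMap.neg_apply, LinearMap.smul_apply, LinearMap.zero_apply,
          smul_eq_mul, Tri.s12, Tri.s23]
        rw [hRR]
        ring
      rw [h5]
      exact h _
    have h3 := (poly3 h2).2.1
    exact he (by linear_combination h3 / 3)
  have hsing : ∀ P ∈ Z F K, P ∉ closure (WS F K) → ∀ v, F.f P P v = 0 := by
    intro P hP hn v
    by_contra h
    exact hn (subset_closure ⟨subset_closure hP, v, h⟩)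
  obtain ⟨t, ht0, ht⟩ := exists_seq0 L
  -- the second form is not zero
  have D1a : ∀ P ∈ Z F K, P ∉ closure (WS F K) → ∃ w, F.f P w w ≠ 0 := by
    intro P hP hn
    by_contra h
    push Not at h
    have hpol : ∀ v w, F.f P v w = 0 := by
      intro v w
      have h1 := h (v + w)
      have h2 := h v
      have h3 := h w
      try simp only [Tri.s12, Tri.s23] at h2 h3
      simp only [map_add, LinearMap.add_apply, Tri.s12, Tri.s23] at h1
      rw [h2, h3] at h1
      try simp only [Tri.s12, Tri.s23]
      linear_combination h1 / 2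
    apply hn
    have hmem : ∀ t : L, R + t • P ∈ WS F K := by
      intro t
      refine ⟨?_, e, ?_⟩
      · obtain ⟨u, hu, hu'⟩ := W.seq hR.mem
        obtain ⟨s, hs, hs'⟩ := seq_K (K := K) t
        refine W.of_seq (u := fun n => u n + s n • P) (Eventually.of_forall fun n => ⟨(hu n).1.add
          (hP.1.smul (hs n)), ?_⟩) (hu'.add (hs'.smul tendsto_const_nhds))
        have h1 := (hu n).2
        have h2 := hpol (u n) (u n)
        have h3 := hpol P (u n)
        have h4 := hpol P P
        try simp only [Tri.s12, Tri.s23] at h1 h2 h3 h4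
        simp only [map_add, map_sub, map_neg, map_smul, map_zero, LinearMap.add_apply,
          LinearMap.sub_apply, LinearMap.neg_apply, LinearMap.smul_apply, LinearMap.zero_apply,
          smul_eq_mul, Tri.s12, Tri.s23]
        rw [h1, h2, h3, h4]
        ring
      · have h2 := hpol R e
        have h3 := hpol P e
        have h5 : F.f (R + t • P) (R + t • P) e = F.f R R e := by
          try simp only [Tri.s12, Tri.s23] at h2 h3
          simp only [map_add, map_sub, map_neg, map_smul, map_zero, LinearMap.add_apply,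
            LinearMap.sub_apply, LinearMap.neg_apply, LinearMap.smul_apply, LinearMap.zero_apply,
            smul_eq_mul, Tri.s12, Tri.s23]
          rw [h2, h3]
          ring
        rw [h5]
        exact he
    refine mem_closure_of_tendsto (f := fun n : ℕ => t n • (R + (t n)⁻¹ • P))
      (b := atTop) ?_ (Eventually.of_forall fun n => ?_)
    · have h1 : Tendsto (fun n : ℕ => t n • R + P) atTop
          (𝓝 ((0 : L) • R + P)) := (ht.smul tendsto_const_nhds).add tendsto_const_nhds
      rw [zero_smul, zero_add] at h1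
      refine h1.congr fun n => ?_
      rw [smul_add, smul_smul, mul_inv_cancel₀ (ht0 n), one_smul]
    · exact WS.smul (hmem _) (ht0 n)
  -- its zeros are zeros of the cubic
  have D1b : ∀ P ∈ Z F K, P ∉ closure (WS F K) → ∀ v, F.f P v v = 0 → F.f v v v = 0 := by
    intro P hP hn v hv
    by_contra h
    obtain ⟨w, hw⟩ := D1a P hP hn
    have hsP := hsing P hP hn
    set β := F.f P v w with hβ
    set q := F.f P w w with hq
    have hval : ∀ s : L, F.f P (v + s • w) (v + s • w) = s * (2 * β + s * q) := by
      intro s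
      rw [hβ, hq]
      try simp only [Tri.s12, Tri.s23] at hv
      simp only [map_add, map_sub, map_neg, map_smul, map_zero, LinearMap.add_apply,
        LinearMap.sub_apply, LinearMap.neg_apply, LinearMap.smul_apply, LinearMap.zero_apply,
        smul_eq_mul, Tri.s12, Tri.s23]
      rw [hv]
      ring
    have hev : ∀ᶠ n : ℕ in atTop, F.f P (v + t n • w) (v + t n • w) ≠ 0 := by
      by_cases hb : β = 0
      · refine Eventually.of_forall fun n => ?_
        rw [hval, hb]
        simp only [mul_zero, zero_add]
        exact mul_ne_zero (ht0 n) (mul_ne_zero (ht0 n) hw)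
      · have h1 : Tendsto (fun n : ℕ => 2 * β + t n * q) atTop
            (𝓝 (2 * β + 0 * q)) := tendsto_const_nhds.add (ht.mul tendsto_const_nhds)
        rw [zero_mul, add_zero] at h1
        filter_upwards [h1.eventually_ne (mul_ne_zero two_ne_zero hb)] with n hn
        rw [hval]
        exact mul_ne_zero (ht0 n) hn
    have hvw : Tendsto (fun n : ℕ => v + t n • w) atTop (𝓝 v) := by
      have := (tendsto_const_nhds (x := v)).add (ht.smul (tendsto_const_nhds (x := w)))
      rwa [zero_smul, add_zero] at this
    have hlim : Tendsto (fun n : ℕ => tan' F P (v + t n • w)) atTop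
        (𝓝 (tan' F P v)) :=
      ((tend F hvw hvw hvw).smul tendsto_const_nhds).sub
        ((tendsto_const_nhds.mul (tend F tendsto_const_nhds hvw hvw)).smul hvw)
    have h1 : tan' F P v ∈ closure (WS F K) := by
      refine mem_closure_of_tendsto hlim ?_
      filter_upwards [hev] with n hn
      refine ⟨sing_tan hF hP.1 hsP _, P, ?_⟩
      rw [(tan_vals (hsP P) (hsP _)).1]
      exact mul_ne_zero (by norm_num) (pow_ne_zero _ hn)
    unfold tan' at h1
    rw [hv, mul_zero, zero_smul, sub_zero] at h1
    have h2 := WSc.smul h1 (inv_ne_zero h)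
    rw [smul_smul, inv_mul_cancel₀ h, one_smul] at h2
    exact hn h2
  have D3 : ∀ P ∈ Z F K, P ∉ closure (WS F K) → ∀ P' ∈ Z F K, P' ∉ closure (WS F K) →
      ∀ v, F.f P P' v = 0 := by
    intro P hP hn P' hP' hn' e₀
    by_contra h
    have h0 : F.f P P' P' = 0 := by
      rw [← F.p3 P P' P']
      exact hsing P' hP' hn' P
    have h00 : ∀ u, F.f P' P' u = 0 := hsing P' hP' hn'
    -- the identity
    have key : ∀ u, F.f P P' u ≠ 0 →
        3 * F.f P u u * F.f P' u u = 2 * F.f P P' u * F.f u u u := by
      intro u hu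
      set x := F.f P u u with hx
      set b := F.f P P' u with hb
      have h1 : ∀ x b : L, F.f P (x • P' - (2 * b) • u) (x • P' - (2 * b) • u) =
          x ^ 2 * F.f P P' P' - 4 * x * b * F.f P P' u + 4 * b ^ 2 * F.f P u u := by
        intro x b
        simp only [map_add, map_sub, map_neg, map_smul, map_zero, LinearMap.add_apply,
          LinearMap.sub_apply, LinearMap.neg_apply, LinearMap.smul_apply, LinearMap.zero_apply,
          smul_eq_mul, Tri.s12, Tri.s23]
        ring
      have h2 : ∀ x b : L, F.f (x • P' - (2 * b) • u) (x • P' - (2 * b) • u)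
          (x • P' - (2 * b) • u) = x ^ 3 * F.f P' P' P' - 6 * x ^ 2 * b * F.f P' P' u +
            12 * x * b ^ 2 * F.f P' u u - 8 * b ^ 3 * F.f u u u := by
        intro x b
        simp only [map_add, map_sub, map_neg, map_smul, map_zero, LinearMap.add_apply,
          LinearMap.sub_apply, LinearMap.neg_apply, LinearMap.smul_apply, LinearMap.zero_apply,
          smul_eq_mul, Tri.s12, Tri.s23]
        ring
      have h3 := D1b P hP hn (x • P' - (2 * b) • u) (by
        rw [h1, h0]
        simp only [← hx, ← hb]
        ring)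
      rw [h2, h00, h00] at h3
      have h4 : 4 * b ^ 2 * (3 * x * F.f P' u u - 2 * b * F.f u u u) = 0 := by
        linear_combination h3
      have h5 := (mul_eq_zero.1 h4).resolve_left (mul_ne_zero (by norm_num) (pow_ne_zero _ hu))
      linear_combination h5
    -- the product vanishes on the kernel
    have hprod : ∀ u, F.f P P' u = 0 → F.f P u u * F.f P' u u = 0 := by
      intro u hu
      have hvw : Tendsto (fun n : ℕ => u + t n • e₀) atTop (𝓝 u) := by
        have := (tendsto_const_nhds (x := u)).add (ht.smul (tendsto_const_nhds (x := e₀)))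
        rwa [zero_smul, add_zero] at this
      have h1 : Tendsto (fun n => 3 * F.f P (u + t n • e₀) (u + t n • e₀) *
          F.f P' (u + t n • e₀) (u + t n • e₀)) atTop (𝓝 (3 * F.f P u u * F.f P' u u)) :=
        ((tend F tendsto_const_nhds hvw hvw).const_mul 3).mul (tend F tendsto_const_nhds hvw hvw)
      have h2 : Tendsto (fun n => 2 * F.f P P' (u + t n • e₀) *
          F.f (u + t n • e₀) (u + t n • e₀) (u + t n • e₀)) atTop
          (𝓝 (2 * F.f P P' u * F.f u u u)) :=
        ((tend F tendsto_const_nhds tendsto_const_nhds hvw).const_mul 2).mul (tend F hvw hvw hvw)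
      have h3 := tendsto_nhds_unique (h1.congr fun n => key _ (by
        rw [map_add, map_smul, hu, zero_add, smul_eq_mul]
        exact mul_ne_zero (ht0 n) h)) h2
      rw [hu] at h3
      linear_combination h3 / 3
    -- one factor vanishes on the kernel
    have hone : (∀ u, F.f P P' u = 0 → F.f P u u = 0) ∨
        (∀ u, F.f P P' u = 0 → F.f P' u u = 0) := by
      by_contra hcon
      push Not at hcon
      obtain ⟨⟨u₁, a1, a2⟩, ⟨u₂, b1, b2⟩⟩ := hcon
      have hc : Continuous fun s : L => F.f P (u₁ + s • u₂) (u₁ + s • u₂) :=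
        cont F continuous_const (by fun_prop) (by fun_prop)
      have h1 : ∀ᶠ s in 𝓝 (0 : L), F.f P (u₁ + s • u₂) (u₁ + s • u₂) ≠ 0 :=
        hc.continuousAt.eventually_ne (by simpa using a2)
      have h2 : ∀ᶠ s in 𝓝 (0 : L), F.f P' u₁ u₁ + (2 * F.f P' u₁ u₂) * s +
          F.f P' u₂ u₂ * s ^ 2 + 0 * s ^ 3 = 0 := by
        filter_upwards [h1] with s hs
        have h3 := hprod (u₁ + s • u₂) (by
          rw [map_add, map_smul, a1, b1]
          simp)
        have h4 := (mul_eq_zero.1 h3).resolve_left hs
        have h5 : F.f P' (u₁ + s • u₂) (u₁ + s • u₂) = F.f P' u₁ u₁ + (2 * F.f P' u₁ u₂) * s +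
          F.f P' u₂ u₂ * s ^ 2 := by
          simp only [map_add, map_sub, map_neg, map_smul, map_zero, LinearMap.add_apply,
            LinearMap.sub_apply, LinearMap.neg_apply, LinearMap.smul_apply, LinearMap.zero_apply,
            smul_eq_mul, Tri.s12, Tri.s23]
          ring
        rw [zero_mul, add_zero, ← h5]
        exact h4
      exact b2 (poly3 h2).2.2.1
    have hnh : ∀ P₁ ∈ Z F K, P₁ ∉ closure (WS F K) → (∀ u, F.f P P' u = 0 → F.f P₁ u u = 0) →
        False := by
      intro P₁ hP₁ hn₁ hv
      obtain ⟨a, ha⟩ := exists_dt (K := K) (F.f P P') fun v hv => hF _ _ _ hP.1 hP'.1 hv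
      have ha0 : a ≠ 0 := by
        rintro rfl
        apply h
        rw [← ha e₀]
        simp [dt_apply]
      obtain ⟨v, -, hv1, hv2⟩ := hN a ha0
      apply hv2
      apply D1b P₁ hP₁ hn₁
      apply hv
      rw [← ha, dt_apply, hv1]
    rcases hone with h1 | h1
    · exact hnh P hP hn h1
    · exact hnh P' hP' hn' h1
  by_cases hD : ∃ P ∈ Z F K, P ∉ closure (WS F K)
  · obtain ⟨P, hP, hn⟩ := hD
    obtain ⟨w, hw⟩ := D1a P hP hn
    obtain ⟨w, hw, hwr⟩ := exists_rt (K := K) (U := {v : E L m | F.f P v v ≠ 0})
      (isOpen_ne_fun (cont F continuous_const continuous_id continuous_id) continuous_const)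
      ⟨w, hw⟩
    obtain ⟨a, ha⟩ := exists_dt (F.f P w) fun v hv => hF _ _ _ hP.1 hwr hv
    refine ⟨a, ?_, fun P' hP' hn' => ?_⟩
    · rintro rfl
      apply hw
      rw [← ha w]
      simp [dt_apply]
    · rw [ha, F.p2 P P' w]
      exact D3 P hP hn P' hP' hn' w
  · push Not at hD
    have hR0 : R ≠ 0 := by
      rintro rfl
      simp at he
    obtain ⟨i, -⟩ := Function.ne_iff.1 hR0
    refine ⟨Pi.single i 1, ?_, fun P hP hn => (hn (hD P hP)).elim⟩
    intro h0
    have := congrFun h0 i
    simp at this

end Pool.Agent.TH729.CV
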