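import Mathlib

/-!
# Cubic forms over complete fields: chords and tangents (helper729)
-/

set_option autoImplicit false
set_option linter.unusedSimpArgs false
set_option linter.unusedTactic false
set_option linter.unusedSectionVars false

namespace Pool.Agent.TH729.CV

open Set Filter Topology

variable {L : Type*} [NontriviallyNormedField L] [CompleteSpace L] [CharZero L]

abbrev E (L : Type*) (m : ℕ) := Fin m → L

/-- symmetric trilinear forms -/
structure Tri (L : Type*) [Field L] (m : ℕ) where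
  /-- the form -/
  f : E L m →ₗ[L] E L m →ₗ[L] E L m →ₗ[L] L
  s12 : ∀ a b c, f a b c = f b a c
  s23 : ∀ a b c, f a b c = f a c b

variable {m : ℕ} (F : Tri L m)

namespace Tri

lemma p1 (a b c : E L m) : F.f b a c = F.f a b c := F.s12 b a c
lemma p2 (a b c : E L m) : F.f a c b = F.f a b c := F.s23 a c b
lemma p3 (a b c : E L m) : F.f c b a = F.f a b c := by
  rw [F.s12, F.s23, F.s12]
lemma p4 (a b c : E L m) : F.f b c a = F.f a b c := by
  rw [F.s23, F.s12]
lemma p5 (a b c : E L m) : F.f c a b = F.f a b c := by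
  rw [F.s12, F.s23]

/-- normal forms with two vectors -/
lemma n2 (a b : E L m) : F.f b a a = F.f a a b ∧ F.f a b a = F.f a a b ∧ F.f b b a = F.f a b b ∧
    F.f b a b = F.f a b b := ⟨F.p4 a a b |>.symm ▸ F.p5 a a b, F.p2 a a b, F.p3 a b b, F.p1 a b b⟩

/-- normal forms with three vectors -/
lemma n3 (a b c : E L m) : F.f b a c = F.f a b c ∧ F.f a c b = F.f a b c ∧ F.f c b a = F.f a b c ∧
    F.f b c a = F.f a b c ∧ F.f c a b = F.f a b c :=
  ⟨F.p1 a b c, F.p2 a b c, F.p3 a b c, F.p4 a b c, F.p5 a b c⟩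

end Tri

lemma expand (a b c : E L m) : F.f a b c = ∑ i, ∑ j, ∑ k, a i * (b j * (c k *
    F.f (fun l => if i = l then 1 else 0) (fun l => if j = l then 1 else 0)
      (fun l => if k = l then 1 else 0))) := by
  have h1 : F.f a = ∑ i, a i • F.f (fun l => if i = l then 1 else 0) :=
    LinearMap.pi_apply_eq_sum_univ F.f a
  rw [h1, LinearMap.sum_apply, LinearMap.sum_apply]
  refine Finset.sum_congr rfl fun i _ => ?_
  have h2 := LinearMap.pi_apply_eq_sum_univ (F.f (fun l => if i = l then 1 else 0)) b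
  rw [LinearMap.smul_apply, LinearMap.smul_apply, h2, LinearMap.sum_apply, smul_eq_mul,
    Finset.mul_sum]
  refine Finset.sum_congr rfl fun j _ => ?_
  have h3 := LinearMap.pi_apply_eq_sum_univ (F.f (fun l => if i = l then 1 else 0)
    (fun l => if j = l then 1 else 0)) c
  rw [LinearMap.smul_apply, h3, smul_eq_mul, Finset.mul_sum, Finset.mul_sum]
  refine Finset.sum_congr rfl fun k _ => ?_
  rw [smul_eq_mul]

lemma tend {X : Type*} {l : Filter X} {a b c : X → E L m} {A B C : E L m} (ha : Tendsto a l (𝓝 A))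
    (hb : Tendsto b l (𝓝 B)) (hc : Tendsto c l (𝓝 C)) :
    Tendsto (fun x => F.f (a x) (b x) (c x)) l (𝓝 (F.f A B C)) := by
  rw [show (fun x => F.f (a x) (b x) (c x)) = _ from funext fun x => expand F (a x) (b x) (c x),
    expand F A B C]
  refine tendsto_finsetSum _ fun i _ => tendsto_finsetSum _ fun j _ => tendsto_finsetSum _ fun k _ => ?_
  have h1 := (tendsto_pi_nhds.1 ha) i
  have h2 := (tendsto_pi_nhds.1 hb) j
  have h3 := (tendsto_pi_nhds.1 hc) k
  exact h1.mul (h2.mul (h3.mul tendsto_const_nhds))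

lemma cont {X : Type*} [TopologicalSpace X] {a b c : X → E L m} (ha : Continuous a)
    (hb : Continuous b) (hc : Continuous c) : Continuous fun x => F.f (a x) (b x) (c x) := by
  rw [continuous_iff_continuousAt]
  intro x
  exact tend F ha.continuousAt hb.continuousAt hc.continuousAt

/-! ### Rational vectors -/

variable (K : Subfield L)

/-- the vectors with coordinates in `K` -/
def Rt (v : E L m) : Prop := ∀ i, v i ∈ K

variable {K}

lemma Rt.add {v w : E L m} (hv : Rt K v) (hw : Rt K w) : Rt K (v + w) :=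
  fun i => K.add_mem (hv i) (hw i)
lemma Rt.sub {v w : E L m} (hv : Rt K v) (hw : Rt K w) : Rt K (v - w) :=
  fun i => K.sub_mem (hv i) (hw i)
lemma Rt.smul {v : E L m} {t : L} (ht : t ∈ K) (hv : Rt K v) : Rt K (t • v) :=
  fun i => K.mul_mem ht (hv i)
lemma Rt.neg {v : E L m} (hv : Rt K v) : Rt K (-v) := fun i => K.neg_mem (hv i)
lemma Rt.zero : Rt K (0 : E L m) := fun _ => K.zero_mem

/-- dense subfields -/
class DK {L : Type*} [NontriviallyNormedField L] (K : Subfield L) : Prop where
  dense : Dense (K : Set L)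

variable [DK K]

lemma dense_K : Dense (K : Set L) := DK.dense

lemma dense_rt : Dense {v : E L m | Rt K v} := by
  have : {v : E L m | Rt K v} = Set.pi univ fun _ => (K : Set L) := by
    ext v
    simp [Rt]
  rw [this]
  exact dense_pi _ fun _ _ => dense_K

lemma seq_rt (v : E L m) : ∃ u : ℕ → E L m, (∀ n, Rt K (u n)) ∧ Tendsto u atTop (𝓝 v) :=
  mem_closure_iff_seq_limit.1 (dense_rt (K := K) v)

lemma seq_K (t : L) : ∃ u : ℕ → L, (∀ n, u n ∈ K) ∧ Tendsto u atTop (𝓝 t) :=
  mem_closure_iff_seq_limit.1 (dense_K (K := K) t)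

/-- an open nonempty set contains a rational vector -/
lemma exists_rt {U : Set (E L m)} (hU : IsOpen U) (hne : U.Nonempty) : ∃ v ∈ U, Rt K v :=
  (dense_rt (K := K)).inter_open_nonempty U hU hne

variable (K)

/-- rational trilinear forms -/
def Rat3 : Prop := ∀ a b c, Rt K a → Rt K b → Rt K c → F.f a b c ∈ K

/-- the rational zeros -/
def Z : Set (E L m) := {v | Rt K v ∧ F.f v v v = 0}

/-- the closure of the rational zeros -/
def W : Set (E L m) := closure (Z F K)

variable {K} {F}

lemma W.zero_of {v : E L m} (h : v ∈ W F K) : F.f v v v = 0 := by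
  have hc : IsClosed {v : E L m | F.f v v v = 0} :=
    isClosed_eq (cont F continuous_id continuous_id continuous_id) continuous_const
  exact closure_minimal (fun v hv => hv.2) hc h

lemma W.seq {v : E L m} (h : v ∈ W F K) : ∃ u : ℕ → E L m, (∀ n, u n ∈ Z F K) ∧
    Tendsto u atTop (𝓝 v) := mem_closure_iff_seq_limit.1 h

lemma W.of_seq {v : E L m} {u : ℕ → E L m} (hu : ∀ᶠ n in atTop, u n ∈ Z F K)
    (h : Tendsto u atTop (𝓝 v)) : v ∈ W F K := mem_closure_of_tendsto h hu

lemma Z.smul {v : E L m} {t : L} (ht : t ∈ K) (hv : v ∈ Z F K) : t • v ∈ Z F K := by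
  refine ⟨hv.1.smul ht, ?_⟩
  simp only [map_add, map_sub, map_neg, map_smul, map_zero, LinearMap.add_apply,
    LinearMap.sub_apply, LinearMap.neg_apply, LinearMap.smul_apply, LinearMap.zero_apply,
    smul_eq_mul]
  rw [hv.2]
  ring

lemma W.smul {v : E L m} (t : L) (hv : v ∈ W F K) : t • v ∈ W F K := by
  obtain ⟨u, hu, hu'⟩ := W.seq hv
  obtain ⟨s, hs, hs'⟩ := seq_K (K := K) t
  exact W.of_seq (Eventually.of_forall fun n => Z.smul (hs n) (hu n)) (hs'.smul hu')

lemma W.of_smul {v : E L m} {t : L} (ht : t ≠ 0) (h : t • v ∈ W F K) : v ∈ W F K := by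
  have := W.smul t⁻¹ h
  rwa [smul_smul, inv_mul_cancel₀ ht, one_smul] at this

variable (F)

/-- the third point on a chord -/
def chord (P R : E L m) : E L m := F.f P R R • P - F.f P P R • R

/-- the third point on a tangent line -/
def tan' (P v : E L m) : E L m := F.f v v v • P - (3 * F.f P v v) • v

lemma chord_zero {P R : E L m} (hP : F.f P P P = 0) (hR : F.f R R R = 0) :
    F.f (chord F P R) (chord F P R) (chord F P R) = 0 := by
  obtain ⟨e1, e2, e3, e4⟩ := F.n2 P R
  unfold chord
  simp only [map_add, map_sub, map_neg, map_smul, map_zero, LinearMap.add_apply,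
    LinearMap.sub_apply, LinearMap.neg_apply, LinearMap.smul_apply, LinearMap.zero_apply,
    smul_eq_mul]
  rw [e1, e2, e3, e4, hP, hR]
  ring

lemma tan_zero {P v : E L m} (hP : F.f P P P = 0) (hv : F.f P P v = 0) :
    F.f (tan' F P v) (tan' F P v) (tan' F P v) = 0 := by
  obtain ⟨e1, e2, e3, e4⟩ := F.n2 P v
  unfold tan'
  simp only [map_add, map_sub, map_neg, map_smul, map_zero, LinearMap.add_apply,
    LinearMap.sub_apply, LinearMap.neg_apply, LinearMap.smul_apply, LinearMap.zero_apply,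
    smul_eq_mul]
  rw [e1, e2, e3, e4, hP, hv]
  ring

variable {F}

lemma Z.chord (hF : Rat3 F K) {P R : E L m} (hP : P ∈ Z F K) (hR : R ∈ Z F K) :
    chord F P R ∈ Z F K :=
  ⟨(hP.1.smul (hF _ _ _ hP.1 hR.1 hR.1)).sub (hR.1.smul (hF _ _ _ hP.1 hP.1 hR.1)),
    chord_zero F hP.2 hR.2⟩

lemma W.chord (hF : Rat3 F K) {P R : E L m} (hP : P ∈ W F K) (hR : R ∈ W F K) :
    chord F P R ∈ W F K := by
  obtain ⟨u, hu, hu'⟩ := W.seq hP
  obtain ⟨v, hv, hv'⟩ := W.seq hR
  refine W.of_seq (Eventually.of_forall fun n => Z.chord hF (hu n) (hv n)) ?_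
  exact ((tend F hu' hv' hv').smul hu').sub ((tend F hu' hu' hv').smul hv')

lemma Z.tan (hF : Rat3 F K) {P v : E L m} (hP : P ∈ Z F K) (hv : Rt K v) (h : F.f P P v = 0) :
    tan' F P v ∈ Z F K := by
  refine ⟨(hP.1.smul (hF _ _ _ hv hv hv)).sub (hv.smul (K.mul_mem ?_ (hF _ _ _ hP.1 hv hv))),
    tan_zero F hP.2 h⟩
  exact_mod_cast SubfieldClass.ratCast_mem K 3

/-- the tangent property -/
def TG (F : Tri L m) (K : Subfield L) (S : E L m) : Prop :=
  ∀ v, F.f S S v = 0 → F.f v v v = 0 → F.f S v v ≠ 0 → v ∈ W F K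

/-- tangent constructions stay in the closure -/
lemma tan_mem (hF : Rat3 F K) {S : E L m} (hS : S ∈ W F K) {e : E L m} (he : F.f S S e ≠ 0)
    {v : E L m} (h1 : F.f S S v = 0) : tan' F S v ∈ W F K := by
  -- a rational direction
  obtain ⟨e, he, her⟩ : ∃ e ∈ {e : E L m | F.f S S e ≠ 0}, Rt K e := by
    refine exists_rt ?_ ⟨e, he⟩
    exact isOpen_ne_fun (cont F continuous_const continuous_const continuous_id) continuous_const
  obtain ⟨u, hu, hu'⟩ := W.seq hS
  obtain ⟨w, hw, hw'⟩ := seq_rt (K := K) v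
  set c : ℕ → L := fun n => F.f (u n) (u n) (w n) / F.f (u n) (u n) e with hc
  have hc' : Tendsto c atTop (𝓝 0) := by
    have h4 : Tendsto c atTop (𝓝 (F.f S S v / F.f S S e)) :=
      (tend F hu' hu' hw').div (tend F hu' hu' tendsto_const_nhds) he
    rwa [h1, zero_div] at h4
  set x : ℕ → E L m := fun n => w n - c n • e with hx
  have hx' : Tendsto x atTop (𝓝 v) := by
    have h4 : Tendsto x atTop (𝓝 (v - (0 : L) • e)) := hw'.sub (hc'.smul tendsto_const_nhds)
    rwa [zero_smul, sub_zero] at h4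
  have hev : ∀ᶠ n in atTop, F.f (u n) (u n) e ≠ 0 :=
    (tend F hu' hu' (tendsto_const_nhds (x := e))).eventually_ne he
  refine W.of_seq (u := fun n => tan' F (u n) (x n)) ?_ ?_
  · filter_upwards [hev] with n hn
    refine Z.tan hF (hu n) ((hw n).sub (her.smul ?_)) ?_
    · exact K.div_mem (hF _ _ _ (hu n).1 (hu n).1 (hw n)) (hF _ _ _ (hu n).1 (hu n).1 her)
    · simp only [hx, hc]
      simp only [map_add, map_sub, map_neg, map_smul, map_zero, LinearMap.add_apply,
        LinearMap.sub_apply, LinearMap.neg_apply, LinearMap.smul_apply, LinearMap.zero_apply,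
        smul_eq_mul]
      field_simp
      ring
  · exact ((tend F hx' hx' hx').smul hu').sub
      ((tendsto_const_nhds.mul (tend F hu' hx' hx')).smul hx')

/-- smooth points of the closure have the tangent property -/
lemma tg_of_mem (hF : Rat3 F K) {S : E L m} (hS : S ∈ W F K) {e : E L m} (he : F.f S S e ≠ 0) :
    TG F K S := by
  intro v h1 h2 h3
  have hmem := tan_mem hF hS he h1
  unfold tan' at hmem
  rw [h2, zero_smul, zero_sub, ← neg_smul] at hmem
  exact W.of_smul (by simpa using h3) hmem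

/-- projection from a singular rational point -/
lemma sing_mem (hF : Rat3 F K) {P : E L m} (hP : Rt K P) (hs : ∀ v, F.f P P v = 0) {v : E L m}
    (h2 : F.f v v v = 0) (h3 : F.f P v v ≠ 0) : v ∈ W F K := by
  obtain ⟨w, hw, hw'⟩ := seq_rt (K := K) v
  have hmem : (F.f v v v • P - (3 * F.f P v v) • v) ∈ W F K := by
    refine W.of_seq (u := fun n => tan' F P (w n)) ?_ ?_
    · exact Eventually.of_forall fun n => Z.tan hF ⟨hP, hs P⟩ (hw n) (hs _)
    · exact ((tend F hw' hw' hw').smul tendsto_const_nhds).sub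
        ((tendsto_const_nhds.mul (tend F tendsto_const_nhds hw' hw')).smul hw')
  rw [h2, zero_smul, zero_sub, ← neg_smul] at hmem
  exact W.of_smul (by simpa using h3) hmem

/-- smooth interior points of the closure -/
def Int' (F : Tri L m) (K : Subfield L) (R : E L m) : Prop :=
  F.f R R R = 0 ∧ (∃ e, F.f R R e ≠ 0) ∧ ∀ᶠ Y in 𝓝 R, F.f Y Y Y = 0 → Y ∈ W F K

lemma Int'.mem {R : E L m} (h : Int' F K R) : R ∈ W F K := h.2.2.self_of_nhds h.1

end Pool.Agent.TH729.CV
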