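import Pool.Agent.TH729.CV.AsmC

/-!
# Plane cubics with infinitely many rational zeros (helper729)
-/

set_option autoImplicit false
set_option linter.unusedSimpArgs false
set_option linter.unusedTactic false
set_option linter.unusedSectionVars false

namespace Pool.Agent.TH729.CV

open Set Filter Topology

variable {L : Type*} [NontriviallyNormedField L] [CompleteSpace L] [CharZero L]

variable {m : ℕ} {F : Tri L m} {K : Subfield L} [DK K]

/-- multiples of rational zeros -/
def Cn (F : Tri L m) (K : Subfield L) : Set (E L m) :=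
  {y | ∃ (r : L) (u : E L m), r ≠ 0 ∧ u ∈ Z F K ∧ y = r • u}

/-- `C` is an accumulation point -/
def Acc (F : Tri L m) (K : Subfield L) (C : E L m) : Prop :=
  ∃ᶠ y in 𝓝 C, y ∈ Cn F K ∧ ∀ t : L, y ≠ t • C

lemma Cn.zero {y : E L m} (h : y ∈ Cn F K) : F.f y y y = 0 := by
  obtain ⟨r, u, hr, hu, rfl⟩ := h
  simp only [map_smul, LinearMap.smul_apply, hu.2, smul_zero]

lemma Cn.smul {y : E L m} (h : y ∈ Cn F K) {t : L} (ht : t ≠ 0) : t • y ∈ Cn F K := by
  obtain ⟨r, u, hr, hu, rfl⟩ := h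
  exact ⟨t * r, u, mul_ne_zero ht hr, hu, by rw [smul_smul]⟩

lemma Cn.mem_W {y : E L m} (h : y ∈ Cn F K) : y ∈ W F K := by
  obtain ⟨r, u, hr, hu, rfl⟩ := h
  exact W.smul _ (subset_closure hu)

lemma Cn.chord (hF : Rat3 F K) {y z : E L m} (hy : y ∈ Cn F K) (hz : z ∈ Cn F K) :
    chord F y z ∈ Cn F K := by
  obtain ⟨r, u, hr, hu, rfl⟩ := hy
  obtain ⟨s, v, hs, hv, rfl⟩ := hz
  refine ⟨r ^ 2 * s ^ 2, CV.chord F u v, mul_ne_zero (pow_ne_zero _ hr) (pow_ne_zero _ hs),
    Z.chord hF hu hv, ?_⟩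
  simp only [CV.chord, map_smul, LinearMap.smul_apply, smul_eq_mul, smul_sub, smul_smul]
  congr 2 <;> ring

lemma comb_zero {C R : E L m} (hCC : F.f C C C = 0) (hRR : F.f R R R = 0) {α β : L}
    (h : F.f (α • C + β • R) (α • C + β • R) (α • C + β • R) = 0) :
    3 * α * β * (α * F.f C C R + β * F.f C R R) = 0 := by
  simp only [map_add, map_smul, LinearMap.add_apply, LinearMap.smul_apply, smul_eq_mul,
    Tri.s12, Tri.s23] at h hRR hCC
  try simp only [Tri.s12, Tri.s23]
  rw [hRR, hCC] at h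
  linear_combination h

/-- independent directions stay independent -/
lemma ev_ind {C d : E L m} (h : ∀ t : L, C ≠ t • d) : ∀ᶠ y in 𝓝 C, ∀ t : L, y ≠ t • d := by
  have hcl : IsClosed ((Submodule.span L {d} : Submodule L (E L m)) : Set (E L m)) :=
    Submodule.closed_of_finiteDimensional _
  have hCn : C ∉ ((Submodule.span L {d} : Submodule L (E L m)) : Set (E L m)) := by
    intro hin
    obtain ⟨t, ht⟩ := Submodule.mem_span_singleton.1 hin
    exact h t ht.symm
  filter_upwards [hcl.isOpen_compl.mem_nhds hCn] with y hy t ht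
  apply hy
  exact Submodule.mem_span_singleton.2 ⟨t, ht.symm⟩

lemma ev_avoid {C : E L m} (hC : C ≠ 0) (d : E L m) :
    ∀ᶠ y in 𝓝 C, (∀ t : L, y ≠ t • C) → ∀ t : L, y ≠ t • d := by
  by_cases h : ∀ t : L, C ≠ t • d
  · exact (ev_ind h).mono fun y hy _ => hy
  · push Not at h
    obtain ⟨t, ht⟩ := h
    have ht0 : t ≠ 0 := by
      rintro rfl
      rw [zero_smul] at ht
      exact hC ht
    refine Eventually.of_forall fun y hy s hs => hy (s * t⁻¹) ?_
    rw [hs, ht, smul_smul, mul_assoc, inv_mul_cancel₀ ht0, mul_one]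

/-- covered by finitely many lines -/
def FD (A : Set (E L m)) : Prop := ∃ S : Set (E L m), S.Finite ∧ ∀ y ∈ A, ∃ s ∈ S, ∃ c : L, y = c • s

theorem exists_acc [ProperSpace L] (h : ¬ FD (Z F K)) : ∃ C : E L m, C ≠ 0 ∧ C ∈ W F K ∧
    Acc F K C := by
  set D : Set (E L m) := {y | ((∃ i, y i = 1) ∧ ‖y‖ ≤ 1) ∧ y ∈ Cn F K} with hD
  have hinf : D.Infinite := by
    intro hfin
    apply h
    refine ⟨D ∪ {0}, hfin.union (finite_singleton _), fun u hu => ?_⟩
    by_cases hu0 : u = 0
    · exact ⟨0, Or.inr rfl, 0, by rw [hu0, smul_zero]⟩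
    obtain ⟨i₀, hi₀⟩ := Function.ne_iff.1 hu0
    obtain ⟨i, -, hi⟩ := Finset.exists_max_image Finset.univ (fun i => ‖u i‖) ⟨i₀, Finset.mem_univ _⟩
    have hui : u i ≠ 0 := by
      intro h0
      have h1 := hi i₀ (Finset.mem_univ _)
      rw [h0, norm_zero] at h1
      exact hi₀ (norm_le_zero_iff.1 h1)
    refine ⟨(u i)⁻¹ • u, Or.inl ⟨⟨⟨i, ?_⟩, ?_⟩, (u i)⁻¹, u, inv_ne_zero hui, hu, rfl⟩, u i, ?_⟩
    · simp [hui]
    · rw [pi_norm_le_iff_of_nonneg zero_le_one]
      intro j
      have h1 := hi j (Finset.mem_univ _)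
      have h2 : 0 < ‖u i‖ := norm_pos_iff.2 hui
      rw [Pi.smul_apply, smul_eq_mul, norm_mul, norm_inv, inv_mul_le_iff₀ h2, mul_one]
      exact h1
    · rw [smul_smul, mul_inv_cancel₀ hui, one_smul]
  have hsub : D ⊆ Metric.closedBall (0 : E L m) 1 := by
    intro y hy
    rw [mem_closedBall_zero_iff]
    exact hy.1.2
  obtain ⟨C, hC, hacc⟩ := hinf.exists_accPt_of_subset_isCompact (isCompact_closedBall _ _) hsub
  rw [accPt_iff_frequently] at hacc
  have hcl1 : IsClosed {y : E L m | ∃ i, y i = 1} := by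
    have : {y : E L m | ∃ i, y i = 1} = ⋃ i, {y : E L m | y i = 1} := by
      ext y
      simp
    rw [this]
    exact isClosed_iUnion_of_finite fun i => isClosed_eq (continuous_apply i) continuous_const
  have hC1 : ∃ i, C i = 1 := by
    have h1 : C ∈ closure {y : E L m | ∃ i, y i = 1} :=
      mem_closure_iff_frequently.2 (hacc.mono fun y hy => hy.2.1.1)
    rw [hcl1.closure_eq] at h1
    exact h1
  have hC0 : C ≠ 0 := by
    rintro rfl
    obtain ⟨i, hi⟩ := hC1
    simp at hi
  have hA : Acc F K C := by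
    have h2 : ∀ᶠ y in 𝓝 C, ∀ i, (C i)⁻¹ • C ≠ C → y ≠ (C i)⁻¹ • C := by
      rw [eventually_all]
      intro i
      by_cases hi : (C i)⁻¹ • C ≠ C
      · filter_upwards [isOpen_ne.mem_nhds (show C ≠ (C i)⁻¹ • C from fun h => hi h.symm)]
          with y hy _
        exact hy
      · exact Eventually.of_forall fun y h => (hi h).elim
    refine (hacc.and_eventually h2).mono fun y hy => ?_
    obtain ⟨⟨hyC, ⟨⟨i, hyi⟩, -⟩, hy2⟩, hy3⟩ := hy
    refine ⟨hy2, fun t ht => ?_⟩
    have h4 : t * C i = 1 := by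
      have := congrFun ht i
      rw [hyi] at this
      simpa using this.symm
    have h5 : t = (C i)⁻¹ := eq_inv_of_mul_eq_one_left h4
    rw [h5] at ht
    by_cases h6 : (C i)⁻¹ • C = C
    · exact hyC (ht.trans h6)
    · exact hy3 i h6 ht
  refine ⟨C, hC0, ?_, hA⟩
  have : ∃ᶠ y in 𝓝 C, y ∈ W F K := hA.mono fun y hy => Cn.mem_W hy.1
  have h5 := mem_closure_iff_frequently.2 this
  have hcl : closure (W F K) = W F K := isClosed_closure.closure_eq
  rwa [hcl] at h5

/-- the algebra of a double chord -/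
lemma double_chord {F : Tri L 3} {P y y' T : E L 3} (hP : F.f P P P = 0) (hT : F.f P P T ≠ 0)
    (hy : F.f y y y = 0) (hy' : F.f y' y' y' = 0) (h1 : ∀ t : L, y ≠ t • P)
    (h2 : ∀ t : L, y' ≠ t • P) (h3 : ∀ t : L, y ≠ t • y') (h4 : ∀ t : L, y ≠ t • chord F y' P)
    (h0 : chord F y (chord F y' P) ≠ 0) (t : L) : chord F y (chord F y' P) ≠ t • P := by
  intro ht
  have hP0 : P ≠ 0 := by
    rintro rfl
    simp at hT
  set a := F.f y' P P with ha
  set b := F.f y' y' P with hb
  have hO : chord F y' P = a • y' - b • P := rfl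
  -- combinations
  have hcomb : ∀ x z : L, y = x • y' + z • P → x * b + z * a = 0 := by
    intro x z hxz
    have hx : x ≠ 0 := by
      rintro rfl
      exact h1 z (by rw [hxz, zero_smul, zero_add])
    have hz : z ≠ 0 := by
      rintro rfl
      exact h3 x (by rw [hxz, zero_smul, add_zero])
    have h5 : F.f (x • y' + z • P) (x • y' + z • P) (x • y' + z • P) = 0 := by
      rw [← hxz]
      exact hy
    have h6 := comb_zero hy' hP h5
    have h7 : (3 * x * z) ≠ 0 := mul_ne_zero (mul_ne_zero (by norm_num) hx) hz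
    exact (mul_eq_zero.1 h6).resolve_left h7
  set O := chord F y' P with hOdef
  set α := F.f y O O with hα
  set β := F.f y y O with hβ
  have ht' : α • y = t • P + β • O := by
    rw [← ht]
    change α • y = (α • y - β • O) + β • O
    abel
  by_cases hα0 : α = 0
  · rw [hα0, zero_smul] at ht'
    have hβ0 : β ≠ 0 := by
      intro h5
      apply h0
      change α • y - β • O = 0
      rw [hα0, h5, zero_smul, zero_smul, sub_zero]
    -- `O` is a multiple of `P`
    have hOP : O = (-(t / β)) • P := by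
      have h5 : β • O = -(t • P) := by
        rw [eq_neg_iff_add_eq_zero, add_comm]
        exact ht'.symm
      rw [neg_smul, div_eq_mul_inv, mul_comm, mul_smul, ← smul_neg, ← h5, smul_smul,
        inv_mul_cancel₀ hβ0, one_smul]
    set c := -(t / β) with hc
    have hc0 : c ≠ 0 := by
      intro h5
      apply h0
      change α • y - β • O = 0
      rw [hα0, hOP, h5, zero_smul, zero_smul, smul_zero, sub_zero]
    have ha0 : a = 0 := by
      by_contra ha0
      apply h2 (a⁻¹ * (c + b))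
      have h5 : a • y' = (c + b) • P := by
        rw [add_smul, ← hOP, hO]
        abel
      rw [mul_smul, ← h5, smul_smul, inv_mul_cancel₀ ha0, one_smul]
    have hb0 : b ≠ 0 := by
      intro h5
      apply hc0
      rw [ha0, h5, zero_smul, zero_smul, sub_zero] at hO
      rw [hO] at hOP
      exact (smul_eq_zero.1 hOP.symm).resolve_right hP0
    have hyP : F.f P P y = 0 := by
      have h5 : c ^ 2 * F.f y P P = 0 := by
        rw [← hα0, hα, hOP]
        simp only [map_add, map_sub, map_neg, map_smul, map_zero, LinearMap.add_apply,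
          LinearMap.sub_apply, LinearMap.neg_apply, LinearMap.smul_apply, LinearMap.zero_apply,
          smul_eq_mul]
        ring
      rw [← F.p3 P P y]
      exact (mul_eq_zero.1 h5).resolve_left (pow_ne_zero _ hc0)
    have hyP' : F.f P P y' = 0 := by
      rw [← F.p3 P P y']
      exact ha0
    obtain ⟨x, z, hxz⟩ := span2 (l := F.f P P) hT (U := y') (V := P) (v := y) hyP' hP hyP (by
      intro p q hpq
      have hp : p = 0 := by
        by_contra hp
        apply h2 (-(q / p))
        have h5 : p • y' = -(q • P) := by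
          rw [eq_neg_iff_add_eq_zero]
          exact hpq
        rw [neg_smul, div_eq_mul_inv, mul_comm, mul_smul, ← smul_neg, ← h5, smul_smul,
          inv_mul_cancel₀ hp, one_smul]
      rw [hp, zero_smul, zero_add] at hpq
      exact ⟨hp, (smul_eq_zero.1 hpq).resolve_right hP0⟩)
    have h5 := hcomb x z hxz
    rw [ha0, mul_zero, add_zero] at h5
    have hx : x = 0 := (mul_eq_zero.1 h5).resolve_right hb0
    exact h1 z (by rw [hxz, hx, zero_smul, zero_add])
  · have hxz : y = (α⁻¹ * (β * a)) • y' + (α⁻¹ * (t - β * b)) • P := by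
      have h5 : α • y = (β * a) • y' + (t - β * b) • P := by
        rw [ht', hO]
        module
      calc y = α⁻¹ • (α • y) := by rw [smul_smul, inv_mul_cancel₀ hα0, one_smul]
        _ = _ := by rw [h5, smul_add, smul_smul, smul_smul]
    have h5 := hcomb _ _ hxz
    set x := α⁻¹ * (β * a)
    set z := α⁻¹ * (t - β * b)
    by_cases ha0 : a = 0
    · rw [ha0, mul_zero, add_zero] at h5
      by_cases hb0 : b = 0
      · apply hα0
        have hO0 : O = 0 := by
          rw [hO, ha0, hb0, zero_smul, zero_smul, sub_zero]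
        rw [hα, hO0]
        simp
      · have hx : x = 0 := (mul_eq_zero.1 h5).resolve_right hb0
        exact h1 z (by rw [hxz, hx, zero_smul, zero_add])
    · apply h4 (x * a⁻¹)
      rw [hO]
      have hz : z = -(x * b * a⁻¹) := by
        field_simp
        linear_combination h5
      rw [hz] at hxz
      conv_lhs => rw [hxz]
      rw [smul_sub, smul_smul, smul_smul, mul_assoc x a⁻¹ a, inv_mul_cancel₀ ha0, mul_one,
        neg_smul, ← sub_eq_add_neg]
      congr 2
      ring

/-- accumulation spreads -/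
theorem acc_transfer {F : Tri L 3} (hF : Rat3 F K) (hS : NSg F K) {C P : E L 3} (hC0 : C ≠ 0)
    (hCC : F.f C C C = 0) (hacc : Acc F K C) (hP : P ∈ Z F K) (hCP : F.f C C P ≠ 0) :
    Acc F K P := by
  have hP0 : P ≠ 0 := by
    rintro rfl
    simp at hCP
  obtain ⟨T, hT⟩ := hS P hP.1 hP0
  have hPc : P ∈ Cn F K := ⟨1, P, one_ne_zero, hP, by rw [one_smul]⟩
  rw [Acc, frequently_iff]
  intro U hU
  set κ : L := (-(F.f C C P) ^ 3)⁻¹ with hκ
  have hκ0 : κ ≠ 0 := inv_ne_zero (neg_ne_zero.2 (pow_ne_zero _ hCP))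
  have hc : Continuous fun z : E L 3 × E L 3 => κ • chord F z.1 (chord F z.2 P) := by
    have h1 : Continuous fun z : E L 3 × E L 3 => chord F z.2 P :=
      ((cont F continuous_snd continuous_const continuous_const).smul continuous_snd).sub
        ((cont F continuous_snd continuous_snd continuous_const).smul continuous_const)
    exact (((cont F continuous_fst h1 h1).smul continuous_fst).sub
      ((cont F continuous_fst continuous_fst h1).smul h1)).const_smul κ
  have hlim : Tendsto (fun z : E L 3 × E L 3 => κ • chord F z.1 (chord F z.2 P)) (𝓝 (C, C))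
      (𝓝 P) := by
    have h1 := hc.tendsto (C, C)
    simp only at h1
    rw [chord_invm hCC, smul_smul, hκ, inv_mul_cancel₀ (neg_ne_zero.2 (pow_ne_zero _ hCP)), one_smul] at h1
    exact h1
  have hev := hlim.eventually (Filter.inter_mem hU (isOpen_ne.mem_nhds hP0))
  rw [nhds_prod_eq] at hev
  obtain ⟨pa, hpa, pb, hpb, hab⟩ := eventually_prod_iff.1 hev
  obtain ⟨y', ⟨hy'1, hy'2⟩, hy'3, hy'4⟩ := (hacc.and_eventually (hpb.and (ev_avoid hC0 P))).exists
  have h2 := hy'4 hy'2
  obtain ⟨y, ⟨hy1, hy2⟩, hy3, hy4, hy5, hy6⟩ := (hacc.and_eventually (hpa.and ((ev_avoid hC0 P).and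
    ((ev_avoid hC0 y').and (ev_avoid hC0 (chord F y' P)))))).exists
  obtain ⟨hU', hne⟩ := hab hy3 hy'3
  refine ⟨κ • chord F y (chord F y' P), hU', ?_, ?_⟩
  · exact Cn.smul (Cn.chord hF hy1 (Cn.chord hF hy'1 hPc)) hκ0
  · intro t ht
    have h7 : chord F y (chord F y' P) ≠ 0 := by
      intro h8
      apply hne
      simp only
      rw [h8, smul_zero]
    refine double_chord hP.2 hT (Cn.zero hy1) (Cn.zero hy'1) (hy4 hy2) h2 (hy5 hy2) (hy6 hy2) h7
      (κ⁻¹ * t) ?_
    rw [mul_smul, ← ht, smul_smul, inv_mul_cancel₀ hκ0, one_smul]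

/-- rational zeros in a plane -/
theorem fin_plane {F : Tri L 3} (hN : NH F K) {l : E L 3 →ₗ[L] L} {T : E L 3} (hT : l T ≠ 0) :
    FD {P | P ∈ Z F K ∧ l P = 0} := by
  by_cases h : ∃ P₁ P₂ : E L 3, (P₁ ∈ Z F K ∧ l P₁ = 0) ∧ (P₂ ∈ Z F K ∧ l P₂ = 0) ∧
      ∀ a b : L, a • P₁ + b • P₂ = 0 → a = 0 ∧ b = 0
  · obtain ⟨P₁, P₂, ⟨h1, h1'⟩, ⟨h2, h2'⟩, hind⟩ := h
    refine ⟨{P₁, P₂, chord F P₁ P₂}, by simp, ?_⟩
    rintro P ⟨hP, hP'⟩
    obtain ⟨x, z, hxz⟩ := span2 hT h1' h2' hP' hind
    have h3 : F.f (x • P₁ + z • P₂) (x • P₁ + z • P₂) (x • P₁ + z • P₂) = 0 := by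
      rw [← hxz]
      exact hP.2
    have h4 := comb_zero h1.2 h2.2 h3
    by_cases hx : x = 0
    · exact ⟨P₂, by simp, z, by rw [hxz, hx, zero_smul, zero_add]⟩
    by_cases hz : z = 0
    · exact ⟨P₁, by simp, x, by rw [hxz, hz, zero_smul, add_zero]⟩
    have h5 := (mul_eq_zero.1 h4).resolve_left (mul_ne_zero (mul_ne_zero (by norm_num) hx) hz)
    set b := F.f P₁ P₁ P₂ with hb
    set a := F.f P₁ P₂ P₂ with ha
    by_cases ha0 : a = 0
    · exfalso
      rw [ha0, mul_zero, add_zero] at h5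
      have hb0 : b = 0 := (mul_eq_zero.1 h5).resolve_left hx
      refine no_plane hN h1.1 h2.1 hind fun s t => ?_
      rw [ha] at ha0
      rw [hb] at hb0
      have e1 := h1.2
      have e2 := h2.2
      try simp only [Tri.s12, Tri.s23] at ha0 hb0 e1 e2
      simp only [map_add, map_sub, map_neg, map_smul, map_zero, LinearMap.add_apply,
        LinearMap.sub_apply, LinearMap.neg_apply, LinearMap.smul_apply, LinearMap.zero_apply,
        smul_eq_mul, Tri.s12, Tri.s23]
      rw [ha0, hb0, e1, e2]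
      ring
    · refine ⟨chord F P₁ P₂, by simp, x * a⁻¹, ?_⟩
      have hz' : z = -(x * b * a⁻¹) := by
        field_simp
        linear_combination h5
      change P = (x * a⁻¹) • (a • P₁ - b • P₂)
      rw [hz'] at hxz
      conv_lhs => rw [hxz]
      rw [smul_sub, smul_smul, smul_smul, mul_assoc x a⁻¹ a, inv_mul_cancel₀ ha0, mul_one,
        neg_smul, ← sub_eq_add_neg]
      congr 2
      ring
  · push Not at h
    by_cases h0 : ∃ P₁ : E L 3, P₁ ≠ 0 ∧ P₁ ∈ Z F K ∧ l P₁ = 0
    · obtain ⟨P₁, h1, h2, h3⟩ := h0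
      refine ⟨{P₁}, finite_singleton _, ?_⟩
      rintro P ⟨hP, hP'⟩
      obtain ⟨a, b, hab, hne⟩ := h P₁ P ⟨h2, h3⟩ ⟨hP, hP'⟩
      have hb : b ≠ 0 := by
        intro hb
        rw [hb, zero_smul, add_zero] at hab
        exact hne ((smul_eq_zero.1 hab).resolve_right h1) hb
      refine ⟨P₁, rfl, -(a / b), ?_⟩
      have h5 : b • P = -(a • P₁) := by
        rw [eq_neg_iff_add_eq_zero, add_comm]
        exact hab
      rw [neg_smul, div_eq_mul_inv, mul_comm, mul_smul, ← smul_neg, ← h5, smul_smul,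
        inv_mul_cancel₀ hb, one_smul]
    · refine ⟨{0}, finite_singleton _, ?_⟩
      rintro P ⟨hP, hP'⟩
      refine ⟨0, rfl, 0, ?_⟩
      by_contra hne
      rw [smul_zero] at hne
      exact h0 ⟨P, hne, hP, hP'⟩

/-- **plane cubics**: all but finitely many rational zeros are accumulation points, or there are
only finitely many of them -/
theorem curve_main [ProperSpace L] {F : Tri L 3} (hF : Rat3 F K) (hN : NH F K) (hS : NSg F K) :
    FD {P | P ∈ Z F K ∧ ¬ Acc F K P} := by
  by_cases hfd : FD (Z F K)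
  · obtain ⟨S, hS, hS'⟩ := hfd
    exact ⟨S, hS, fun y hy => hS' y hy.1⟩
  obtain ⟨C, hC0, hCW, hacc⟩ := exists_acc hfd
  obtain ⟨y, ⟨r, u, hr, hu, hy⟩, hyC⟩ := hacc.exists
  have hu0 : u ≠ 0 := by
    rintro rfl
    apply hyC 0
    rw [hy]
    simp
  obtain ⟨D, hD⟩ := smooth_of hF hN hS hu hu0 hC0
  obtain ⟨S, hS1, hS2⟩ := fin_plane hN (l := F.f C C) hD
  refine ⟨S, hS1, fun P hP => hS2 P ⟨hP.1, ?_⟩⟩
  by_contra hne
  exact hP.2 (acc_transfer hF hS hC0 (W.zero_of hCW) hacc hP.1 hne)

end Pool.Agent.TH729.CV
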