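import Mathlib

/-!
# Elimination and irreducibility of polynomials without linear factors (helper729)
-/

set_option autoImplicit false
set_option linter.unusedSimpArgs false
set_option linter.unusedTactic false
set_option linter.unusedSectionVars false

namespace Pool.Agent.TH729.CV

open MvPolynomial

variable {k : Type*} [Field k]

/-- singling out one variable -/
noncomputable def eqv {n : ℕ} (j : Fin (n + 1)) :
    MvPolynomial (Fin (n + 1)) k ≃ₐ[k] Polynomial (MvPolynomial (Fin n) k) :=
  (renameEquiv k (finSuccEquiv' j)).trans (optionEquivLeft k (Fin n))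

lemma eqv_rename {n : ℕ} (j : Fin (n + 1)) (h : MvPolynomial (Fin n) k) :
    eqv j (rename j.succAbove h) = Polynomial.C h := by
  induction h using MvPolynomial.induction_on with
  | C a =>
    rw [rename_C]
    change optionEquivLeft k (Fin n) (rename _ (C a)) = _
    rw [rename_C, optionEquivLeft_C]
  | add p q hp hq => rw [map_add, map_add, hp, hq, map_add]
  | mul_X p i hp =>
    rw [map_mul, map_mul, hp, map_mul, rename_X]
    congr 1
    change optionEquivLeft k (Fin n) (rename _ (X (j.succAbove i))) = _
    rw [rename_X]
    rw [show (finSuccEquiv' j) (j.succAbove i) = some i from finSuccEquiv'_succAbove j i,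
      optionEquivLeft_X_some]

/-- elimination of one variable -/
theorem elim {n : ℕ} (j : Fin (n + 1)) {p : MvPolynomial (Fin (n + 1)) k} (hp : Irreducible p)
    {I : Ideal (MvPolynomial (Fin (n + 1)) k)} (hpI : p ∈ I)
    (hI : ∀ h : MvPolynomial (Fin n) k, rename j.succAbove h ∈ I → h = 0) :
    ∀ f ∈ I, p ∣ f := by
  intro f hf
  by_contra hndvd
  set e := eqv (k := k) j with he
  have hP : Irreducible (e p) := (MulEquiv.irreducible_iff e).2 hp
  have hQ : ¬ e p ∣ e f := fun h => hndvd ((map_dvd_iff e).1 h)
  have hC : ∀ h : MvPolynomial (Fin n) k, e.symm (Polynomial.C h) = rename j.succAbove h := by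
    intro h
    rw [← eqv_rename j h, he, AlgEquiv.symm_apply_apply]
  by_cases hdeg : (e p).natDegree = 0
  · obtain ⟨h, hh⟩ := Polynomial.natDegree_eq_zero.1 hdeg
    have h1 : p = rename j.succAbove h := by
      rw [← hC, hh, AlgEquiv.symm_apply_apply]
    have h2 := hI h (h1 ▸ hpI)
    rw [h2, map_zero] at h1
    exact hp.ne_zero h1
  have hprim : (e p).IsPrimitive := hP.isPrimitive hdeg
  set R := MvPolynomial (Fin n) k with hR
  set Q := FractionRing R with hQdef
  have hirr : Irreducible ((e p).map (algebraMap R Q)) :=
    (hprim.irreducible_iff_irreducible_map_fraction_map (K := Q)).1 hP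
  have hnd : ¬ (e p).map (algebraMap R Q) ∣ (e f).map (algebraMap R Q) := fun h =>
    hQ (hprim.dvd_of_fraction_map_dvd_fraction_map h)
  obtain ⟨u, v, huv⟩ := (hirr.coprime_iff_not_dvd).2 hnd
  obtain ⟨b, hb1, hb2⟩ := IsLocalization.integerNormalization_spec (nonZeroDivisors R) u
  obtain ⟨c, hc1, hc2⟩ := IsLocalization.integerNormalization_spec (nonZeroDivisors R) v
  set u' := IsLocalization.integerNormalization (nonZeroDivisors R) u
  set v' := IsLocalization.integerNormalization (nonZeroDivisors R) v
  have hkey : Polynomial.C (b * c) = Polynomial.C c * u' * e p + Polynomial.C b * v' * e f := by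
    apply Polynomial.map_injective (algebraMap R Q) (IsFractionRing.injective R Q)
    rw [Polynomial.map_add, Polynomial.map_mul, Polynomial.map_mul, Polynomial.map_mul,
      Polynomial.map_mul, hb2, hc2, Polynomial.map_C, Polynomial.map_C, Polynomial.map_C]
    rw [Algebra.smul_def, Algebra.smul_def, Polynomial.algebraMap_apply,
      Polynomial.algebraMap_apply, map_mul, map_mul]
    linear_combination (-(Polynomial.C (algebraMap R Q b)) * Polynomial.C (algebraMap R Q c)) * huv
  have hmem : rename j.succAbove (b * c) ∈ I := by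
    rw [← hC, hkey]
    rw [map_add, map_mul, map_mul e.symm _ (e f), AlgEquiv.symm_apply_apply,
      AlgEquiv.symm_apply_apply]
    exact I.add_mem (I.mul_mem_left _ hpI) (I.mul_mem_left _ hf)
  exact mul_ne_zero (nonZeroDivisors.ne_zero hb1) (nonZeroDivisors.ne_zero hc1) (hI _ hmem)

/-- polynomials of degree one -/
lemma eval_lin {σ : Type*} [Fintype σ] [DecidableEq σ] {R : Type*} [CommRing R] [Algebra k R]
    {a : MvPolynomial σ k} (ha : a.totalDegree ≤ 1) (v : σ → R) :
    aeval v a = algebraMap k R (a.coeff 0) +
      ∑ i, algebraMap k R (a.coeff (Finsupp.single i 1)) * v i := by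
  have hd : ∀ d ∈ a.support, d = 0 ∨ ∃ i, d = Finsupp.single i 1 := by
    intro d hd
    have h1 : Finsupp.degree d ≤ 1 := (MvPolynomial.le_totalDegree hd).trans ha
    rcases Nat.le_one_iff_eq_zero_or_eq_one.1 h1 with h | h
    · left
      exact (Finsupp.degree_eq_zero_iff d).1 h
    · right
      have hd0 : d ≠ 0 := by
        rintro rfl
        simp at h
      obtain ⟨i, hi⟩ := Finsupp.ne_iff.1 hd0
      have hi' : d i ≠ 0 := hi
      have hle : Finsupp.single i 1 ≤ d := by
        rw [Finsupp.single_le_iff]
        omega
      have h2 := add_tsub_cancel_of_le hle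
      have h3 := congrArg Finsupp.degree h2
      rw [map_add, h, Finsupp.degree_single] at h3
      have h4 : Finsupp.degree (d - Finsupp.single i 1) = 0 := by omega
      rw [(Finsupp.degree_eq_zero_iff _).1 h4, add_zero] at h2
      exact ⟨i, h2.symm⟩
  rw [aeval_def, eval₂_eq]
  have hsub : a.support ⊆ insert 0 (Finset.univ.image fun i : σ => Finsupp.single i 1) := by
    intro d hd'
    rcases hd d hd' with h | ⟨i, h⟩
    · exact Finset.mem_insert.2 (Or.inl h)
    · exact Finset.mem_insert.2 (Or.inr (Finset.mem_image.2 ⟨i, Finset.mem_univ _, h.symm⟩))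
  rw [Finset.sum_subset hsub (fun d _ hd' => by
    rw [notMem_support_iff.1 hd', map_zero, zero_mul])]
  rw [Finset.sum_insert (by
    simp only [Finset.mem_image, Finset.mem_univ, true_and, not_exists]
    intro i h
    have := congrArg (fun d => d i) h
    simp at this)]
  rw [Finset.sum_image (by
    intro i _ j _ h
    exact (Finsupp.single_left_injective one_ne_zero) h)]
  congr 1
  · simp
  · refine Finset.sum_congr rfl fun i _ => ?_
    congr 1
    rw [Finset.prod_eq_single_of_mem i]
    · simp
    · simp
    · intro j _ hj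
      simp [Finsupp.single_apply, Ne.symm hj]

end Pool.Agent.TH729.CV
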