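import Pool.Agent.TH729.CV.J4

/-!
# Polynomials of degree at most three (helper729)
-/

set_option autoImplicit false
set_option linter.unusedSimpArgs false
set_option linter.unusedTactic false
set_option linter.unusedSectionVars false

namespace Pool.Agent.TH729.CV

open Set Filter Topology

variable {L : Type*} [NontriviallyNormedField L] [CompleteSpace L] [CharZero L]

variable {m n : ℕ} {K : Subfield L}

/-- sums -/
def Tri.add (F G : Tri L m) : Tri L m where
  f := F.f + G.f
  s12 a b c := by
    simp only [LinearMap.add_apply]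
    rw [F.s12, G.s12]
  s23 a b c := by
    simp only [LinearMap.add_apply]
    rw [F.s23, G.s23]

/-- multiples -/
def Tri.smul (t : L) (F : Tri L m) : Tri L m where
  f := t • F.f
  s12 a b c := by
    simp only [LinearMap.smul_apply]
    rw [F.s12]
  s23 a b c := by
    simp only [LinearMap.smul_apply]
    rw [F.s23]

/-- the product of three linear functionals, not symmetrized -/
noncomputable def pr3 (p q r : E L m →ₗ[L] L) : E L m →ₗ[L] E L m →ₗ[L] E L m →ₗ[L] L :=
  LinearMap.mk₂ L (fun a b => (p a * q b) • r)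
    (fun a a' b => by rw [map_add, add_mul, add_smul])
    (fun c a b => by rw [map_smul, smul_eq_mul, mul_assoc, mul_smul])
    (fun a b b' => by rw [map_add, mul_add, add_smul])
    (fun c a b => by rw [map_smul, smul_eq_mul, mul_left_comm, mul_smul])

lemma pr3_apply (p q r : E L m →ₗ[L] L) (a b c : E L m) : pr3 p q r a b c = p a * q b * r c := rfl

/-- the product of three linear functionals -/
noncomputable def Tri.prod (p q r : E L m →ₗ[L] L) : Tri L m where
  f := (1 / 6 : L) • (pr3 p q r + pr3 p r q + pr3 q p r + pr3 q r p + pr3 r p q + pr3 r q p)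
  s12 a b c := by
    simp only [LinearMap.smul_apply, LinearMap.add_apply, pr3_apply, smul_eq_mul]
    ring
  s23 a b c := by
    simp only [LinearMap.smul_apply, LinearMap.add_apply, pr3_apply, smul_eq_mul]
    ring

lemma Tri.prod_apply (p q r : E L m →ₗ[L] L) (v : E L m) :
    (Tri.prod p q r).f v v v = p v * q v * r v := by
  simp only [Tri.prod, LinearMap.smul_apply, LinearMap.add_apply, pr3_apply, smul_eq_mul]
  ring

/-- rational functionals -/
def RL (K : Subfield L) (p : E L m →ₗ[L] L) : Prop := ∀ v, Rt K v → p v ∈ K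

lemma Tri.prod_rat {p q r : E L m →ₗ[L] L} (hp : RL K p) (hq : RL K q) (hr : RL K r) :
    Rat3 (Tri.prod p q r) K := by
  intro a b c ha hb hc
  simp only [Tri.prod, LinearMap.smul_apply, LinearMap.add_apply, pr3_apply, smul_eq_mul]
  have h6 : (1 / 6 : L) ∈ K := by
    refine K.div_mem K.one_mem ?_
    exact_mod_cast SubfieldClass.ratCast_mem K 6
  refine K.mul_mem h6 ?_
  have h : ∀ {p q r : E L m →ₗ[L] L}, RL K p → RL K q → RL K r → p a * q b * r c ∈ K :=
    fun hp hq hr => K.mul_mem (K.mul_mem (hp _ ha) (hq _ hb)) (hr _ hc)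
  exact K.add_mem (K.add_mem (K.add_mem (K.add_mem (K.add_mem (h hp hq hr) (h hp hr hq))
    (h hq hp hr)) (h hq hr hp)) (h hr hp hq)) (h hr hq hp)

/-- representable functions -/
def Rep (K : Subfield L) (φ : E L n → E L m) (f : E L n → L) : Prop :=
  ∃ F : Tri L m, Rat3 F K ∧ ∀ x, F.f (φ x) (φ x) (φ x) = f x

lemma Rep.zero (φ : E L n → E L m) : Rep K φ fun _ => 0 := by
  refine ⟨Tri.smul 0 (Tri.prod 0 0 0), ?_, ?_⟩
  · intro a b c _ _ _
    simp only [Tri.smul, zero_smul, LinearMap.zero_apply]
    exact K.zero_mem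
  · intro x
    simp only [Tri.smul, zero_smul, LinearMap.zero_apply]

lemma Rep.add {φ : E L n → E L m} {f g : E L n → L} (hf : Rep K φ f) (hg : Rep K φ g) :
    Rep K φ fun x => f x + g x := by
  obtain ⟨F, hF, hF'⟩ := hf
  obtain ⟨G, hG, hG'⟩ := hg
  refine ⟨F.add G, ?_, ?_⟩
  · intro a b c ha hb hc
    exact K.add_mem (hF a b c ha hb hc) (hG a b c ha hb hc)
  · intro x
    simp only [Tri.add, LinearMap.add_apply, hF', hG']

lemma Rep.smul {φ : E L n → E L m} {f : E L n → L} (hf : Rep K φ f) {t : L} (ht : t ∈ K) :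
    Rep K φ fun x => t * f x := by
  obtain ⟨F, hF, hF'⟩ := hf
  refine ⟨F.smul t, ?_, ?_⟩
  · intro a b c ha hb hc
    exact K.mul_mem ht (hF a b c ha hb hc)
  · intro x
    simp only [Tri.smul, LinearMap.smul_apply, hF', smul_eq_mul]

lemma Rep.sum {φ : E L n → E L m} {α : Type*} (s : Finset α) {f : α → E L n → L}
    (h : ∀ a ∈ s, Rep K φ (f a)) : Rep K φ fun x => ∑ a ∈ s, f a x := by
  classical
  induction s using Finset.induction_on with
  | empty => simpa using Rep.zero φ
  | insert a s ha ih =>
    have : (fun x => ∑ b ∈ insert a s, f b x) = fun x => f a x + ∑ b ∈ s, f b x := by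
      funext x; rw [Finset.sum_insert ha]
    rw [this]
    exact (h a (by simp)).add (ih fun b hb => h b (by simp [hb]))

lemma Rep.prod {φ : E L n → E L m} {p q r : E L m →ₗ[L] L} (hp : RL K p) (hq : RL K q) (hr : RL K r)
    {f : E L n → L} (h : ∀ x, f x = p (φ x) * q (φ x) * r (φ x)) : Rep K φ f :=
  ⟨Tri.prod p q r, Tri.prod_rat hp hq hr, fun x => by rw [Tri.prod_apply, h]⟩

lemma prod_map_toMultiset {α M : Type*} [CommMonoid M] (d : α →₀ ℕ) (x : α → M) :
    (d.toMultiset.map x).prod = d.prod fun i k => x i ^ k := by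
  classical
  induction d using Finsupp.induction_linear with
  | zero => simp
  | add f g hf hg =>
    rw [map_add, Multiset.map_add, Multiset.prod_add, hf, hg, Finsupp.prod_add_index']
    · intro i
      rw [pow_zero]
    · intro i a b
      rw [pow_add]
  | single a n =>
    rw [Finsupp.toMultiset_single, Multiset.map_nsmul, Multiset.prod_nsmul,
      Multiset.map_singleton, Multiset.prod_singleton, Finsupp.prod_single_index]
    rw [pow_zero]

lemma eval₂_sum {R : Type*} [CommSemiring R] (σ : R →+* L) (f : MvPolynomial (Fin n) R)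
    (x : Fin n → L) : MvPolynomial.eval₂ σ x f =
      ∑ d ∈ f.support, σ (f.coeff d) * (d.toMultiset.map x).prod := by
  rw [MvPolynomial.eval₂_eq]
  refine Finset.sum_congr rfl fun d _ => ?_
  rw [prod_map_toMultiset]
  rfl

/-- adding the coordinate one -/
noncomputable def aug (x : E L n) : E L (n + 1) := Fin.cons 1 x

lemma aug_zero (x : E L n) : aug x 0 = 1 := rfl
lemma aug_succ (x : E L n) (i : Fin n) : aug x i.succ = x i := rfl

/-- polynomials of degree at most three -/
theorem rep_affine {R : Type*} [Field R] (σ : R →+* L) (f : MvPolynomial (Fin n) R)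
    (hf : f.totalDegree ≤ 3) :
    Rep σ.fieldRange (aug : E L n → E L (n + 1)) (fun x => MvPolynomial.eval₂ σ x f) := by
  rw [show (fun x => MvPolynomial.eval₂ σ x f) = fun x =>
      ∑ d ∈ f.support, σ (f.coeff d) * (d.toMultiset.map x).prod from
    funext fun x => eval₂_sum σ f x]
  refine Rep.sum _ fun d hd => Rep.smul ?_ ⟨_, rfl⟩
  have hcard : Multiset.card d.toMultiset ≤ 3 := by
    rw [Finsupp.card_toMultiset]
    exact (MvPolynomial.le_totalDegree hd).trans hf
  have hpr : ∀ i : Fin (n + 1), RL σ.fieldRange (LinearMap.proj i : E L (n + 1) →ₗ[L] L) :=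
    fun i v hv => hv i
  have h0 : Multiset.card d.toMultiset = 0 ∨ Multiset.card d.toMultiset = 1 ∨
      Multiset.card d.toMultiset = 2 ∨ Multiset.card d.toMultiset = 3 := by omega
  rcases h0 with h | h | h | h
  · rw [Multiset.card_eq_zero] at h
    refine Rep.prod (hpr 0) (hpr 0) (hpr 0) fun x => ?_
    rw [h]
    simp [aug_zero]
  · obtain ⟨i, hi⟩ := Multiset.card_eq_one.1 h
    refine Rep.prod (hpr i.succ) (hpr 0) (hpr 0) fun x => ?_
    rw [hi]
    simp [aug_zero, aug_succ]
  · obtain ⟨i, j, hi⟩ := Multiset.card_eq_two.1 h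
    refine Rep.prod (hpr i.succ) (hpr j.succ) (hpr 0) fun x => ?_
    rw [hi]
    simp [aug_zero, aug_succ]
  · obtain ⟨i, j, k, hi⟩ := Multiset.card_eq_three.1 h
    refine Rep.prod (hpr i.succ) (hpr j.succ) (hpr k.succ) fun x => ?_
    rw [hi]
    simp [aug_succ]
    ring

end Pool.Agent.TH729.CV
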