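import Pool.Agent.TH729.CV.Curve
import Pool.Agent.TH729.CV.Elim

/-!
# Local ideals of conic sets of rational points (helper729)
-/

set_option autoImplicit false
set_option linter.unusedSimpArgs false
set_option linter.unusedTactic false
set_option linter.unusedSectionVars false

namespace Pool.Agent.TH729.CV

open Set Filter Topology MvPolynomial

variable {L : Type*} [NontriviallyNormedField L] [CompleteSpace L] [CharZero L]

variable {m : ℕ} {K : Subfield L}

/-! ### Polynomial functions of one variable -/

/-- polynomial functions -/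
def PL (g : L → L) : Prop := ∃ p : Polynomial L, ∀ s, g s = p.eval s

lemma PL.const (c : L) : PL fun _ => c := ⟨Polynomial.C c, fun s => by simp⟩
lemma PL.id : PL fun s : L => s := ⟨Polynomial.X, fun s => by simp⟩
lemma PL.add {f g : L → L} (hf : PL f) (hg : PL g) : PL fun s => f s + g s := by
  obtain ⟨p, hp⟩ := hf
  obtain ⟨q, hq⟩ := hg
  exact ⟨p + q, fun s => by simp only [hp, hq, Polynomial.eval_add]⟩
lemma PL.sub {f g : L → L} (hf : PL f) (hg : PL g) : PL fun s => f s - g s := by
  obtain ⟨p, hp⟩ := hf
  obtain ⟨q, hq⟩ := hg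
  exact ⟨p - q, fun s => by simp only [hp, hq, Polynomial.eval_sub]⟩
lemma PL.mul {f g : L → L} (hf : PL f) (hg : PL g) : PL fun s => f s * g s := by
  obtain ⟨p, hp⟩ := hf
  obtain ⟨q, hq⟩ := hg
  exact ⟨p * q, fun s => by simp only [hp, hq, Polynomial.eval_mul]⟩
lemma PL.sum {ι : Type*} (s : Finset ι) {f : ι → L → L} (h : ∀ i, PL (f i)) :
    PL fun x => ∑ i ∈ s, f i x := by
  classical
  induction s using Finset.induction_on with
  | empty => simpa using PL.const (0 : L)
  | insert i s hi ih =>
    simp only [Finset.sum_insert hi]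
    exact (h i).add ih

lemma PL.aeval {γ : L → E L m} (h : ∀ i, PL fun s => γ s i) (f : MvPolynomial (Fin m) K) :
    PL fun s => MvPolynomial.aeval (γ s) f := by
  induction f using MvPolynomial.induction_on with
  | C a => simpa using PL.const _
  | add p q hp hq =>
    simp only [map_add]
    exact hp.add hq
  | mul_X p i hp =>
    simp only [map_mul, MvPolynomial.aeval_X]
    exact hp.mul (h i)

/-- a polynomial function vanishing near a point vanishes -/
lemma PL.zero {g : L → L} (hg : PL g) {a : L} (h : ∀ᶠ s in 𝓝 a, g s = 0) (s : L) : g s = 0 := by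
  obtain ⟨p, hp⟩ := hg
  have hp0 : p = 0 := by
    refine Polynomial.eq_zero_of_infinite_isRoot p ?_
    refine (infinite_of_mem_nhds a h).mono fun s hs => ?_
    have hs' : g s = 0 := hs
    rw [hp] at hs'
    exact hs'
  rw [hp, hp0, Polynomial.eval_zero]

/-- a polynomial function vanishing on an infinite set vanishes -/
lemma PL.zero_inf {g : L → L} (hg : PL g) {S : Set L} (hS : S.Infinite) (h : ∀ s ∈ S, g s = 0)
    (s : L) : g s = 0 := by
  obtain ⟨p, hp⟩ := hg
  have hp0 : p = 0 := by
    refine Polynomial.eq_zero_of_infinite_isRoot p ?_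
    refine hS.mono fun s hs => ?_
    have hs' : g s = 0 := h s hs
    rw [hp] at hs'
    exact hs'
  rw [hp, hp0, Polynomial.eval_zero]

/-! ### The ideals -/

/-- `f` vanishes on the line through `y` -/
def VL (f : MvPolynomial (Fin m) K) (y : E L m) : Prop := ∀ t : L, aeval (t • y) f = 0

lemma VL.smul {f : MvPolynomial (Fin m) K} {y : E L m} (h : VL f y) (c : L) : VL f (c • y) := by
  intro t
  rw [smul_smul]
  exact h _

lemma cont_aeval (f : MvPolynomial (Fin m) K) : Continuous fun y : E L m => aeval y f := by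
  induction f using MvPolynomial.induction_on with
  | C a => simpa using continuous_const
  | add p q hp hq =>
    simp only [map_add]
    exact hp.add hq
  | mul_X p i hp =>
    simp only [map_mul, MvPolynomial.aeval_X]
    exact hp.mul (continuous_apply i)

lemma closed_VL (f : MvPolynomial (Fin m) K) : IsClosed {y : E L m | VL f y} := by
  have : {y : E L m | VL f y} = ⋂ t : L, {y | aeval (t • y) f = 0} := by
    ext y
    simp [VL]
  rw [this]
  refine isClosed_iInter fun t => isClosed_eq ((cont_aeval f).comp ?_) continuous_const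
  exact continuous_const_smul t

/-- the ideal of polynomials vanishing on `A` near `x` -/
def J (K : Subfield L) (A : Set (E L m)) (x : E L m) : Ideal (MvPolynomial (Fin m) K) where
  carrier := {f | ∀ᶠ z in 𝓝 x, z ∈ A → VL f z}
  zero_mem' := Eventually.of_forall fun z _ t => by simp
  add_mem' := by
    intro f g hf hg
    filter_upwards [hf, hg] with z h1 h2 hz t
    rw [map_add, h1 hz t, h2 hz t, add_zero]
  smul_mem' := by
    intro c f hf
    filter_upwards [hf] with z h1 hz t
    rw [smul_eq_mul, map_mul, h1 hz t, mul_zero]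

lemma mem_J {A : Set (E L m)} {x : E L m} {f : MvPolynomial (Fin m) K} :
    f ∈ J K A x ↔ ∀ᶠ z in 𝓝 x, z ∈ A → VL f z := Iff.rfl

/-- finitely many local ideals -/
def FS (K : Subfield L) (A : Set (E L m)) : Prop := (Set.range fun x : E L m => J K A x).Finite

lemma J_union (A B : Set (E L m)) (x : E L m) : J K (A ∪ B) x = J K A x ⊓ J K B x := by
  ext f
  rw [Submodule.mem_inf, mem_J, mem_J, mem_J, ← eventually_and]
  refine eventually_congr (Eventually.of_forall fun z => ?_)
  simp only [mem_union, or_imp]

lemma FS.union {A B : Set (E L m)} (hA : FS K A) (hB : FS K B) : FS K (A ∪ B) := by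
  refine (Set.Finite.image2 (fun I I' => I ⊓ I') hA hB).subset ?_
  rintro _ ⟨x, rfl⟩
  exact ⟨_, ⟨x, rfl⟩, _, ⟨x, rfl⟩, (J_union A B x).symm⟩

lemma FS.empty : FS K (∅ : Set (E L m)) := by
  refine (Set.finite_singleton (⊤ : Ideal (MvPolynomial (Fin m) K))).subset ?_
  rintro _ ⟨x, rfl⟩
  rw [mem_singleton_iff, Ideal.eq_top_iff_one]
  exact Eventually.of_forall fun z hz => hz.elim

lemma FS.biUnion {ι : Type*} {S : Set ι} (hS : S.Finite) {A : ι → Set (E L m)}
    (h : ∀ i ∈ S, FS K (A i)) : FS K (⋃ i ∈ S, A i) := by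
  induction S, hS using Set.Finite.induction_on with
  | empty => simpa using FS.empty
  | insert _ _ ih =>
    rw [biUnion_insert]
    exact (h _ (mem_insert _ _)).union (ih fun i hi => h i (mem_insert_of_mem _ hi))

/-- a common neighbourhood -/
lemma J_stab (A : Set (E L m)) (x : E L m) : ∀ᶠ z in 𝓝 x, z ∈ A → ∀ f ∈ J K A x, VL f z := by
  obtain ⟨G, hG⟩ := (IsNoetherian.noetherian (J K A x) : (J K A x).FG)
  have h1 : ∀ᶠ z in 𝓝 x, ∀ g ∈ G, z ∈ A → VL g z := by
    rw [Filter.eventually_all_finset]
    intro g hg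
    have : g ∈ J K A x := by
      rw [← hG]
      exact Submodule.subset_span hg
    exact this
  filter_upwards [h1] with z hz hzA f hf
  rw [← hG] at hf
  refine Submodule.span_induction (p := fun f _ => VL f z) (fun g hg => hz g hg hzA) ?_ ?_ ?_ hf
  · intro t
    rw [map_zero]
  · intro f g _ _ h1 h2 t
    rw [map_add, h1 t, h2 t, add_zero]
  · intro c f _ h1 t
    rw [smul_eq_mul, map_mul, h1 t, mul_zero]

/-- `f` in the ideal vanishes at points of the closure of `A` near `x` -/
lemma J_closure {A : Set (E L m)} {x : E L m} {f : MvPolynomial (Fin m) K} (hf : f ∈ J K A x) :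
    ∀ᶠ z in 𝓝 x, z ∈ closure A → VL f z := by
  filter_upwards [(mem_J.1 hf).eventually_nhds] with z hz hzA
  have h1 : ∃ᶠ y in 𝓝 z, y ∈ A := mem_closure_iff_frequently.1 hzA
  have h2 : ∃ᶠ y in 𝓝 z, VL f y := (h1.and_eventually hz).mono fun y hy => hy.2 hy.1
  exact (closed_VL f).mem_of_frequently_of_tendsto h2 tendsto_id

/-- it is enough to consider a dense set of points -/
theorem FS.of_dense {A D : Set (E L m)} (hDA : D ⊆ closure A) (hAD : A ⊆ closure D)
    (h : ((fun x => J K A x) '' D).Finite) : FS K A := by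
  set G := (fun x => J K A x) '' D with hG
  have key : ∀ x, J K A x = sInf {I | I ∈ G ∧ x ∈ closure {R | R ∈ D ∧ J K A R = I}} := by
    intro x
    apply le_antisymm
    · refine le_sInf ?_
      rintro I ⟨-, hI⟩ f hf
      have h1 := (mem_J.1 hf).eventually_nhds
      obtain ⟨R, ⟨hR, hRI⟩, hR'⟩ := ((mem_closure_iff_frequently.1 hI).and_eventually h1).exists
      rw [← hRI]
      exact hR'
    · intro f hf
      rw [Submodule.mem_sInf] at hf
      have h1 : ∀ᶠ z in 𝓝 x, ∀ I ∈ G, ¬ (I ∈ G ∧ x ∈ closure {R | R ∈ D ∧ J K A R = I}) →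
          ¬ (z ∈ D ∧ J K A z = I) := by
        rw [Filter.eventually_all_finite h]
        intro I hI
        by_cases hx : x ∈ closure {R | R ∈ D ∧ J K A R = I}
        · exact Eventually.of_forall fun z hz => (hz ⟨hI, hx⟩).elim
        · have h2 : (closure {R | R ∈ D ∧ J K A R = I})ᶜ ∈ 𝓝 x :=
            isClosed_closure.isOpen_compl.mem_nhds hx
          filter_upwards [h2] with z hz _ hz'
          exact hz (subset_closure hz')
      have h2 : ∀ᶠ z in 𝓝 x, z ∈ D → VL f z := by
        filter_upwards [h1] with z hz hzD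
        have h3 : f ∈ J K A z := by
          apply hf
          by_contra hcon
          exact hz _ ⟨z, hzD, rfl⟩ hcon ⟨hzD, rfl⟩
        exact (J_closure h3).self_of_nhds (hDA hzD)
      rw [mem_J]
      filter_upwards [h2.eventually_nhds] with z hz hzA
      have h3 : ∃ᶠ y in 𝓝 z, y ∈ D := mem_closure_iff_frequently.1 (hAD hzA)
      have h4 : ∃ᶠ y in 𝓝 z, VL f y := (h3.and_eventually hz).mono fun y hy => hy.2 hy.1
      exact (closed_VL f).mem_of_frequently_of_tendsto h4 tendsto_id
  refine ((h.finite_subsets).image fun S => sInf S).subset ?_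
  rintro _ ⟨x, rfl⟩
  exact ⟨_, fun I hI => hI.1, (key x).symm⟩

/-- conic sets -/
def Con (A : Set (E L m)) : Prop := ∀ y ∈ A, ∀ c : L, c ≠ 0 → c • y ∈ A

lemma J_smul {A : Set (E L m)} (hA : Con A) (x : E L m) {c : L} (hc : c ≠ 0) :
    J K A (c • x) = J K A x := by
  have key : ∀ (x : E L m) (c : L), c ≠ 0 → J K A x ≤ J K A (c • x) := by
    intro x c hc f hf
    have h1 : Tendsto (fun z : E L m => c⁻¹ • z) (𝓝 (c • x)) (𝓝 x) := by
      have := (continuous_const_smul c⁻¹ (T := E L m)).tendsto (c • x)
      rwa [smul_smul, inv_mul_cancel₀ hc, one_smul] at this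
    rw [mem_J]
    filter_upwards [h1.eventually hf] with z hz hzA
    have h2 := (hz (hA z hzA _ (inv_ne_zero hc))).smul c
    rwa [smul_smul, mul_inv_cancel₀ hc, one_smul] at h2
  apply le_antisymm
  · have := key (c • x) c⁻¹ (inv_ne_zero hc)
    rwa [smul_smul, inv_mul_cancel₀ hc, one_smul] at this
  · exact key x c hc

/-- connected families -/
theorem FS.of_conn {A : Set (E L m)} (h : ∀ x ∈ A, ∀ y ∈ A, ∀ f ∈ J K A x, VL f y) : FS K A := by
  refine FS.of_dense subset_closure subset_closure ?_
  by_cases hA : A.Nonempty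
  · obtain ⟨x₀, hx₀⟩ := hA
    refine (Set.finite_singleton (J K A x₀)).subset ?_
    rintro _ ⟨x, hx, rfl⟩
    rw [mem_singleton_iff]
    apply le_antisymm
    · intro f hf
      exact Eventually.of_forall fun z hz => h x hx z hz f hf
    · intro f hf
      exact Eventually.of_forall fun z hz => h x₀ hx₀ z hz f hf
  · rw [not_nonempty_iff_eq_empty] at hA
    rw [hA, image_empty]
    exact Set.finite_empty

/-! ### Hyperplanes -/

/-- substitution of linear forms -/
noncomputable def pb (a : Fin (m + 1) → K) (j : Fin (m + 1)) :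
    MvPolynomial (Fin (m + 1)) K →ₐ[K] MvPolynomial (Fin m) K :=
  aeval fun k => Fin.insertNth (α := fun _ => MvPolynomial (Fin m) K) j
    (-(∑ i, C (a (j.succAbove i) / a j) * X i)) X k

lemma aeval_pb (a : Fin (m + 1) → K) (j : Fin (m + 1)) (u : E L m)
    (f : MvPolynomial (Fin (m + 1)) K) : aeval u (pb a j f) = aeval (par a j u) f := by
  rw [pb, ← AlgHom.comp_apply]
  congr 1
  apply MvPolynomial.algHom_ext
  intro k
  rw [AlgHom.comp_apply, aeval_X, aeval_X]
  refine Fin.succAboveCases j ?_ (fun i => ?_) k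
  · rw [Fin.insertNth_apply_same, par_same, map_neg, map_sum, neg_div, Finset.sum_div]
    congr 1
    refine Finset.sum_congr rfl fun i _ => ?_
    rw [map_mul, aeval_X, aeval_C]
    change ((a (j.succAbove i) / a j : K) : L) * u i = _
    push_cast
    ring
  · rw [Fin.insertNth_apply_succAbove, aeval_X, par_succ]

theorem FS.par {a : Fin (m + 1) → K} {j : Fin (m + 1)} (hj : a j ≠ 0) {A : Set (E L (m + 1))}
    (hA : ∀ v ∈ A, dt a v = 0) (h : FS K {u : E L m | par a j u ∈ A}) : FS K A := by
  refine ((h.image (Ideal.comap (pb a j))).union (Set.finite_singleton ⊤)).subset ?_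
  rintro _ ⟨x, rfl⟩
  have hpc : Continuous (CV.par a j) := LinearMap.continuous_of_finiteDimensional _
  have hrc : Continuous fun (v : E L (m + 1)) (i : Fin m) => v (j.succAbove i) :=
    continuous_pi fun i => continuous_apply _
  by_cases hx : dt a x = 0
  · left
    refine ⟨J K {u : E L m | CV.par a j u ∈ A} (fun i => x (j.succAbove i)),
      ⟨_, rfl⟩, ?_⟩
    have hVL : ∀ (f : MvPolynomial (Fin (m + 1)) K) (u : E L m),
        VL (pb a j f) u ↔ VL f (CV.par a j u) := by
      intro f u
      refine forall_congr' fun t => ?_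
      rw [aeval_pb, map_smul]
    ext f
    rw [Ideal.mem_comap, mem_J, mem_J]
    constructor
    · intro hf
      filter_upwards [(hrc.tendsto x).eventually hf] with z hz hzA
      have h1 := par_res hj (hA z hzA)
      have h2 := hz (by
        change CV.par a j _ ∈ A
        rwa [h1])
      rw [hVL, h1] at h2
      exact h2
    · intro hf
      have h1 := hpc.tendsto (fun i => x (j.succAbove i))
      rw [par_res hj hx] at h1
      filter_upwards [h1.eventually hf] with u hu huA
      rw [hVL]
      exact hu huA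
  · right
    rw [mem_singleton_iff, Ideal.eq_top_iff_one]
    have h1 : ∀ᶠ z in 𝓝 x, dt a z ≠ 0 := (dt_cont a).continuousAt.eventually_ne hx
    exact h1.mono fun z hz hzA => (hz (hA z hzA)).elim

end Pool.Agent.TH729.CV
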