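import Pool.Agent.TH729.CV.J

/-!
# Local ideals: quadrics and cones (helper729)
-/

set_option autoImplicit false
set_option linter.unusedSimpArgs false
set_option linter.unusedTactic false
set_option linter.unusedSectionVars false

namespace Pool.Agent.TH729.CV

open Set Filter Topology MvPolynomial

variable {L : Type*} [NontriviallyNormedField L] [CompleteSpace L] [CharZero L]

variable {m : ℕ} {K : Subfield L} [DK K]

/-- nonzero multiples of the elements of a set -/
def cn (A : Set (E L m)) : Set (E L m) := {y | ∃ (r : L) (u : E L m), r ≠ 0 ∧ u ∈ A ∧ y = r • u}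

lemma cn_con (A : Set (E L m)) : Con (cn A) := by
  rintro _ ⟨r, u, hr, hu, rfl⟩ c hc
  exact ⟨c * r, u, mul_ne_zero hc hr, hu, by rw [smul_smul]⟩

lemma sub_cn (A : Set (E L m)) : A ⊆ cn A := fun u hu => ⟨1, u, one_ne_zero, hu, by rw [one_smul]⟩

/-- polynomial curves -/
def PLv (γ : L → E L m) : Prop := ∀ i, PL fun s => γ s i

lemma PLv.line (x d : E L m) : PLv fun s : L => x + s • d := fun i =>
  (PL.const (x i)).add (PL.id.mul (PL.const (d i)))

lemma PLv.const (x : E L m) : PLv fun _ : L => x := fun i => PL.const (x i)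

lemma PLv.smul {f : L → L} {γ : L → E L m} (hf : PL f) (hγ : PLv γ) :
    PLv fun s => f s • γ s := fun i => hf.mul (hγ i)

lemma PLv.sub {γ δ : L → E L m} (hγ : PLv γ) (hδ : PLv δ) :
    PLv fun s => γ s - δ s := fun i => (hγ i).sub (hδ i)

lemma PL.bil (B : Bil L m) {γ δ : L → E L m} (hγ : PLv γ) (hδ : PLv δ) :
    PL fun s => B.b (γ s) (δ s) := by
  rw [show (fun s => B.b (γ s) (δ s)) = _ from funext fun s => B.expand (γ s) (δ s)]
  exact PL.sum _ fun i => PL.sum _ fun j => (hγ i).mul ((hδ j).mul (PL.const _))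

/-- vanishing near a point on a polynomial curve -/
lemma VL_curve {f : MvPolynomial (Fin m) K} {γ : L → E L m} (hγ : PLv γ) {a : L}
    (h : ∀ᶠ s in 𝓝 a, VL f (γ s)) (s : L) : VL f (γ s) := by
  intro t
  have h1 : PL fun s => aeval (t • γ s) f := PL.aeval (γ := fun s => t • γ s)
    (fun i => (PL.const t).mul (hγ i)) f
  exact h1.zero (a := a) (h.mono fun s hs => hs t) s

lemma VL_all {f : MvPolynomial (Fin m) K} {x : E L m} (h : ∀ᶠ z in 𝓝 x, VL f z) (y : E L m) :
    VL f y := by
  have hc : Continuous fun s : L => x + s • (y - x) := by fun_prop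
  have h1 := hc.tendsto 0
  simp only [zero_smul, add_zero] at h1
  have h2 := VL_curve (PLv.line x (y - x)) (h1.eventually h) 1
  simpa using h2

lemma FS.all : FS K (cn {v : E L m | Rt K v}) := by
  refine FS.of_conn fun x hx y hy f hf => ?_
  refine VL_all (x := x) ?_ y
  filter_upwards [J_closure hf] with z hz
  exact hz (closure_mono (sub_cn _) (dense_rt (K := K) z))

lemma FS.zero_dim (A : Set (E L 0)) : FS K A := Set.finite_range _

/-- hyperplane sections of cones -/
lemma par_cn {a : Fin (m + 1) → K} {j : Fin (m + 1)} (hj : a j ≠ 0) (p : E L (m + 1) → Prop) :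
    {u : E L m | par a j u ∈ cn {v | Rt K v ∧ p v} ∩ {v | dt a v = 0}} =
      cn {u | Rt K u ∧ p (par a j u)} := by
  ext u
  constructor
  · rintro ⟨⟨r, v, hr, ⟨hv, hpv⟩, hu⟩, -⟩
    have h1 : dt a v = 0 := by
      have h2 := par_dt hj u
      rw [hu, map_smul, smul_eq_mul] at h2
      exact (mul_eq_zero.1 h2).resolve_left hr
    refine ⟨r, fun i => v (j.succAbove i), hr, ⟨fun i => hv _, ?_⟩, ?_⟩
    · rw [par_res hj h1]
      exact hpv
    · funext i
      have := congrFun hu (j.succAbove i)
      rw [par_succ] at this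
      exact this
  · rintro ⟨r, v, hr, ⟨hv, hpv⟩, rfl⟩
    refine ⟨⟨r, par a j v, hr, ⟨par_rt hv, hpv⟩, map_smul _ _ _⟩, par_dt hj _⟩

theorem FS.hyp {a : Fin (m + 1) → K} {j : Fin (m + 1)} (hj : a j ≠ 0) {p : E L (m + 1) → Prop}
    (h : FS K (cn {u : E L m | Rt K u ∧ p (CV.par a j u)})) :
    FS K (cn {v | Rt K v ∧ p v} ∩ {v | dt a v = 0}) := by
  refine FS.par hj (fun v hv => hv.2) ?_
  rw [par_cn hj]
  exact h

/-- **quadrics** -/
theorem quad_FS : ∀ (m : ℕ) (B : Bil L m), Rat2 B K → FS K (cn {v | Rt K v ∧ B.b v v = 0}) := by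
  intro m
  induction m with
  | zero => intro B _; exact FS.zero_dim _
  | succ m ih =>
    intro B hB
    have hyp : ∀ a : Fin (m + 1) → K, a ≠ 0 →
        FS K (cn {v | Rt K v ∧ B.b v v = 0} ∩ {v | dt a v = 0}) := by
      intro a ha
      obtain ⟨j, hj⟩ := Function.ne_iff.1 ha
      refine FS.hyp (p := fun v => B.b v v = 0) hj ?_
      exact ih (B.comap (par a j)) fun v w hv hw => hB _ _ (par_rt hv) (par_rt hw)
    by_cases h0 : ∃ P, Rt K P ∧ B.b P P = 0 ∧ ∃ e, B.b P e ≠ 0
    · obtain ⟨P, hP, hPP, e, he⟩ := h0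
      obtain ⟨a, ha⟩ := exists_dt (K := K) (B.b P) fun v hv => hB _ _ hP hv
      have ha0 : a ≠ 0 := by
        rintro rfl
        apply he
        rw [← ha e]
        simp [dt_apply]
      set A₁ : Set (E L (m + 1)) := cn {v | Rt K v ∧ B.b v v = 0 ∧ B.b P v ≠ 0} with hA₁
      have heq : cn {v | Rt K v ∧ B.b v v = 0} =
          A₁ ∪ (cn {v | Rt K v ∧ B.b v v = 0} ∩ {v | dt a v = 0}) := by
        ext y
        constructor
        · rintro ⟨r, u, hr, ⟨hu1, hu2⟩, rfl⟩
          by_cases h1 : B.b P u = 0
          · refine Or.inr ⟨⟨r, u, hr, ⟨hu1, hu2⟩, rfl⟩, ?_⟩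
            change dt a (r • u) = 0
            rw [map_smul, ha, h1, smul_zero]
          · exact Or.inl ⟨r, u, hr, ⟨hu1, hu2, h1⟩, rfl⟩
        · rintro (⟨r, u, hr, ⟨hu1, hu2, -⟩, rfl⟩ | h)
          · exact ⟨r, u, hr, ⟨hu1, hu2⟩, rfl⟩
          · exact h.1
      rw [heq]
      refine FS.union ?_ (hyp a ha0)
      -- the open part
      have hA1 : ∀ y ∈ A₁, B.b y y = 0 ∧ B.b P y ≠ 0 := by
        rintro _ ⟨r, u, hr, ⟨hu1, hu2, hu3⟩, rfl⟩
        constructor
        · simp only [map_smul, LinearMap.smul_apply, hu2, smul_zero]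
        · rw [map_smul]
          exact mul_ne_zero hr hu3
      set φ : E L (m + 1) → E L (m + 1) := fun w => B.b w w • P - (2 * B.b P w) • w with hφ
      have hφc : Continuous φ :=
        ((B.cont continuous_id continuous_id).smul continuous_const).sub
          ((continuous_const.mul (B.cont continuous_const continuous_id)).smul continuous_id)
      have hφr : ∀ w, Rt K w → B.b P w ≠ 0 → φ w ∈ A₁ := by
        intro w hw hw'
        refine sub_cn _ ⟨?_, ?_, ?_⟩
        · refine (hP.smul (hB _ _ hw hw)).sub (hw.smul (K.mul_mem ?_ (hB _ _ hP hw)))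
          exact_mod_cast SubfieldClass.ratCast_mem K 2
        · have hs := B.symm w P
          simp only [hφ, map_sub, map_smul, LinearMap.sub_apply, LinearMap.smul_apply,
            smul_eq_mul, hPP, hs]
          ring
        · simp only [hφ, map_sub, map_smul, LinearMap.sub_apply, LinearMap.smul_apply,
            smul_eq_mul, hPP, mul_zero, zero_sub, neg_ne_zero]
          exact mul_ne_zero (mul_ne_zero two_ne_zero hw') hw'
      have hφ0 : ∀ y ∈ A₁, φ y = (-(2 * B.b P y)) • y := by
        intro y hy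
        simp only [hφ, (hA1 y hy).1, zero_smul, zero_sub, neg_smul]
      have hc0 : ∀ y ∈ A₁, -(2 * B.b P y) ≠ 0 := fun y hy =>
        neg_ne_zero.2 (mul_ne_zero two_ne_zero (hA1 y hy).2)
      refine FS.of_conn fun x hx y hy f hf => ?_
      rw [← J_smul (cn_con _) x (hc0 x hx), ← hφ0 x hx] at hf
      have h1 : ∀ᶠ w in 𝓝 x, VL f (φ w) := by
        have h2 : ∀ᶠ w in 𝓝 x, B.b P w ≠ 0 :=
          (B.cont continuous_const continuous_id).continuousAt.eventually_ne (hA1 x hx).2
        filter_upwards [(hφc.tendsto x).eventually (J_closure hf), h2.eventually_nhds]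
          with w hw1 hw2
        apply hw1
        obtain ⟨u, hu, hu'⟩ := seq_rt (K := K) w
        refine mem_closure_of_tendsto ((hφc.tendsto w).comp hu') ?_
        filter_upwards [hu'.eventually hw2] with n hn
        exact hφr _ (hu n) hn
      have hc : Continuous fun s : L => x + s • (y - x) := by fun_prop
      have h2 := hc.tendsto 0
      simp only [zero_smul, add_zero] at h2
      have hcv : PLv fun s : L => φ (x + s • (y - x)) := by
        have h3 := PLv.line x (y - x)
        exact PLv.sub (PLv.smul (PL.bil B h3 h3) (PLv.const P))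
          (PLv.smul ((PL.const 2).mul (PL.bil B (PLv.const P) h3)) h3)
      have h4 := VL_curve hcv (h2.eventually h1) 1
      rw [one_smul, add_sub_cancel, hφ0 y hy] at h4
      have h5 := h4.smul (-(2 * B.b P y))⁻¹
      rwa [smul_smul, inv_mul_cancel₀ (hc0 y hy), one_smul] at h5
    · push Not at h0
      by_cases h1 : ∃ u e, Rt K u ∧ B.b u e ≠ 0
      · obtain ⟨u, e, hu, he⟩ := h1
        obtain ⟨a, ha⟩ := exists_dt (K := K) (B.b u) fun v hv => hB _ _ hu hv
        have ha0 : a ≠ 0 := by
          rintro rfl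
          apply he
          rw [← ha e]
          simp [dt_apply]
        have heq : cn {v | Rt K v ∧ B.b v v = 0} =
            cn {v | Rt K v ∧ B.b v v = 0} ∩ {v | dt a v = 0} := by
          refine (inter_eq_left.2 ?_).symm
          rintro _ ⟨r, v, hr, ⟨hv1, hv2⟩, rfl⟩
          change dt a (r • v) = 0
          rw [map_smul, ha, B.symm, h0 v hv1 hv2 u, smul_zero]
        rw [heq]
        exact hyp a ha0
      · push Not at h1
        have heq : {v : E L (m + 1) | Rt K v ∧ B.b v v = 0} = {v | Rt K v} := by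
          ext w
          exact ⟨fun hw => hw.1, fun hw => ⟨hw, h1 w w hw⟩⟩
        rw [heq]
        exact FS.all

/-! ### Cones with a rational vertex -/

/-- translation -/
noncomputable def trn (P : Fin m → K) (σ : K) : MvPolynomial (Fin m) K →ₐ[K] MvPolynomial (Fin m) K :=
  aeval fun i => X i + C (σ * P i)

lemma aeval_trn (P : Fin m → K) (σ : K) (z : E L m) (f : MvPolynomial (Fin m) K) :
    aeval z (trn P σ f) = aeval (z + (σ : L) • co K P) f := by
  rw [trn, ← AlgHom.comp_apply]
  congr 1
  apply MvPolynomial.algHom_ext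
  intro k
  rw [AlgHom.comp_apply, aeval_X, aeval_X, map_add, aeval_X, aeval_C]
  rfl

theorem FS.vertex {A B : Set (E L m)} {a : Fin m → K} {P : Fin m → K}
    (h1 : ∀ y ∈ A, y - dt a y • co K P ∈ B) (h2 : ∀ z ∈ B, ∀ s : L, z + s • co K P ∈ closure A)
    (h : FS K B) : FS K A := by
  set π : E L m → E L m := fun y => y - dt a y • co K P with hπ
  have hπc : Continuous π := continuous_id.sub ((dt_cont a).smul continuous_const)
  have key : ∀ x, J K A x = ⨅ σ : K, Ideal.comap (trn P σ) (J K B (π x)) := by
    intro x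
    ext f
    have e1 : f ∈ J K A x ↔ ∀ᶠ z in 𝓝 (π x), z ∈ B → ∀ s : L, VL f (z + s • co K P) := by
      constructor
      · intro hf
        have hc : Continuous fun w : E L m × L => w.1 + w.2 • co K P := by fun_prop
        have h3 := hc.tendsto (π x, dt a x)
        simp only [hπ, sub_add_cancel] at h3
        have h4 := h3.eventually (J_closure hf)
        rw [nhds_prod_eq] at h4
        obtain ⟨pa, hpa, pb, hpb, hab⟩ := eventually_prod_iff.1 h4
        filter_upwards [hpa] with z hz hzB
        refine VL_curve (γ := fun s => z + s • co K P) (PLv.line z _) (a := dt a x) ?_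
        filter_upwards [hpb] with s hs
        exact hab hz hs (h2 z hzB s)
      · intro hf
        rw [mem_J]
        filter_upwards [(hπc.tendsto x).eventually hf] with w hw hwA
        have h3 := hw (h1 w hwA) (dt a w)
        simp only [hπ, sub_add_cancel] at h3
        exact h3
    rw [e1, Submodule.mem_iInf]
    constructor
    · intro hf σ
      rw [Ideal.mem_comap, mem_J]
      filter_upwards [hf] with z hz hzB
      intro t
      have h3 : PL fun t : L => aeval (t • z) (trn P σ f) := PL.aeval (γ := fun t => t • z)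
        (fun i => PL.id.mul (PL.const (z i))) _
      refine h3.zero (a := 1) ?_ t
      filter_upwards [isOpen_ne.mem_nhds (one_ne_zero (α := L))] with t ht
      have ht' : t ≠ 0 := ht
      rw [aeval_trn]
      have h4 := hz hzB ((σ : L) / t) t
      rw [smul_add, smul_smul, mul_div_cancel₀ _ ht'] at h4
      exact h4
    · intro hf
      filter_upwards [J_stab B (π x)] with z hz hzB s t
      have h3 : ∀ σ : L, aeval (t • z + σ • co K P) f = 0 := by
        have hcl : IsClosed {σ : L | aeval (t • z + σ • co K P) f = 0} := by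
          refine isClosed_eq ((cont_aeval f).comp ?_) continuous_const
          fun_prop
        have hsub : (K : Set L) ⊆ {σ : L | aeval (t • z + σ • co K P) f = 0} := by
          intro σ hσ
          have h4 := hz hzB _ (hf ⟨σ, hσ⟩) t
          rw [aeval_trn] at h4
          exact h4
        intro σ
        exact closure_minimal hsub hcl (dense_K (K := K) σ)
      rw [smul_add, smul_smul]
      exact h3 _
  refine (h.image fun I => ⨅ σ : K, Ideal.comap (trn P σ) I).subset ?_
  rintro _ ⟨x, rfl⟩
  exact ⟨_, ⟨π x, rfl⟩, (key x).symm⟩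

end Pool.Agent.TH729.CV
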