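import Pool.Agent.TH729.CV.J2

/-!
# Local ideals of cubic hypersurfaces (helper729)
-/

set_option autoImplicit false
set_option linter.unusedSimpArgs false
set_option linter.unusedTactic false
set_option linter.unusedSectionVars false

namespace Pool.Agent.TH729.CV

open Set Filter Topology MvPolynomial

variable {L : Type*} [NontriviallyNormedField L] [CompleteSpace L] [CharZero L]

variable {m : ℕ} {F : Tri L m} {K : Subfield L} [DK K]

/-- the polynomial of a form -/
noncomputable def FP (hF : Rat3 F K) : MvPolynomial (Fin m) K :=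
  ∑ i, ∑ j, ∑ k, X i * (X j * (X k *
    C ⟨F.f (fun l => if i = l then 1 else 0) (fun l => if j = l then 1 else 0)
      (fun l => if k = l then 1 else 0), hF _ _ _ (rt_basis i) (rt_basis j) (rt_basis k)⟩))

lemma aeval_FP (hF : Rat3 F K) (v : E L m) : aeval v (FP hF) = F.f v v v := by
  rw [expand F v v v, FP, map_sum]
  refine Finset.sum_congr rfl fun i _ => ?_
  rw [map_sum]
  refine Finset.sum_congr rfl fun j _ => ?_
  rw [map_sum]
  refine Finset.sum_congr rfl fun k _ => ?_
  rw [map_mul, map_mul, map_mul, aeval_X, aeval_X, aeval_X, aeval_C]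
  rfl

lemma FP_hom (hF : Rat3 F K) : (FP hF).IsHomogeneous 3 := by
  refine IsHomogeneous.sum _ _ _ fun i _ => IsHomogeneous.sum _ _ _ fun j _ =>
    IsHomogeneous.sum _ _ _ fun k _ => ?_
  exact (isHomogeneous_X _ i).mul ((isHomogeneous_X _ j).mul ((isHomogeneous_X _ k).mul
    (isHomogeneous_C _ _)))

lemma VL_FP (hF : Rat3 F K) {v : E L m} (hv : F.f v v v = 0) : VL (FP hF) v := by
  intro t
  rw [aeval_FP]
  simp only [map_smul, LinearMap.smul_apply, hv, smul_zero]

/-- factors of degree one -/
lemma no_lin (hF : Rat3 F K) (hN : NH F K) {a b : MvPolynomial (Fin m) K} (hab : FP hF = a * b)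
    (ha : a.totalDegree = 1) : False := by
  have hval : ∀ v : E L m, F.f v v v = aeval v a * aeval v b := by
    intro v
    rw [← aeval_FP hF, hab, map_mul]
  have hlin := fun v : E L m => eval_lin (R := L) (ha.le) v
  set l : Fin m → K := fun i => a.coeff (Finsupp.single i 1) with hl
  set a₀ : K := a.coeff 0 with ha₀
  have hlin' : ∀ v : E L m, aeval v a = (a₀ : L) + dt l v := fun v => hlin v
  have hl0 : l ≠ 0 := by
    intro h0
    have h1 : a = C a₀ := by
      apply MvPolynomial.funext
      intro x
      apply Subtype.val_injective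
      have h2 := hlin' (co K x)
      rw [h0] at h2
      have h3 : aeval (co K x) a = ((eval x a : K) : L) := by
        have := (MvPolynomial.aeval_algebraMap_apply (A := K) L x a)
        exact this
      rw [← h3, h2, eval_C]
      simp [dt_apply]
    rw [h1, totalDegree_C] at ha
    exact zero_ne_one ha
  obtain ⟨v, hv, hv1, hv2⟩ := hN l hl0
  have hv1' : dt l v = 0 := hv1
  by_cases h0 : a₀ = 0
  · apply hv2
    rw [hval, hlin', h0, hv1']
    simp
  · have h0' : (a₀ : L) ≠ 0 := fun h => h0 (Subtype.ext h)
    obtain ⟨i, hi⟩ := Function.ne_iff.1 hl0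
    have hi' : (l i : L) ≠ 0 := fun h => hi (Subtype.ext h)
    set w : E L m := Pi.single i 1 with hw
    have hlw : dt l w = l i := by
      rw [dt_apply, Finset.sum_eq_single i]
      · rw [hw, Pi.single_eq_same, mul_one]
      · intro j _ hj
        rw [hw, Pi.single_eq_of_ne hj, mul_zero]
      · simp
    have hc : Continuous fun s : L => F.f (v + s • w) (v + s • w) (v + s • w) :=
      cont F (by fun_prop) (by fun_prop) (by fun_prop)
    have h1 : ∀ᶠ s in 𝓝 (0 : L), F.f (v + s • w) (v + s • w) (v + s • w) ≠ 0 :=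
      hc.continuousAt.eventually_ne (by simpa using hv2)
    obtain ⟨t, ht0, ht⟩ := exists_seq0 L
    obtain ⟨n, hn⟩ := (ht.eventually h1).exists
    have hn0 := ht0 n
    generalize t n = s at *
    have h2 : dt l (v + s • w) = s * l i := by
      rw [map_add, map_smul, hv1', hlw, zero_add, smul_eq_mul]
    have hsl : s * (l i : L) ≠ 0 := mul_ne_zero hn0 hi'
    set z := v + s • w with hz
    have h3 : F.f ((-(a₀ : L) / (s * l i)) • z) ((-(a₀ : L) / (s * l i)) • z)
        ((-(a₀ : L) / (s * l i)) • z) = 0 := by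
      rw [hval, hlin', map_smul, h2, smul_eq_mul, div_mul_cancel₀ _ hsl, add_neg_cancel, zero_mul]
    simp only [map_smul, LinearMap.smul_apply, smul_eq_mul] at h3
    have h4 : -(a₀ : L) / (s * l i) ≠ 0 := div_ne_zero (neg_ne_zero.2 h0') hsl
    rcases mul_eq_zero.1 h3 with h | h
    · exact h4 h
    rcases mul_eq_zero.1 h with h | h
    · exact h4 h
    rcases mul_eq_zero.1 h with h | h
    · exact h4 h
    exact hn h

theorem irr (hF : Rat3 F K) (hN : NH F K) (hnz : ∃ v, F.f v v v ≠ 0) : Irreducible (FP hF) := by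
  have h0 : FP hF ≠ 0 := by
    intro h0
    obtain ⟨v, hv⟩ := hnz
    apply hv
    rw [← aeval_FP hF, h0, map_zero]
  have hdeg : (FP hF).totalDegree = 3 := (FP_hom hF).totalDegree h0
  refine ⟨fun hu => ?_, fun a b hab => ?_⟩
  · rw [MvPolynomial.isUnit_iff_totalDegree_of_isReduced] at hu
    omega
  · have ha0 : a ≠ 0 := by
      rintro rfl
      rw [zero_mul] at hab
      exact h0 hab
    have hb0 : b ≠ 0 := by
      rintro rfl
      rw [mul_zero] at hab
      exact h0 hab
    have hsum := totalDegree_mul_of_isDomain ha0 hb0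
    rw [← hab, hdeg] at hsum
    have hunit : ∀ c : MvPolynomial (Fin m) K, c ≠ 0 → c.totalDegree = 0 → IsUnit c := by
      intro c hc hc'
      obtain ⟨r, hr⟩ := (totalDegree_eq_zero_iff_eq_C).1 hc'
        |> fun h => (⟨_, h⟩ : ∃ r, c = C r)
      rw [hr] at hc ⊢
      have hr0 : r ≠ 0 := by
        rintro rfl
        exact hc (map_zero _)
      exact (isUnit_iff_ne_zero.2 hr0).map C
    by_cases h1 : a.totalDegree = 0
    · exact Or.inl (hunit a ha0 h1)
    by_cases h2 : b.totalDegree = 0
    · exact Or.inr (hunit b hb0 h2)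
    exfalso
    by_cases h3 : a.totalDegree = 1
    · exact no_lin hF hN hab h3
    · exact no_lin hF hN (hab.trans (mul_comm a b)) (by omega)

/-! ### Smooth interior points -/

lemma exists_single {R : E L m} {e : E L m} (he : F.f R R e ≠ 0) :
    ∃ j : Fin m, F.f R R (fun l => if j = l then 1 else 0) ≠ 0 := by
  by_contra h
  push Not at h
  apply he
  rw [LinearMap.pi_apply_eq_sum_univ (F.f R R) e]
  exact Finset.sum_eq_zero fun i _ => by rw [h i, smul_zero]

/-- the ideal at a smooth point all of whose neighbours on the hypersurface are limits -/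
theorem J_int {F : Tri L (m + 1)} (hF : Rat3 F K) (hirr : Irreducible (FP hF))
    {A : Set (E L (m + 1))} {R e : E L (m + 1)} (hA : ∀ᶠ z in 𝓝 R, z ∈ A → F.f z z z = 0)
    (hR0 : F.f R R R = 0) (he : F.f R R e ≠ 0)
    (hR : ∀ᶠ z in 𝓝 R, F.f z z z = 0 → z ∈ closure A) : J K A R = Ideal.span {FP hF} := by
  have hmem : FP hF ∈ J K A R := by
    rw [mem_J]
    filter_upwards [hA] with z hz hzA
    exact VL_FP hF (hz hzA)
  apply le_antisymm
  swap
  · rw [Ideal.span_le, singleton_subset_iff]
    exact hmem
  obtain ⟨j, hj⟩ := exists_single he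
  intro f hf
  rw [Ideal.mem_span_singleton]
  refine elim j hirr hmem (fun h hh => ?_) f hf
  obtain ⟨ψ, θ, h1, h2, h3⟩ := graph hR0 hj
  set ej : E L (m + 1) := fun l => if j = l then 1 else 0 with hej
  have h4 : Tendsto (fun w : E L (m + 1) => w + ψ w • ej) (𝓝 R) (𝓝 R) := by
    have := (tendsto_id (x := 𝓝 R)).add (h1.smul (tendsto_const_nhds (x := ej)))
    simpa using this
  have h5 : ∀ᶠ w in 𝓝 R, aeval w (rename j.succAbove h) = 0 := by
    filter_upwards [h3, h4.eventually hR, h4.eventually (J_closure hh)] with w a1 a2 a3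
    have a4 := a3 (a2 a1.2) 1
    rw [one_smul, aeval_rename] at a4
    rw [aeval_rename]
    have a5 : ((w + ψ w • ej) ∘ j.succAbove) = w ∘ j.succAbove := by
      funext i
      simp [hej, (Fin.succAbove_ne j i).symm]
    rwa [a5] at a4
  -- vanishing everywhere
  have h6 : ∀ y : E L (m + 1), aeval y (rename j.succAbove h) = 0 := by
    intro y
    have hc : Continuous fun s : L => R + s • (y - R) := by fun_prop
    have h7 := hc.tendsto 0
    simp only [zero_smul, add_zero] at h7
    have h8 : PL fun s : L => aeval (R + s • (y - R)) (rename j.succAbove h) :=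
      PL.aeval (PLv.line R (y - R)) _
    have h9 := h8.zero (h7.eventually h5) 1
    simpa using h9
  apply MvPolynomial.funext
  intro x
  rw [map_zero]
  apply Subtype.val_injective
  have h7 := h6 (Fin.insertNth j 0 (co K x))
  rw [aeval_rename] at h7
  have h8 : (Fin.insertNth j (0 : L) (co K x) : E L (m + 1)) ∘ j.succAbove = co K x := by
    funext i
    simp
  rw [h8] at h7
  have := (MvPolynomial.aeval_algebraMap_apply (A := K) L x h)
  exact this.symm.trans h7

end Pool.Agent.TH729.CV
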