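import Pool.Agent.TH729.CV.J3

/-!
# Local ideals of cubic hypersurfaces: the induction (helper729)
-/

set_option autoImplicit false
set_option linter.unusedSimpArgs false
set_option linter.unusedTactic false
set_option linter.unusedSectionVars false

namespace Pool.Agent.TH729.CV

open Set Filter Topology MvPolynomial

variable {L : Type*} [NontriviallyNormedField L] [CompleteSpace L] [CharZero L]

variable {m : ℕ} {K : Subfield L} [DK K]

lemma fin2_ne {a b c : Fin 2} (h1 : a ≠ b) (h2 : c ≠ b) : a = c := by omega

/-- the ideal at an accumulation point of a plane cubic -/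
theorem J_acc {F : Tri L 3} (hF : Rat3 F K) (hirr : Irreducible (FP hF)) (hN : NH F K)
    {P : E L 3} (hP0 : P ≠ 0) (hacc : Acc F K P) : J K (Cn F K) P = Ideal.span {FP hF} := by
  have hmem : FP hF ∈ J K (Cn F K) P := Eventually.of_forall fun z hz => VL_FP hF (Cn.zero hz)
  apply le_antisymm
  swap
  · rw [Ideal.span_le, singleton_subset_iff]
    exact hmem
  obtain ⟨i, hi⟩ := Function.ne_iff.1 hP0
  have hi : P i ≠ 0 := hi
  obtain ⟨j, hij⟩ : ∃ j : Fin 3, i ≠ j := by
    by_cases h : i = 0
    · exact ⟨1, by rw [h]; decide⟩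
    · exact ⟨0, h⟩
  obtain ⟨i', hi'⟩ := Fin.exists_succAbove_eq hij
  obtain ⟨k', hk'⟩ : ∃ k' : Fin 2, k' ≠ i' := exists_ne i'
  intro f hf
  rw [Ideal.mem_span_singleton]
  refine elim j hirr hmem (fun h hh => ?_) f hf
  set G : L → L → L := fun τ s => aeval (fun a : Fin 2 => if a = i' then τ else s) h with hG
  set Γ : Set L := {c | ∀ τ, G τ (τ * c) = 0} with hΓ
  have hinf : Γ.Infinite := by
    intro hfin
    set k := j.succAbove k' with hk
    have hki : k ≠ i := by
      rw [hk, ← hi']
      exact fun h => hk' (Fin.succAbove_right_injective h)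
    have hfd : ∀ c ∈ Γ, FD {u | u ∈ Z F K ∧ (LinearMap.proj k - c • LinearMap.proj i :
        E L 3 →ₗ[L] L) u = 0} := by
      intro c _
      refine fin_plane hN (T := Pi.single k 1) ?_
      simp [Pi.single_apply, hki.symm]
    choose! S hS hS' using hfd
    have hSf : (⋃ c ∈ Γ, S c).Finite := hfin.biUnion hS
    have e1 : ∀ᶠ y in 𝓝 P, y i ≠ 0 := (continuous_apply i).continuousAt.eventually_ne hi
    have e2 : ∀ᶠ y in 𝓝 P, ∀ s ∈ ⋃ c ∈ Γ, S c, (∀ t : L, y ≠ t • P) → ∀ t : L, y ≠ t • s := by
      rw [Filter.eventually_all_finite hSf]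
      exact fun s _ => ev_avoid hP0 s
    obtain ⟨y, ⟨hy, hyP⟩, hyi, hye, hyJ⟩ := (hacc.and_eventually (e1.and (e2.and hh))).exists
    have hVL := hyJ hy
    set c := y k / y i with hc
    have hcΓ : c ∈ Γ := by
      intro τ
      have h1 := hVL (τ / y i)
      rw [aeval_rename] at h1
      have h2 : ((τ / y i) • y) ∘ j.succAbove = fun a : Fin 2 => if a = i' then τ else τ * c := by
        funext a
        by_cases ha : a = i'
        · rw [if_pos ha, ha]
          simp only [Function.comp_apply, hi', Pi.smul_apply, smul_eq_mul]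
          field_simp
        · rw [if_neg ha, fin2_ne ha hk']
          simp only [Function.comp_apply, ← hk, Pi.smul_apply, smul_eq_mul, hc]
          ring
      rw [h2] at h1
      exact h1
    obtain ⟨r, u, hr, hu, hyu⟩ := hy
    have hlu : (LinearMap.proj k - c • LinearMap.proj i : E L 3 →ₗ[L] L) u = 0 := by
      have h1 : (LinearMap.proj k - c • LinearMap.proj i : E L 3 →ₗ[L] L) y = 0 := by
        simp only [LinearMap.sub_apply, LinearMap.proj_apply, LinearMap.smul_apply, smul_eq_mul,
          hc]
        field_simp
        ring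
      rw [hyu, map_smul, smul_eq_mul] at h1
      exact (mul_eq_zero.1 h1).resolve_left hr
    obtain ⟨s, hs, c', hs'⟩ := hS' c hcΓ u ⟨hu, hlu⟩
    refine hye s (mem_biUnion hcΓ hs) hyP (r * c') ?_
    rw [hyu, hs', smul_smul]
  have h1 : ∀ τ, τ ≠ 0 → ∀ s, G τ s = 0 := by
    intro τ hτ
    have h2 : PL fun s : L => G τ s := by
      refine PL.aeval (γ := fun s => fun a : Fin 2 => if a = i' then τ else s) (fun a => ?_) h
      by_cases ha : a = i'
      · simp only [if_pos ha]
        exact PL.const τ
      · simp only [if_neg ha]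
        exact PL.id
    refine h2.zero_inf (S := (fun c => τ * c) '' Γ) ?_ ?_
    · exact hinf.image (fun a _ b _ hab => mul_left_cancel₀ hτ hab)
    · rintro _ ⟨c, hc, rfl⟩
      exact hc τ
  have h2 : ∀ τ s, G τ s = 0 := by
    intro τ s
    have h3 : PL fun τ : L => G τ s := by
      refine PL.aeval (γ := fun τ => fun a : Fin 2 => if a = i' then τ else s) (fun a => ?_) h
      by_cases ha : a = i'
      · simp only [if_pos ha]
        exact PL.id
      · simp only [if_neg ha]
        exact PL.const s
    refine h3.zero (a := 1) ?_ τ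
    filter_upwards [isOpen_ne.mem_nhds (one_ne_zero (α := L))] with t ht
    exact h1 t ht s
  apply MvPolynomial.funext
  intro x
  rw [map_zero]
  apply Subtype.val_injective
  have h7 := h2 (x i') (x k')
  have h8 : (fun a : Fin 2 => if a = i' then (x i' : L) else (x k' : L)) = co K x := by
    funext a
    by_cases ha : a = i'
    · rw [if_pos ha, ha]
      rfl
    · rw [if_neg ha, fin2_ne ha hk']
      rfl
  have h9 : aeval (co K x) h = 0 := by
    rw [← h8]
    exact h7
  have := (MvPolynomial.aeval_algebraMap_apply (A := K) L x h)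
  exact this.symm.trans h9

lemma nz_of_NH {F : Tri L (m + 1)} (hN : NH F K) : ∃ v, F.f v v v ≠ 0 := by
  obtain ⟨v, -, -, hv⟩ := hN (fun _ => 1) (by
    intro h0
    have := congrFun h0 0
    simp at this)
  exact ⟨v, hv⟩

/-- plane cubics -/
theorem plane_FS [ProperSpace L] {F : Tri L 3} (hF : Rat3 F K) (hN : NH F K) (hS : NSg F K) :
    FS K (Cn F K) := by
  have hirr := irr hF hN (nz_of_NH hN)
  obtain ⟨S, hSf, hS'⟩ := curve_main hF hN hS
  refine FS.of_dense subset_closure subset_closure ?_
  have hfin : ({Ideal.span {FP hF}} ∪ ((fun x => J K (Cn F K) x) '' S ∪ {J K (Cn F K) 0})).Finite :=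
    (Set.finite_singleton _).union ((hSf.image _).union (Set.finite_singleton _))
  refine hfin.subset ?_
  rintro _ ⟨_, ⟨r, u, hr, hu, rfl⟩, rfl⟩
  have hcon : Con (Cn F K) := fun y hy c hc => Cn.smul hy hc
  simp only
  rw [J_smul hcon u hr]
  by_cases hu0 : u = 0
  · right
    right
    rw [hu0]
    rfl
  by_cases hacc : Acc F K u
  · left
    exact J_acc hF hirr hN hu0 hacc
  · right
    left
    obtain ⟨s, hs, c, hc⟩ := hS' u ⟨hu, hacc⟩
    have hc0 : c ≠ 0 := by
      rintro rfl
      rw [zero_smul] at hc
      exact hu0 hc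
    refine ⟨s, hs, ?_⟩
    simp only
    rw [hc, J_smul hcon s hc0]

/-! ### Small dimensions -/

lemma cov_one {F : Tri L 1} (hN : NH F K) : Cov F K := by
  exfalso
  obtain ⟨v, hv, hv1, hv2⟩ := hN (fun _ => 1) (by
    intro h0
    have := congrFun h0 0
    simp at this)
  have h0 : v = 0 := by
    funext i
    have hi : i = 0 := Subsingleton.elim _ _
    rw [Fin.sum_univ_one] at hv1
    rw [hi]
    simpa using hv1
  rw [h0] at hv2
  simp at hv2

lemma cov_two {F : Tri L 2} (hN : NH F K) : Cov F K := by
  have hz : ∀ P ∈ Z F K, P = 0 := by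
    intro P hP
    by_contra hP0
    obtain ⟨v, hv, hv1, hv2⟩ := hN ![⟨P 1, hP.1 1⟩, -⟨P 0, hP.1 0⟩] (by
      intro h0
      apply hP0
      have e0 := congrFun h0 0
      have e1 := congrFun h0 1
      simp only [Matrix.cons_val_zero, Matrix.cons_val_one, Pi.zero_apply, neg_eq_zero] at e0 e1
      funext i
      fin_cases i
      · exact congrArg Subtype.val e1
      · exact congrArg Subtype.val e0)
    rw [Fin.sum_univ_two] at hv1
    simp only [Matrix.cons_val_zero, Matrix.cons_val_one] at hv1
    have hv1' : P 1 * v 0 - P 0 * v 1 = 0 := by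
      have h3 : ((-(⟨P 0, hP.1 0⟩ : K) : K) : L) = -P 0 := rfl
      rw [h3] at hv1
      change P 1 * v 0 + -P 0 * v 1 = 0 at hv1
      linear_combination hv1
    -- `v` is proportional to `P`
    obtain ⟨t, ht⟩ : ∃ t : L, v = t • P := by
      by_cases h0 : P 0 = 0
      · have h1 : P 1 ≠ 0 := by
          intro h1
          apply hP0
          funext i
          fin_cases i
          · exact h0
          · exact h1
        refine ⟨v 1 / P 1, ?_⟩
        funext i
        fin_cases i
        · simp only [Fin.zero_eta, Pi.smul_apply, smul_eq_mul, h0, mul_zero]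
          rw [h0, zero_mul, sub_zero] at hv1'
          exact (mul_eq_zero.1 hv1').resolve_left h1
        · simp only [Fin.mk_one, Pi.smul_apply, smul_eq_mul]
          field_simp
      · refine ⟨v 0 / P 0, ?_⟩
        funext i
        fin_cases i
        · simp only [Fin.zero_eta, Pi.smul_apply, smul_eq_mul]
          field_simp
        · simp only [Fin.mk_one, Pi.smul_apply, smul_eq_mul]
          field_simp
          linear_combination -hv1'
    apply hv2
    rw [ht]
    simp only [map_smul, LinearMap.smul_apply, hP.2, smul_zero]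
  refine ⟨{fun _ => 1}, finite_singleton _, ?_, ?_⟩
  · rintro a rfl h0
    have := congrFun h0 0
    simp at this
  · intro v hv
    refine ⟨_, rfl, ?_⟩
    rw [hz v hv]
    simp

/-- covering in dimensions other than three -/
theorem cov_all {F : Tri L (m + 1)} (hH : Hyp F K) (hN : NH F K) (hS : NSg F K) (hm : m ≠ 2) :
    Cov F K := by
  rcases Nat.lt_or_ge m 3 with h | h
  · interval_cases m
    · exact cov_one hN
    · exact cov_two hN
    · exact (hm rfl).elim
  · exact thmA (by omega) hH hN hS

/-- **Finitely many local ideals for every cubic form.** -/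
theorem main_FS [ProperSpace L] : ∀ (m : ℕ) (F : Tri L m), Rat3 F K → FS K (Cn F K) := by
  intro m
  induction m with
  | zero => intro F _; exact FS.zero_dim _
  | succ m ih =>
    intro F hF
    -- hyperplane sections
    have hyp : ∀ a : Fin (m + 1) → K, a ≠ 0 → FS K (Cn F K ∩ {v | dt a v = 0}) := by
      intro a ha
      obtain ⟨j, hj⟩ := Function.ne_iff.1 ha
      refine FS.hyp (p := fun v => F.f v v v = 0) hj ?_
      exact ih (F.comap (par a j)) fun u v w hu hv hw => hF _ _ _ (par_rt hu) (par_rt hv)
        (par_rt hw)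
    by_cases hN : NH F K
    swap
    · -- a rational hyperplane in the cubic
      unfold NH at hN
      push Not at hN
      obtain ⟨a, ha, hz⟩ := hN
      obtain ⟨j, hj⟩ := Function.ne_iff.1 ha
      have hj' : (a j : L) ≠ 0 := fun h => hj (Subtype.ext h)
      -- a rational vector with value one
      set e : E L (m + 1) := Pi.single j ((a j : L)⁻¹) with he
      have heK : Rt K e := by
        intro i
        by_cases hi : i = j
        · rw [hi, he, Pi.single_eq_same]
          exact K.inv_mem (a j).2
        · rw [he, Pi.single_eq_of_ne hi]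
          exact K.zero_mem
      have hae : dt a e = 1 := by
        rw [dt_apply, Finset.sum_eq_single j]
        · rw [he, Pi.single_eq_same, mul_inv_cancel₀ hj']
        · intro i _ hi
          rw [he, Pi.single_eq_of_ne hi, mul_zero]
        · simp
      let b : E L (m + 1) →ₗ[L] E L (m + 1) →ₗ[L] L :=
        (3 : L) • F.f e - (3 / 2 : L) • ((dt a).smulRight (F.f e e) +
          (F.f e e).smulRight (dt a)) + (F.f e e e) • (dt a).smulRight (dt a)
      have hb : ∀ v w, b v w = 3 * F.f e v w - (3 / 2) * (dt a v * F.f e e w +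
          F.f e e v * dt a w) + F.f e e e * (dt a v * dt a w) := by
        intro v w
        simp [b]
        ring
      let B : Bil L (m + 1) := ⟨b, fun v w => by
        rw [hb, hb, F.p2 e w v]
        ring⟩
      have hBr : Rat2 B K := by
        intro v w hv hw
        change b v w ∈ K
        rw [hb]
        have h3 : (3 : L) ∈ K := by exact_mod_cast SubfieldClass.ratCast_mem K 3
        have h2 : (2 : L) ∈ K := by exact_mod_cast SubfieldClass.ratCast_mem K 2
        refine K.add_mem (K.sub_mem (K.mul_mem h3 (hF _ _ _ heK hv hw)) (K.mul_mem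
          (K.div_mem h3 h2) (K.add_mem (K.mul_mem (dt_mem a hv) (hF _ _ _ heK heK hw))
          (K.mul_mem (hF _ _ _ heK heK hv) (dt_mem a hw))))) (K.mul_mem (hF _ _ _ heK heK heK)
          (K.mul_mem (dt_mem a hv) (dt_mem a hw)))
      have hfac : ∀ v, Rt K v → F.f v v v = dt a v * b v v := by
        intro v hv
        have h1 := hz (v - dt a v • e) (hv.sub (heK.smul (dt_mem a hv))) (by
          rw [← dt_apply, map_sub, map_smul, hae]
          simp)
        rw [hb]
        generalize dt a v = x at *
        simp only [map_add, map_sub, map_smul, LinearMap.add_apply, LinearMap.sub_apply,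
          LinearMap.smul_apply, smul_eq_mul, Tri.s12, Tri.s23] at h1
        try simp only [Tri.s12, Tri.s23]
        linear_combination h1
      have heq : Cn F K = (cn {v | Rt K v ∧ True} ∩ {v | dt a v = 0}) ∪
          cn {v | Rt K v ∧ B.b v v = 0} := by
        ext y
        constructor
        · rintro ⟨r, v, hr, ⟨hv1, hv2⟩, rfl⟩
          rw [hfac v hv1] at hv2
          rcases mul_eq_zero.1 hv2 with h | h
          · refine Or.inl ⟨⟨r, v, hr, ⟨hv1, trivial⟩, rfl⟩, ?_⟩
            change dt a (r • v) = 0
            rw [map_smul, h, smul_zero]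
          · exact Or.inr ⟨r, v, hr, ⟨hv1, h⟩, rfl⟩
        · rintro (⟨⟨r, v, hr, ⟨hv1, -⟩, rfl⟩, hv2⟩ | ⟨r, v, hr, ⟨hv1, hv2⟩, rfl⟩)
          · refine ⟨r, v, hr, ⟨hv1, ?_⟩, rfl⟩
            have h1 : dt a v = 0 := by
              have h2 : dt a (r • v) = 0 := hv2
              rw [map_smul, smul_eq_mul] at h2
              exact (mul_eq_zero.1 h2).resolve_left hr
            rw [hfac v hv1, h1, zero_mul]
          · refine ⟨r, v, hr, ⟨hv1, ?_⟩, rfl⟩
            rw [hfac v hv1]
            change _ * B.b v v = 0
            rw [hv2, mul_zero]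
      rw [heq]
      refine FS.union (FS.hyp (p := fun _ => True) hj ?_) (quad_FS _ B hBr)
      have : {u : E L m | Rt K u ∧ True} = {u | Rt K u} := by
        ext w
        exact ⟨fun hw => hw.1, fun hw => ⟨hw, trivial⟩⟩
      rw [this]
      exact FS.all
    by_cases hI : ∃ R, Int' F K R
    · -- interior points
      obtain ⟨R₀, hR₀⟩ := hI
      obtain ⟨a, ha, hcov⟩ := sing_cover hF hN hR₀
      have hirr := irr hF hN (nz_of_NH hN)
      have heq : Cn F K = (Cn F K ∩ closure (WS F K)) ∪ (Cn F K ∩ {v | dt a v = 0}) := by
        apply Subset.antisymm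
        · rintro _ ⟨r, u, hr, hu, rfl⟩
          have hm : r • u ∈ Cn F K := ⟨r, u, hr, hu, rfl⟩
          by_cases h : u ∈ closure (WS F K)
          · exact Or.inl ⟨hm, WSc.smul h hr⟩
          · refine Or.inr ⟨hm, ?_⟩
            change dt a (r • u) = 0
            rw [map_smul, hcov u hu h, smul_zero]
        · exact union_subset inter_subset_left inter_subset_left
      rw [heq]
      refine FS.union ?_ (hyp a ha)
      -- smooth rational points are dense
      have hdense : WS F K ⊆ closure (Cn F K ∩ WS F K) := by
        rintro R ⟨hR, e, he⟩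
        obtain ⟨u, hu, hu'⟩ := W.seq hR
        have h1 : ∀ᶠ n in atTop, F.f (u n) (u n) e ≠ 0 :=
          (tend F hu' hu' (tendsto_const_nhds (x := e))).eventually_ne he
        refine mem_closure_of_tendsto hu' ?_
        filter_upwards [h1] with n hn
        exact ⟨⟨1, u n, one_ne_zero, hu n, by rw [one_smul]⟩, subset_closure (hu n), e, hn⟩
      have hD1 : Cn F K ∩ WS F K ⊆ Cn F K ∩ closure (WS F K) := fun y hy =>
        ⟨hy.1, subset_closure hy.2⟩
      refine FS.of_dense (D := Cn F K ∩ WS F K) (hD1.trans subset_closure) ?_ ?_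
      · intro y hy
        exact closure_minimal hdense isClosed_closure hy.2
      · refine (Set.finite_singleton (Ideal.span {FP hF})).subset ?_
        rintro _ ⟨R, ⟨hR1, hR2, e, he⟩, rfl⟩
        rw [mem_singleton_iff]
        have hint := int_all hF hN hR₀ hR2 he
        refine J_int hF hirr (e := e) (Eventually.of_forall fun z hz => Cn.zero hz.1)
          (Cn.zero hR1) he ?_
        have h1 : ∀ᶠ z in 𝓝 R, F.f z z e ≠ 0 :=
          (cont F continuous_id continuous_id continuous_const).continuousAt.eventually_ne he
        filter_upwards [hint.2.2, h1] with z hz1 hz2 hz3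
        exact closure_mono hD1 (hdense ⟨hz1 hz3, e, hz2⟩)
    · -- no interior points
      have hH : Hyp F K := ⟨hF, fun R hR => hI ⟨R, hR⟩⟩
      by_cases hS : NSg F K
      · by_cases hm : m = 2
        · subst hm
          exact plane_FS hF hN hS
        · obtain ⟨Λ, hΛ, hΛ0, hΛc⟩ := cov_all hH hN hS hm
          have heq : Cn F K = ⋃ a ∈ Λ, Cn F K ∩ {v | dt a v = 0} := by
            apply Subset.antisymm
            · rintro _ ⟨r, u, hr, hu, rfl⟩
              obtain ⟨a, ha, hav⟩ := hΛc u hu
              refine mem_biUnion ha ⟨⟨r, u, hr, hu, rfl⟩, ?_⟩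
              change dt a (r • u) = 0
              rw [map_smul, dt_apply, hav, smul_zero]
            · exact iUnion₂_subset fun a _ => inter_subset_left
          rw [heq]
          exact FS.biUnion hΛ fun a ha => hyp a (hΛ0 a ha)
      · -- a rational vertex
        unfold NSg at hS
        push Not at hS
        obtain ⟨P, hP, hP0, hs⟩ := hS
        have hv := vertex_of hH hP hs
        obtain ⟨P, rfl⟩ := exists_co hP
        obtain ⟨j, hj⟩ := Function.ne_iff.1 hP0
        have hj' : co K P j ≠ 0 := hj
        set a : Fin (m + 1) → K := Pi.single j (P j)⁻¹ with ha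
        have hdt : ∀ v, dt a v = (co K P j)⁻¹ * v j := by
          intro v
          rw [dt_apply, Finset.sum_eq_single j]
          · rw [ha, Pi.single_eq_same]
            rfl
          · intro i _ hi
            rw [ha, Pi.single_eq_of_ne hi]
            simp
          · simp
        have hdP : dt a (co K P) = 1 := by
          rw [hdt, inv_mul_cancel₀ hj']
        have ha0 : a ≠ 0 := by
          intro h0
          rw [h0] at hdP
          simp [dt_apply] at hdP
        have hFv : ∀ (v : E L (m + 1)) (t : L), F.f (v + t • co K P) (v + t • co K P)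
            (v + t • co K P) = F.f v v v := by
          intro v t
          have h1 := hv v v
          have h2 := hv (co K P) v
          have h3 := hv (co K P) (co K P)
          generalize co K P = P' at *
          try simp only [Tri.s12, Tri.s23] at h1 h2 h3
          simp only [map_add, map_sub, map_neg, map_smul, map_zero, LinearMap.add_apply,
            LinearMap.sub_apply, LinearMap.neg_apply, LinearMap.smul_apply, LinearMap.zero_apply,
            smul_eq_mul, Tri.s12, Tri.s23]
          rw [h1, h2, h3]
          ring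
        refine FS.vertex (a := a) (P := P) (B := Cn F K ∩ {v | dt a v = 0}) ?_ ?_ (hyp a ha0)
        · rintro _ ⟨r, u, hr, hu, rfl⟩
          refine ⟨⟨r, u - dt a u • co K P, hr, ⟨hu.1.sub (hP.smul (dt_mem a hu.1)), ?_⟩, ?_⟩, ?_⟩
          · have := hFv u (-(dt a u))
            rw [neg_smul, ← sub_eq_add_neg] at this
            rw [this]
            exact hu.2
          · rw [map_smul, smul_sub, smul_smul, smul_eq_mul]
          · change dt a _ = 0
            rw [map_sub, map_smul, map_smul, hdP, smul_eq_mul, smul_eq_mul, mul_one, sub_self]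
        · rintro _ ⟨⟨r, u, hr, hu, rfl⟩, -⟩ s
          obtain ⟨t, ht, ht'⟩ := seq_K (K := K) (r⁻¹ * s)
          have h1 : Tendsto (fun n => r • (u + t n • co K P)) atTop
              (𝓝 (r • (u + (r⁻¹ * s) • co K P))) :=
            (tendsto_const_nhds.add (ht'.smul tendsto_const_nhds)).const_smul r
          rw [smul_add, smul_smul, ← mul_assoc, mul_inv_cancel₀ hr, one_mul] at h1
          refine mem_closure_of_tendsto h1 (Eventually.of_forall fun n => ?_)
          refine ⟨r, _, hr, ⟨hu.1.add (hP.smul (ht n)), ?_⟩, rfl⟩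
          rw [hFv]
          exact hu.2

end Pool.Agent.TH729.CV
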