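import Pool.Agent.TH729.CV.ThmA

/-!
# Plane cubics: linear algebra and nonrational singular points (helper729)
-/

set_option autoImplicit false
set_option linter.unusedSimpArgs false
set_option linter.unusedTactic false
set_option linter.unusedSectionVars false

namespace Pool.Agent.TH729.CV

open Set Filter Topology

variable {L : Type*} [NontriviallyNormedField L] [CompleteSpace L] [CharZero L]

/-- coordinates with respect to three independent vectors -/
lemma coords {U V T : E L 3} (h : ∀ a b c : L, a • U + b • V + c • T = 0 → a = 0 ∧ b = 0 ∧ c = 0) :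
    ∃ p q r : E L 3 →ₗ[L] L, (∀ v, v = p v • U + q v • V + r v • T) ∧
      (p U = 1 ∧ q U = 0 ∧ r U = 0) ∧ (p V = 0 ∧ q V = 1 ∧ r V = 0) ∧
      (p T = 0 ∧ q T = 0 ∧ r T = 1) := by
  have hli : LinearIndependent L ![U, V, T] := by
    rw [Fintype.linearIndependent_iff]
    intro g hg i
    rw [Fin.sum_univ_three] at hg
    obtain ⟨h0, h1, h2⟩ := h _ _ _ hg
    fin_cases i
    · exact h0
    · exact h1
    · exact h2
  let b := basisOfLinearIndependentOfCardEqFinrank hli (by simp)
  have hb : ∀ i, b i = ![U, V, T] i := by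
    intro i
    simp [b]
  have h0 : b 0 = U := hb 0
  have h1 : b 1 = V := hb 1
  have h2 : b 2 = T := hb 2
  refine ⟨b.coord 0, b.coord 1, b.coord 2, ?_, ?_, ?_, ?_⟩
  · intro v
    have := b.sum_repr v
    rw [Fin.sum_univ_three, h0, h1, h2] at this
    exact this.symm
  · rw [← h0]
    simp [Module.Basis.coord_apply]
  · rw [← h1]
    simp [Module.Basis.coord_apply]
  · rw [← h2]
    simp [Module.Basis.coord_apply]

lemma span2 {l : E L 3 →ₗ[L] L} {T : E L 3} (hl : l T ≠ 0) {U V v : E L 3} (hU : l U = 0) (hV : l V = 0)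
    (hv : l v = 0) (hind : ∀ a b : L, a • U + b • V = 0 → a = 0 ∧ b = 0) :
    ∃ a b : L, v = a • U + b • V := by
  obtain ⟨p, q, r, h, -, -, -⟩ := coords (U := U) (V := V) (T := T) (by
    intro a b c h0
    have h1 := congrArg l h0
    simp only [map_add, map_smul, hU, hV, smul_eq_mul, mul_zero, zero_add, map_zero] at h1
    have hc : c = 0 := (mul_eq_zero.1 h1).resolve_right hl
    rw [hc, zero_smul, add_zero] at h0
    exact ⟨(hind a b h0).1, (hind a b h0).2, hc⟩)
  have h1 := h v
  have h2 := congrArg l h1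
  simp only [map_add, map_smul, hU, hV, hv, smul_eq_mul, mul_zero, zero_add] at h2
  have hc : r v = 0 := (mul_eq_zero.1 h2.symm).resolve_right hl
  rw [hc, zero_smul, add_zero] at h1
  exact ⟨_, _, h1⟩

variable {F : Tri L 3} {K : Subfield L} [DK K]

lemma cn2 : ((2 : K) : L) = 2 := rfl
lemma cn3 : ((3 : K) : L) = 3 := rfl
lemma cn4 : ((4 : K) : L) = 4 := rfl
lemma cn6 : ((6 : K) : L) = 6 := rfl
lemma cn12 : ((12 : K) : L) = 12 := rfl

/-- the functional of a `K`-vector -/
noncomputable def dot (a : Fin 3 → K) : E L 3 →ₗ[L] L where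
  toFun v := ∑ i, (a i : L) * v i
  map_add' v w := by
    simp only [Pi.add_apply, mul_add, Finset.sum_add_distrib]
  map_smul' c v := by
    simp only [Pi.smul_apply, smul_eq_mul, RingHom.id_apply, Finset.mul_sum]
    exact Finset.sum_congr rfl fun i _ => by ring

lemma dot_ne {a : Fin 3 → K} (ha : a ≠ 0) : ∃ T : E L 3, dot a T ≠ 0 := by
  obtain ⟨i, hi⟩ := Function.ne_iff.1 ha
  refine ⟨Pi.single i 1, ?_⟩
  change ∑ j, (a j : L) * (Pi.single i (1 : L) : E L 3) j ≠ 0
  rw [Finset.sum_eq_single i]
  · simp only [Pi.single_eq_same, mul_one]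
    intro h0
    exact hi (Subtype.ext h0)
  · intro j _ hj
    rw [Pi.single_eq_of_ne hj, mul_zero]
  · simp

lemma no_plane (hN : NH F K) {U V : E L 3} (hU : Rt K U) (hV : Rt K V)
    (hind : ∀ a b : L, a • U + b • V = 0 → a = 0 ∧ b = 0)
    (hz : ∀ a b : L, F.f (a • U + b • V) (a • U + b • V) (a • U + b • V) = 0) : False := by
  obtain ⟨U, rfl⟩ := exists_co hU
  obtain ⟨V, rfl⟩ := exists_co hV
  have hlt : Submodule.span K (Set.range ![U, V]) < ⊤ := by
    rw [lt_top_iff_ne_top]
    intro h
    have h1 := finrank_range_le_card (R := K) (![U, V] : Fin 2 → (Fin 3 → K))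
    rw [Set.finrank, h, finrank_top] at h1
    simp at h1
  obtain ⟨l, hl, hle⟩ := Submodule.exists_le_ker_of_lt_top _ hlt
  have hlU : l U = 0 := hle (Submodule.subset_span ⟨0, rfl⟩)
  have hlV : l V = 0 := hle (Submodule.subset_span ⟨1, rfl⟩)
  set a : Fin 3 → K := fun i => l (fun j => if i = j then 1 else 0) with ha
  have hval : ∀ w : Fin 3 → K, dot a (co K w) = ((l w : K) : L) := by
    intro w
    rw [LinearMap.pi_apply_eq_sum_univ l w]
    change ∑ i, (a i : L) * co K w i = _
    rw [AddSubmonoidClass.coe_finsetSum]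
    refine Finset.sum_congr rfl fun i _ => ?_
    simp only [smul_eq_mul, ha]
    push_cast
    rw [mul_comm]
    rfl
  have ha0 : a ≠ 0 := by
    intro h0
    apply hl
    apply LinearMap.ext
    intro w
    apply Subtype.ext
    rw [← hval w, h0]
    simp [dot]
  obtain ⟨v, hv, hv1, hv2⟩ := hN a ha0
  obtain ⟨T, hT⟩ := dot_ne ha0
  obtain ⟨s, t, hst⟩ := span2 (l := dot a) hT (U := co K U) (V := co K V) (v := v)
    (by rw [hval, hlU]; rfl) (by rw [hval, hlV]; rfl) hv1 hind
  apply hv2
  rw [hst]
  exact hz s t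

lemma ind_of_K {A B : Fin 3 → K} (hA : A ≠ 0) (hB : B ∉ Submodule.span K {A}) :
    ∀ a b : L, a • co K A + b • co K B = 0 → a = 0 ∧ b = 0 := by
  intro a b h
  have hb : b = 0 := by
    by_contra hb
    apply hB
    rw [Submodule.mem_span_singleton]
    obtain ⟨i, hi⟩ := Function.ne_iff.1 hA
    have hi' : A i ≠ 0 := hi
    have key : ∀ j, (B j : L) = (-(a / b)) * (A j : L) := by
      intro j
      have := congrFun h j
      simp only [Pi.add_apply, Pi.smul_apply, smul_eq_mul, Pi.zero_apply, co] at this
      field_simp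
      linear_combination this
    have hi'' : (A i : L) ≠ 0 := by
      intro h0
      exact hi' (Subtype.ext h0)
    refine ⟨B i / A i, ?_⟩
    ext j
    have h1 := key i
    have h2 := key j
    simp only [Pi.smul_apply, smul_eq_mul]
    push_cast
    rw [h1, h2]
    field_simp
  rw [hb, zero_smul, add_zero] at h
  refine ⟨?_, hb⟩
  by_contra ha
  apply hA
  apply co_inj (K := K)
  rw [co_zero]
  exact (smul_eq_zero.1 h).resolve_left ha

/-- a second rational vector in a rational plane -/
lemma exists_B {A : E L 3} (hF : Rat3 F K) (hA : Rt K A) (hA0 : A ≠ 0) (hAA : F.f A A A = 0) :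
    ∃ B, Rt K B ∧ F.f A A B = 0 ∧ ∀ a b : L, a • A + b • B = 0 → a = 0 ∧ b = 0 := by
  obtain ⟨A, rfl⟩ := exists_co hA
  set T := FK F K hF with hT
  have hA1 : A ≠ 0 := by
    rintro rfl
    exact hA0 co_zero
  have hnle : ¬ LinearMap.ker (T.f A A) ≤ Submodule.span K {A} := by
    intro h
    have h1 := Submodule.finrank_mono h
    have h2 : Module.finrank K (Submodule.span K {A}) ≤ 1 := by
      rw [finrank_span_singleton hA1]
    have h3 := LinearMap.finrank_range_add_finrank_ker (T.f A A)
    have h4 : Module.finrank K (LinearMap.range (T.f A A)) ≤ 1 := by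
      refine (Submodule.finrank_le _).trans ?_
      simp
    have h5 : Module.finrank K (Fin 3 → K) = 3 := by simp
    omega
  obtain ⟨B, hB, hB'⟩ := SetLike.not_le_iff_exists.1 hnle
  refine ⟨co K B, rt_co B, ?_, ind_of_K hA1 hB'⟩
  rw [← FK_apply hF, ← hT, LinearMap.mem_ker.1 hB]
  rfl

open Polynomial in
lemma dbl {c : L} (hc : c ∉ K) {h : Polynomial K} (h0 : h ≠ 0) (h1 : aeval c h = 0)
    (h2 : aeval c (derivative h) = 0) :
    4 ≤ h.natDegree ∧ (h.natDegree ≤ 4 → ∃ a b : K, c ^ 2 = a + b * c) := by
  have halg : IsAlgebraic K c := ⟨h, h0, h1⟩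
  have hint : IsIntegral K c := halg.isIntegral
  obtain ⟨r, hr⟩ := minpoly.dvd K c h1
  have hsep : aeval c (derivative (minpoly K c)) ≠ 0 :=
    ((minpoly.irreducible hint).separable).aeval_derivative_ne_zero (minpoly.aeval K c)
  have hrc : aeval c r = 0 := by
    rw [hr, derivative_mul, map_add, map_mul, map_mul, minpoly.aeval, zero_mul, add_zero] at h2
    exact (mul_eq_zero.1 h2).resolve_left hsep
  obtain ⟨s, hs⟩ := minpoly.dvd K c hrc
  have hdeg : 2 ≤ (minpoly K c).natDegree := by
    rw [minpoly.two_le_natDegree_iff hint]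
    rintro ⟨a, ha⟩
    exact hc (ha ▸ a.2)
  have hp0 : minpoly K c ≠ 0 := minpoly.ne_zero hint
  have hs0 : s ≠ 0 := by
    rintro rfl
    rw [mul_zero] at hs
    rw [hs, mul_zero] at hr
    exact h0 hr
  have hnd : h.natDegree = (minpoly K c).natDegree + ((minpoly K c).natDegree + s.natDegree) := by
    rw [hr, hs, natDegree_mul hp0 (mul_ne_zero hp0 hs0), natDegree_mul hp0 hs0]
  refine ⟨by omega, fun h4 => ?_⟩
  have hp2 : (minpoly K c).natDegree = 2 := by omega
  have h5 := minpoly.aeval K c
  have h6 := minpoly.monic hint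
  rw [Polynomial.aeval_eq_sum_range, hp2] at h5
  have h7 : (minpoly K c).coeff 2 = 1 := by
    rw [← hp2]
    exact h6.coeff_natDegree
  simp only [Finset.sum_range_succ, Finset.range_zero, Finset.sum_empty, pow_zero, zero_add,
    pow_one, h7, one_smul] at h5
  refine ⟨-(minpoly K c).coeff 0, -(minpoly K c).coeff 1, ?_⟩
  push_cast
  have h8 : ∀ (k : K) (y : L), k • y = (k : L) * y := fun k y => rfl
  rw [h8, h8] at h5
  linear_combination h5

open Polynomial in
lemma dbl' {c : L} (hc : c ∉ K) (d0 d1 d2 d3 d4 : K)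
    (h1 : (d0 : L) + d1 * c + d2 * c ^ 2 + d3 * c ^ 3 + d4 * c ^ 4 = 0)
    (h2 : (d1 : L) + 2 * d2 * c + 3 * d3 * c ^ 2 + 4 * d4 * c ^ 3 = 0) :
    (d0 = 0 ∧ d1 = 0 ∧ d2 = 0 ∧ d3 = 0 ∧ d4 = 0) ∨
      (d4 ≠ 0 ∧ ∃ a b : K, c ^ 2 = a + b * c) := by
  set h : Polynomial K := C d0 + C d1 * X + C d2 * X ^ 2 + C d3 * X ^ 3 + C d4 * X ^ 4 with hh
  have hmap : ∀ k : K, (algebraMap K L) k = (k : L) := fun k => rfl
  by_cases h0 : h = 0
  · left
    have hco : ∀ n, h.coeff n = 0 := by
      intro n
      rw [h0, coeff_zero]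
    have c0 := hco 0
    have c1 := hco 1
    have c2 := hco 2
    have c3 := hco 3
    have c4 := hco 4
    simp [hh, coeff_X, coeff_C, coeff_X_pow] at c0 c1 c2 c3 c4
    exact ⟨c0, c1, c2, c3, c4⟩
  right
  have e1 : aeval c h = 0 := by
    simp only [hh, map_add, map_mul, aeval_C, aeval_X, map_pow, hmap]
    exact h1
  have e2 : aeval c (derivative h) = 0 := by
    simp only [hh, derivative_add, derivative_C, derivative_mul, derivative_X, derivative_X_pow,
      zero_mul, mul_one, zero_add, map_add, map_mul, aeval_C, aeval_X, map_pow, hmap, map_natCast]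
    push_cast
    linear_combination h2
  obtain ⟨h4, h5⟩ := dbl hc h0 e1 e2
  have h6 : h.natDegree ≤ 4 := by
    rw [hh]
    compute_degree
  refine ⟨?_, h5 h6⟩
  rintro rfl
  have h7 : h.natDegree ≤ 3 := by
    rw [hh, C_0, zero_mul, add_zero]
    compute_degree
  omega

/-- **no nonrational singular points** -/
theorem smooth_of (hF : Rat3 F K) (hN : NH F K) (hS : NSg F K) {A C : E L 3} (hA : A ∈ Z F K)
    (hA0 : A ≠ 0) (hC : C ≠ 0) : ∃ v, F.f C C v ≠ 0 := by
  by_contra hsing
  push Not at hsing
  obtain ⟨D, hDr, hD⟩ := hS.rt hA.1 hA0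
  have hAA := hA.2
  obtain ⟨B, hBr, hB, hABind⟩ := exists_B hF hA.1 hA0 hAA
  have hind : ∀ a b : L, a • A + b • C = 0 → a = 0 ∧ b = 0 := by
    intro a b h
    have hb : b = 0 := by
      by_contra hb
      have hCA : C = (-(a / b)) • A := by
        have h1 : b • C = -(a • A) := by
          rw [eq_neg_iff_add_eq_zero, add_comm]
          exact h
        rw [neg_smul, div_eq_mul_inv, mul_comm, mul_smul, ← smul_neg, ← h1, smul_smul,
          inv_mul_cancel₀ hb, one_smul]
      have h2 := hsing D
      rw [hCA] at h2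
      simp only [map_smul, LinearMap.smul_apply, smul_eq_mul] at h2
      have h3 : -(a / b) ≠ 0 := by
        intro h0
        rw [h0, zero_smul] at hCA
        exact hC hCA
      rcases mul_eq_zero.1 h2 with h4 | h4
      · exact h3 h4
      · rcases mul_eq_zero.1 h4 with h5 | h5
        · exact h3 h5
        · exact hD h5
    rw [hb, zero_smul, add_zero] at h
    exact ⟨(smul_eq_zero.1 h).resolve_right hA0, hb⟩
  -- `C` is not on the tangent line
  have hAC : F.f A A C ≠ 0 := by
    intro h0
    refine no_plane hN hA.1 hBr hABind fun a b => ?_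
    obtain ⟨s, t, hst⟩ := span2 (l := F.f A A) hD (U := A) (V := C) (v := a • A + b • B) hAA h0
      (by rw [map_add, map_smul, map_smul, hAA, hB]; simp) hind
    rw [hst]
    have s1 := hsing A
    have s2 := hsing C
    try simp only [Tri.s12, Tri.s23] at s1 s2 h0 hAA
    simp only [map_add, map_sub, map_neg, map_smul, map_zero, LinearMap.add_apply,
      LinearMap.sub_apply, LinearMap.neg_apply, LinearMap.smul_apply, LinearMap.zero_apply,
      smul_eq_mul, Tri.s12, Tri.s23]
    rw [s1, s2, h0, hAA]
    ring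
  -- scale
  obtain ⟨C₁, hC₁, hC1', hsing₁⟩ : ∃ C₁ : E L 3, C₁ ≠ 0 ∧ F.f A A (C₁ - D) = 0 ∧
      ∀ v, F.f C₁ C₁ v = 0 := by
    refine ⟨(F.f A A D / F.f A A C) • C, ?_, ?_, ?_⟩
    · exact smul_ne_zero (div_ne_zero hD hAC) hC
    · rw [map_sub, map_smul, smul_eq_mul]
      field_simp
      ring
    · intro v
      simp only [map_smul, LinearMap.smul_apply, hsing v, smul_zero]
  obtain ⟨x, c, hxc⟩ := span2 (l := F.f A A) hD hAA hB hC1' hABind
  have hCeq : C₁ = x • A + (D + c • B) := by
    have : C₁ = (C₁ - D) + D := by abel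
    rw [this, hxc]
    abel
  -- constants in `K`
  obtain ⟨A, rfl⟩ := exists_co hA.1
  obtain ⟨B, rfl⟩ := exists_co hBr
  obtain ⟨D, rfl⟩ := exists_co hDr
  set T := FK F K hF with hT
  have hTv : ∀ a b c, ((T.f a b c : K) : L) = F.f (co K a) (co K b) (co K c) := fun a b c => rfl
  -- equations
  have s1 := hsing₁ (co K A)
  have s2 := hsing₁ (co K B)
  have s3 := hsing₁ C₁
  have E1 : 2 * x * F.f (co K A) (co K A) (co K D) + (F.f (co K A) (co K D) (co K D) +
      2 * c * F.f (co K A) (co K D) (co K B) + c ^ 2 * F.f (co K A) (co K B) (co K B)) = 0 := by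
    rw [hCeq] at s1
    clear hCeq hxc hsing₁ hC1' hC₁ hAC hind hsing hTv hT
    generalize co K A = A' at *
    generalize co K B = B' at *
    generalize co K D = D' at *
    simp only [map_add, map_smul, LinearMap.add_apply, LinearMap.smul_apply, smul_eq_mul,
      Tri.s12, Tri.s23] at s1 hAA hB
    try simp only [Tri.s12, Tri.s23]
    rw [hAA, hB] at s1
    linear_combination s1
  have E2 : 2 * x * (F.f (co K A) (co K D) (co K B) + c * F.f (co K A) (co K B) (co K B)) +
      (F.f (co K D) (co K D) (co K B) + 2 * c * F.f (co K D) (co K B) (co K B) +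
        c ^ 2 * F.f (co K B) (co K B) (co K B)) = 0 := by
    rw [hCeq] at s2
    clear hCeq hxc hsing₁ hC1' hC₁ hAC hind hsing hTv hT
    generalize co K A = A' at *
    generalize co K B = B' at *
    generalize co K D = D' at *
    simp only [map_add, map_smul, LinearMap.add_apply, LinearMap.smul_apply, smul_eq_mul,
      Tri.s12, Tri.s23] at s2 hAA hB
    try simp only [Tri.s12, Tri.s23]
    rw [hB] at s2
    linear_combination s2
  have E3 : 3 * x ^ 2 * F.f (co K A) (co K A) (co K D) + 3 * x * (F.f (co K A) (co K D) (co K D) +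
      2 * c * F.f (co K A) (co K D) (co K B) + c ^ 2 * F.f (co K A) (co K B) (co K B)) +
      (F.f (co K D) (co K D) (co K D) + 3 * c * F.f (co K D) (co K D) (co K B) +
        3 * c ^ 2 * F.f (co K D) (co K B) (co K B) +
        c ^ 3 * F.f (co K B) (co K B) (co K B)) = 0 := by
    rw [hCeq] at s3
    clear hCeq hxc hsing₁ hC1' hC₁ hAC hind hsing hTv hT
    generalize co K A = A' at *
    generalize co K B = B' at *
    generalize co K D = D' at *
    simp only [map_add, map_smul, LinearMap.add_apply, LinearMap.smul_apply, smul_eq_mul,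
      Tri.s12, Tri.s23] at s3 hAA hB
    try simp only [Tri.s12, Tri.s23]
    rw [hAA, hB] at s3
    linear_combination s3
  have hlam : T.f A A D ≠ 0 := by
    intro h0
    apply hD
    rw [← hTv, h0]
    rfl
  have hlam' : F.f (co K A) (co K A) (co K D) ≠ 0 := hD
  simp only [← hTv] at E1 E2 E3 hlam'
  -- `c` is not in `K`
  have hcK : c ∉ K := by
    intro hc
    obtain ⟨v, hv⟩ := hS C₁ (by
      rw [hCeq]
      refine (Rt.smul ?_ (rt_co A)).add ((rt_co D).add ((rt_co B).smul hc))
      have hx : x = ((-(T.f A D D + 2 * ⟨c, hc⟩ * T.f A D B + ⟨c, hc⟩ ^ 2 * T.f A B B) /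
          (2 * T.f A A D) : K) : L) := by
        push_cast
        simp only [cn2, cn3, cn4, cn6, cn12]
        field_simp
        linear_combination E1
      rw [hx]
      exact Subtype.property _) hC₁
    exact hv (hsing₁ v)
  set lam := T.f A A D with hlam_def
  set q0 := T.f A D D
  set q1 := T.f A D B
  set q2 := T.f A B B with hq2
  set g0 := T.f D D D
  set g1 := T.f D D B
  set g2 := T.f D B B
  set g3 := T.f B B B with hg3
  rcases dbl' hcK (3 * q0 ^ 2 - 4 * lam * g0) (12 * q0 * q1 - 12 * lam * g1)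
    (12 * q1 ^ 2 + 6 * q0 * q2 - 12 * lam * g2) (12 * q1 * q2 - 4 * lam * g3) (3 * q2 ^ 2)
    (by
      push_cast
      simp only [cn2, cn3, cn4, cn6, cn12]
      linear_combination (-4 * (lam : L)) * E3 + (3 * (2 * x * (lam : L) + ((q0 : L) + 2 * c * q1 + c ^ 2 * q2))) * E1)
    (by
      push_cast
      simp only [cn2, cn3, cn4, cn6, cn12]
      linear_combination (-12 * (lam : L)) * E2 + 12 * ((q1 : L) + c * q2) * E1)
    with ⟨-, -, -, h3, h4⟩ | ⟨-, a₀, b₀, hab⟩
  · have hq : q2 = 0 := by simpa using h4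
    have hg : g3 = 0 := by
      rw [hq, mul_zero, zero_sub, neg_eq_zero] at h3
      simpa [hlam] using h3
    refine no_plane hN hA.1 hBr hABind fun a b => ?_
    have i1 : F.f (co K A) (co K B) (co K B) = 0 := by
      rw [← hTv, ← hq2, hq]
      rfl
    have i2 : F.f (co K B) (co K B) (co K B) = 0 := by
      rw [← hTv, ← hg3, hg]
      rfl
    generalize co K A = A' at *
    generalize co K B = B' at *
    try simp only [Tri.s12, Tri.s23] at hAA hB i1 i2
    simp only [map_add, map_sub, map_neg, map_smul, map_zero, LinearMap.add_apply,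
      LinearMap.sub_apply, LinearMap.neg_apply, LinearMap.smul_apply, LinearMap.zero_apply,
      smul_eq_mul, Tri.s12, Tri.s23]
    rw [i1, i2, hAA, hB]
    ring
  · -- the rational line through `C₁`
    set al : K := -(q0 + q2 * a₀) / (2 * lam) with hal
    set be : K := -(2 * q1 + q2 * b₀) / (2 * lam) with hbe
    have hx : x = (al : L) + be * c := by
      rw [hal, hbe]
      push_cast
      simp only [cn2, cn3, cn4, cn6, cn12]
      field_simp
      linear_combination E1 - (q2 : L) * hab
    set U := al • A + D with hU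
    set V := be • A + B with hV
    have hUV : C₁ = co K U + c • co K V := by
      rw [hCeq, hU, hV, co_add, co_add, co_smul, co_smul, hx, add_smul, smul_add, smul_smul]
      rw [mul_comm (be : L) c]
      abel
    have hUVind : ∀ a b : L, a • co K U + b • co K V = 0 → a = 0 ∧ b = 0 := by
      intro a b h
      rw [hU, hV, co_add, co_add, co_smul, co_smul] at h
      have h1 := congrArg (F.f (co K A) (co K A)) h
      simp only [map_add, map_smul, hAA, hB, smul_eq_mul, mul_zero, zero_add, add_zero,
        map_zero] at h1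
      have ha : a = 0 := (mul_eq_zero.1 h1).resolve_right hD
      rw [ha, zero_smul, zero_add, smul_add, smul_smul] at h
      exact ⟨ha, (hABind _ _ h).2⟩
    have s4 := hsing₁ (co K V)
    rcases dbl' hcK (T.f U U U) (3 * T.f U U V) (3 * T.f U V V) (T.f V V V) 0
      (by
        push_cast
        simp only [hTv, cn2, cn3, cn4, cn6, cn12]
        rw [hUV] at s3
        generalize co K U = U' at *
        generalize co K V = V' at *
        simp only [map_add, map_smul, LinearMap.add_apply, LinearMap.smul_apply, smul_eq_mul,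
          Tri.s12, Tri.s23] at s3
        try simp only [Tri.s12, Tri.s23]
        linear_combination s3)
      (by
        push_cast
        simp only [hTv, cn2, cn3, cn4, cn6, cn12]
        rw [hUV] at s4
        generalize co K U = U' at *
        generalize co K V = V' at *
        simp only [map_add, map_smul, LinearMap.add_apply, LinearMap.smul_apply, smul_eq_mul,
          Tri.s12, Tri.s23] at s4
        try simp only [Tri.s12, Tri.s23]
        linear_combination 3 * s4) with ⟨k0, k1, k2, k3, -⟩ | ⟨h0, -⟩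
    · refine no_plane hN (rt_co U) (rt_co V) hUVind fun a b => ?_
      have k1' : T.f U U V = 0 := by simpa using k1
      have k2' : T.f U V V = 0 := by simpa using k2
      have i0 : F.f (co K U) (co K U) (co K U) = 0 := by
        rw [← hTv, k0]
        rfl
      have i1 : F.f (co K U) (co K U) (co K V) = 0 := by
        rw [← hTv, k1']
        rfl
      have i2 : F.f (co K U) (co K V) (co K V) = 0 := by
        rw [← hTv, k2']
        rfl
      have i3 : F.f (co K V) (co K V) (co K V) = 0 := by
        rw [← hTv, k3]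
        rfl
      generalize co K U = U' at *
      generalize co K V = V' at *
      try simp only [Tri.s12, Tri.s23] at i0 i1 i2 i3
      simp only [map_add, map_sub, map_neg, map_smul, map_zero, LinearMap.add_apply,
        LinearMap.sub_apply, LinearMap.neg_apply, LinearMap.smul_apply, LinearMap.zero_apply,
        smul_eq_mul, Tri.s12, Tri.s23]
      rw [i0, i1, i2, i3]
      ring
    · exact h0 rfl

end Pool.Agent.TH729.CV
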