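import Pool.Agent.TH729.CV.Basic

/-!
# Cubic forms over complete fields: implicit functions and sweeping (helper729)
-/

set_option autoImplicit false
set_option linter.unusedSimpArgs false
set_option linter.unusedTactic false
set_option linter.unusedSectionVars false

namespace Pool.Agent.TH729.CV

open Set Filter Topology

variable {L : Type*} [NontriviallyNormedField L] [CompleteSpace L] [CharZero L]

section SD

variable {X : Type*} [NormedAddCommGroup X] [NormedSpace L X]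

/-- strict differentiability -/
def SD (g : X → L) (a : X) : Prop := ∃ g' : X →L[L] L, HasStrictFDerivAt g g' a

lemma SD.const (c : L) (a : X) : SD (fun _ => c) a := ⟨0, hasStrictFDerivAt_const c a⟩

lemma SD.add {f g : X → L} {a : X} (hf : SD f a) (hg : SD g a) : SD (fun x => f x + g x) a := by
  obtain ⟨f', hf⟩ := hf
  obtain ⟨g', hg⟩ := hg
  exact ⟨_, hf.add hg⟩

lemma SD.mul {f g : X → L} {a : X} (hf : SD f a) (hg : SD g a) : SD (fun x => f x * g x) a := by
  obtain ⟨f', hf⟩ := hf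
  obtain ⟨g', hg⟩ := hg
  exact ⟨_, hf.mul hg⟩

lemma SD.neg {f : X → L} {a : X} (hf : SD f a) : SD (fun x => - f x) a := by
  obtain ⟨f', hf⟩ := hf
  exact ⟨_, hf.neg⟩

lemma SD.sub {f g : X → L} {a : X} (hf : SD f a) (hg : SD g a) : SD (fun x => f x - g x) a := by
  obtain ⟨f', hf⟩ := hf
  obtain ⟨g', hg⟩ := hg
  exact ⟨_, hf.sub hg⟩

lemma SD.clm (l : X →L[L] L) (a : X) : SD l a := ⟨l, l.hasStrictFDerivAt⟩

lemma SD.sum {ι : Type*} (s : Finset ι) {f : ι → X → L} {a : X} (h : ∀ i, SD (f i) a) :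
    SD (fun x => ∑ i ∈ s, f i x) a := by
  classical
  induction s using Finset.induction_on with
  | empty => simpa using SD.const (0 : L) a
  | insert i s hi ih =>
    simp only [Finset.sum_insert hi]
    exact (h i).add ih

/-- strictly differentiable vector functions -/
def SDV {m : ℕ} (v : X → E L m) (a : X) : Prop := ∀ i, SD (fun x => v x i) a

variable {m : ℕ}

lemma SDV.const (c : E L m) (a : X) : SDV (fun _ => c) a := fun i => SD.const (c i) a

lemma SDV.add {v w : X → E L m} {a : X} (hv : SDV v a) (hw : SDV w a) :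
    SDV (fun x => v x + w x) a := fun i => (hv i).add (hw i)

lemma SDV.sub {v w : X → E L m} {a : X} (hv : SDV v a) (hw : SDV w a) :
    SDV (fun x => v x - w x) a := fun i => (hv i).sub (hw i)

lemma SDV.smul {f : X → L} {w : X → E L m} {a : X} (hf : SD f a) (hw : SDV w a) :
    SDV (fun x => f x • w x) a := fun i => hf.mul (hw i)

lemma SD.tri (F : Tri L m) {u v w : X → E L m} {a : X} (hu : SDV u a) (hv : SDV v a)
    (hw : SDV w a) : SD (fun x => F.f (u x) (v x) (w x)) a := by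
  rw [show (fun x => F.f (u x) (v x) (w x)) = _ from funext fun x => expand F (u x) (v x) (w x)]
  exact SD.sum _ fun i => SD.sum _ fun j => SD.sum _ fun k => (hu i).mul ((hv j).mul
    ((hw k).mul (SD.const _ a)))

lemma SDV.tan (F : Tri L m) (P : E L m) {v : X → E L m} {a : X} (hv : SDV v a) :
    SDV (fun x => tan' F P (v x)) a :=
  SDV.sub (SDV.smul (SD.tri F hv hv hv) (SDV.const P a))
    (SDV.smul (SD.mul (SD.const 3 a) (SD.tri F (SDV.const P a) hv hv)) hv)

end SD

/-- the implicit function theorem -/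
theorem ift {X : Type*} [NormedAddCommGroup X] [NormedSpace L X] [CompleteSpace X]
    {g : X × L → L} {a : X} {t₀ : L} (hg : SD g (a, t₀)) {d : L}
    (hd : HasDerivAt (fun t => g (a, t)) d t₀) (hd0 : d ≠ 0) :
    ∃ ψ : X → L, Tendsto ψ (𝓝 a) (𝓝 t₀) ∧ ∀ᶠ x in 𝓝 a, g (x, ψ x) = g (a, t₀) := by
  obtain ⟨g', hg⟩ := hg
  have h1 : HasDerivAt (fun t => g (a, t)) (g' (0, 1)) t₀ := by
    have h2 : HasDerivAt (fun t : L => (a, t)) ((0 : X), (1 : L)) t₀ :=
      (hasDerivAt_const t₀ a).prodMk (hasDerivAt_id t₀)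
    exact hg.hasFDerivAt.comp_hasDerivAt t₀ h2
  have h3 : g' (0, 1) = d := h1.unique hd
  have hinv : (g' ∘L .inr L X L).IsInvertible := by
    refine ⟨ContinuousLinearEquiv.unitsEquivAut L (Units.mk0 d hd0), ?_⟩
    ext
    simp [h3]
  exact ⟨_, hg.tendsto_implicitFunctionOfProdDomain hinv,
    hg.eventually_apply_implicitFunctionOfProdDomain hinv⟩

variable {m : ℕ} {F : Tri L m} {K : Subfield L} [DK K]

/-- **sweeping** -/
theorem sweep {γ : L → E L m} (hγ : SDV γ 0) (hT : ∀ᶠ t in 𝓝 (0 : L), TG F K (γ t)) {Y : E L m}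
    (hY : F.f Y Y Y = 0) (hk : F.f (γ 0) Y Y ≠ 0) {χ : L → L} (hχ : ContinuousAt χ 0)
    (hχ0 : χ 0 ≠ 0) (hψ : ∀ᶠ t in 𝓝 (0 : L), F.f (γ t) (γ t) Y = t * χ t) : Int' F K Y := by
  refine ⟨hY, ⟨γ 0, by rw [(F.n2 (γ 0) Y).2.2.1]; exact hk⟩, ?_⟩
  have hγc : ContinuousAt γ 0 := by
    rw [continuousAt_pi]
    intro i
    obtain ⟨g', hg⟩ := hγ i
    exact hg.continuousAt
  -- the implicit function
  have hg : SD (fun z : E L m × L => F.f (γ z.2) (γ z.2) z.1) (Y, 0) := by
    have h1 : SDV (fun z : E L m × L => γ z.2) (Y, 0) := by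
      intro i
      obtain ⟨g', hg⟩ := hγ i
      exact ⟨g' ∘L ContinuousLinearMap.snd L (E L m) L, HasStrictFDerivAt.comp
        (g := fun t : L => γ t i) (f := Prod.snd) (Y, (0 : L)) hg hasStrictFDerivAt_snd⟩
    have h2 : SDV (fun z : E L m × L => z.1) (Y, 0) := fun i =>
      SD.clm ((ContinuousLinearMap.proj i).comp (ContinuousLinearMap.fst L (E L m) L)) (Y, 0)
    exact SD.tri F h1 h1 h2
  have h0 : F.f (γ 0) (γ 0) Y = 0 := by
    have := hψ.self_of_nhds
    rwa [zero_mul] at this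
  have hd : HasDerivAt (fun t => F.f (γ t) (γ t) Y) (χ 0) 0 := by
    have h1 : HasDerivAt (fun t => t * χ t) (χ 0) 0 := by
      rw [hasDerivAt_iff_tendsto_slope_zero]
      have h2 : Tendsto χ (𝓝[≠] 0) (𝓝 (χ 0)) := hχ.tendsto.mono_left nhdsWithin_le_nhds
      refine h2.congr' ?_
      filter_upwards [self_mem_nhdsWithin] with t ht
      have ht' : t ≠ 0 := ht
      simp only [zero_add, zero_mul, sub_zero, smul_eq_mul]
      rw [← mul_assoc, inv_mul_cancel₀ ht', one_mul]
    exact h1.congr_of_eventuallyEq hψ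
  obtain ⟨ψ, hψ1, hψ2⟩ := ift (g := fun z : E L m × L => F.f (γ z.2) (γ z.2) z.1) hg hd hχ0
  have e1 : ∀ᶠ Y' in 𝓝 Y, TG F K (γ (ψ Y')) := hψ1.eventually hT
  have e2 : ∀ᶠ Y' in 𝓝 Y, F.f (γ (ψ Y')) Y' Y' ≠ 0 := by
    have h1 : Tendsto (fun Y' => γ (ψ Y')) (𝓝 Y) (𝓝 (γ 0)) := hγc.tendsto.comp hψ1
    exact (tend F h1 tendsto_id tendsto_id).eventually_ne hk
  filter_upwards [e1, e2, hψ2] with Y' g1 g2 g3 hZ
  exact g1 Y' (g3.trans h0) hZ g2

/-- points of the cubic near a smooth point -/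
theorem graph {R e : E L m} (h0 : F.f R R R = 0) (he : F.f R R e ≠ 0) :
    ∃ ψ θ : E L m → L, Tendsto ψ (𝓝 R) (𝓝 0) ∧ Tendsto θ (𝓝 R) (𝓝 (-(3 * F.f R R e)⁻¹)) ∧
      ∀ᶠ w in 𝓝 R, ψ w = θ w * F.f w w w ∧
        F.f (w + ψ w • e) (w + ψ w • e) (w + ψ w • e) = 0 := by
  have hμ : 3 * F.f R R e ≠ 0 := mul_ne_zero (by norm_num) he
  have hg : SD (fun z : E L m × L => F.f (z.1 + z.2 • e) (z.1 + z.2 • e) (z.1 + z.2 • e))
      (R, 0) := by
    have h2 : SDV (fun z : E L m × L => z.1) (R, 0) := fun i =>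
      SD.clm ((ContinuousLinearMap.proj i).comp (ContinuousLinearMap.fst L (E L m) L)) (R, 0)
    have h3 : SD (fun z : E L m × L => z.2) (R, 0) :=
      SD.clm (ContinuousLinearMap.snd L (E L m) L) (R, 0)
    have h4 := SDV.add h2 (SDV.smul h3 (SDV.const e _))
    exact SD.tri F h4 h4 h4
  set G : E L m → L → L := fun w s => 3 * F.f w w e + 3 * s * F.f w e e + s ^ 2 * F.f e e e
    with hG
  have hexp : ∀ w s, F.f (w + s • e) (w + s • e) (w + s • e) = F.f w w w + s * G w s := by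
    intro w s
    simp only [hG]
    simp only [map_add, map_sub, map_neg, map_smul, map_zero, LinearMap.add_apply,
      LinearMap.sub_apply, LinearMap.neg_apply, LinearMap.smul_apply, LinearMap.zero_apply,
      smul_eq_mul, Tri.s12, Tri.s23]
    ring
  have hd : HasDerivAt (fun t : L => F.f (R + t • e) (R + t • e) (R + t • e)) (3 * F.f R R e) 0 := by
    have h1 : (fun t : L => F.f (R + t • e) (R + t • e) (R + t • e)) =
        fun t => t * G R t := by
      funext t
      rw [hexp, h0, zero_add]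
    rw [h1, hasDerivAt_iff_tendsto_slope_zero]
    have h2 : Tendsto (G R) (𝓝[≠] 0) (𝓝 (3 * F.f R R e)) := by
      have hc : Continuous (G R) := by
        simp only [hG]
        fun_prop
      have := (hc.tendsto 0).mono_left (nhdsWithin_le_nhds (s := {0}ᶜ))
      simpa [hG] using this
    refine h2.congr' ?_
    filter_upwards [self_mem_nhdsWithin] with t ht
    have ht' : t ≠ 0 := ht
    simp only [zero_add, zero_mul, sub_zero, smul_eq_mul]
    rw [← mul_assoc, inv_mul_cancel₀ ht', one_mul]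
  obtain ⟨ψ, hψ1, hψ2⟩ := ift (a := R) (t₀ := 0) hg hd hμ
  have hψ2' : ∀ᶠ w in 𝓝 R, F.f (w + ψ w • e) (w + ψ w • e) (w + ψ w • e) = 0 := by
    filter_upwards [hψ2] with w hw
    rw [hw]
    simp [h0]
  have hGt : Tendsto (fun w => G w (ψ w)) (𝓝 R) (𝓝 (3 * F.f R R e)) := by
    have h1 := (((tend F (tendsto_id (x := 𝓝 R)) (tendsto_id) (tendsto_const_nhds (x := e))).const_mul
      (3 : L)).add ((hψ1.const_mul (3 : L)).mul (tend F (tendsto_id (x := 𝓝 R))
        (tendsto_const_nhds (x := e)) (tendsto_const_nhds (x := e))))).add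
        ((hψ1.pow 2).mul (tendsto_const_nhds (x := F.f e e e)))
    simpa [hG] using h1
  refine ⟨ψ, fun w => -(G w (ψ w))⁻¹, hψ1, (hGt.inv₀ hμ).neg, ?_⟩
  filter_upwards [hψ2', hGt.eventually_ne hμ] with w h1 h2
  refine ⟨?_, h1⟩
  rw [hexp] at h1
  field_simp
  linear_combination h1

end Pool.Agent.TH729.CV
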