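import Pool.Agent.TH729.CV.Trans

/-!
# Local ideals of intersections of two quadrics (helper729)
-/

set_option autoImplicit false
set_option linter.unusedSimpArgs false
set_option linter.unusedTactic false
set_option linter.unusedSectionVars false

namespace Pool.Agent.TH729.CV

open Set Filter Topology MvPolynomial

variable {L : Type*} [NontriviallyNormedField L] [CompleteSpace L] [CharZero L]

variable {m : ℕ} {K : Subfield L} [DK K]

/-- the product of a linear and a bilinear form, not symmetrized -/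
noncomputable def lb (c : E L m →ₗ[L] L) (b : E L m →ₗ[L] E L m →ₗ[L] L) :
    E L m →ₗ[L] E L m →ₗ[L] E L m →ₗ[L] L :=
  LinearMap.mk₂ L (fun x y => c x • b y)
    (fun x x' y => by rw [map_add, add_smul])
    (fun t x y => by rw [map_smul, smul_eq_mul, mul_smul])
    (fun x y y' => by rw [map_add, smul_add])
    (fun t x y => by rw [map_smul, smul_comm])

lemma lb_apply (c : E L m →ₗ[L] L) (b : E L m →ₗ[L] E L m →ₗ[L] L) (x y z : E L m) :
    lb c b x y z = c x * b y z := rfl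

/-- the product of a linear and a bilinear form, two slots exchanged -/
noncomputable def lb' (c : E L m →ₗ[L] L) (b : E L m →ₗ[L] E L m →ₗ[L] L) :
    E L m →ₗ[L] E L m →ₗ[L] E L m →ₗ[L] L :=
  LinearMap.mk₂ L (fun x y => (b x y) • c)
    (fun x x' y => by rw [map_add, LinearMap.add_apply, add_smul])
    (fun t x y => by rw [map_smul, LinearMap.smul_apply, smul_eq_mul, mul_smul])
    (fun x y y' => by rw [map_add, add_smul])
    (fun t x y => by rw [map_smul, smul_eq_mul, mul_smul])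

lemma lb'_apply (c : E L m →ₗ[L] L) (b : E L m →ₗ[L] E L m →ₗ[L] L) (x y z : E L m) :
    lb' c b x y z = b x y * c z := rfl

/-- the cubic form of a pair of quadratic forms and a common zero -/
noncomputable def pcub (B₁ B₂ : Bil L m) (P : E L m) : Tri L m where
  f := (1 / 3 : L) • ((lb (B₁.b P) B₂.b + (lb (B₁.b P) B₂.b).flip + lb' (B₁.b P) B₂.b) +
    (-1 : L) • (lb (B₂.b P) B₁.b + (lb (B₂.b P) B₁.b).flip + lb' (B₂.b P) B₁.b))
  s12 x y z := by
    simp only [LinearMap.smul_apply, LinearMap.add_apply, LinearMap.sub_apply,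
      LinearMap.flip_apply, lb_apply, lb'_apply, smul_eq_mul]
    rw [B₁.symm y x, B₂.symm y x]
    ring
  s23 x y z := by
    simp only [LinearMap.smul_apply, LinearMap.add_apply, LinearMap.sub_apply,
      LinearMap.flip_apply, lb_apply, lb'_apply, smul_eq_mul]
    rw [B₁.symm z y, B₂.symm z y]
    ring

lemma pcub_apply (B₁ B₂ : Bil L m) (P v : E L m) :
    (pcub B₁ B₂ P).f v v v = B₁.b P v * B₂.b v v - B₂.b P v * B₁.b v v := by
  simp only [pcub, LinearMap.smul_apply, LinearMap.add_apply, LinearMap.sub_apply,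
    LinearMap.flip_apply, lb_apply, lb'_apply, smul_eq_mul]
  ring

lemma pcub_rat {B₁ B₂ : Bil L m} (h₁ : Rat2 B₁ K) (h₂ : Rat2 B₂ K) {P : E L m} (hP : Rt K P) :
    Rat3 (pcub B₁ B₂ P) K := by
  intro x y z hx hy hz
  simp only [pcub, LinearMap.smul_apply, LinearMap.add_apply, LinearMap.sub_apply,
    LinearMap.flip_apply, lb_apply, lb'_apply, smul_eq_mul, neg_mul, one_mul, ← sub_eq_add_neg]
  have h3 : (1 / 3 : L) ∈ K := by
    refine K.div_mem K.one_mem ?_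
    exact_mod_cast SubfieldClass.ratCast_mem K 3
  refine K.mul_mem h3 (K.sub_mem (K.add_mem (K.add_mem ?_ ?_) ?_) (K.add_mem (K.add_mem ?_ ?_) ?_))
  · exact K.mul_mem (h₁ _ _ hP hx) (h₂ _ _ hy hz)
  · exact K.mul_mem (h₁ _ _ hP hy) (h₂ _ _ hx hz)
  · exact K.mul_mem (h₂ _ _ hx hy) (h₁ _ _ hP hz)
  · exact K.mul_mem (h₂ _ _ hP hx) (h₁ _ _ hy hz)
  · exact K.mul_mem (h₂ _ _ hP hy) (h₁ _ _ hx hz)
  · exact K.mul_mem (h₁ _ _ hx hy) (h₂ _ _ hP hz)

/-- the retraction of the cubic to the intersection of the quadrics -/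
noncomputable def rtr (B : Bil L m) (P w : E L m) : E L m :=
  (2 * B.b P w) • w - B.b w w • P

lemma rtr_cont (B : Bil L m) (P : E L m) : Continuous (rtr B P) :=
  ((continuous_const.mul (B.cont continuous_const continuous_id)).smul continuous_id).sub
    ((B.cont continuous_id continuous_id).smul continuous_const)

lemma rtr_rt {B : Bil L m} (hB : Rat2 B K) {P w : E L m} (hP : Rt K P) (hw : Rt K w) :
    Rt K (rtr B P w) := by
  refine (hw.smul (K.mul_mem ?_ (hB _ _ hP hw))).sub (hP.smul (hB _ _ hw hw))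
  exact_mod_cast SubfieldClass.ratCast_mem K 2

lemma rtr_zero (B₁ B₂ : Bil L m) {P w : E L m} (h₁ : B₁.b P P = 0) (h₂ : B₂.b P P = 0)
    (hw : (pcub B₁ B₂ P).f w w w = 0) :
    B₁.b (rtr B₁ P w) (rtr B₁ P w) = 0 ∧ B₂.b (rtr B₁ P w) (rtr B₁ P w) = 0 ∧
      B₁.b P (rtr B₁ P w) = 2 * (B₁.b P w) ^ 2 := by
  rw [pcub_apply] at hw
  have s₁ := B₁.symm w P
  have s₂ := B₂.symm w P
  refine ⟨?_, ?_, ?_⟩
  · simp only [rtr, map_sub, map_smul, LinearMap.sub_apply, LinearMap.smul_apply,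
      smul_eq_mul, h₁, s₁]
    ring
  · simp only [rtr, map_sub, map_smul, LinearMap.sub_apply, LinearMap.smul_apply,
      smul_eq_mul, h₂, s₂]
    linear_combination (4 * B₁.b P w) * hw
  · simp only [rtr, map_sub, map_smul, LinearMap.sub_apply, LinearMap.smul_apply,
      smul_eq_mul, h₁]
    ring

/-- pullback of polynomials under a polynomial map of degree two -/
lemma exists_pull {B : Bil L m} (hB : Rat2 B K) {P : E L m} (hP : Rt K P) :
    ∃ R : MvPolynomial (Fin m) K →ₐ[K] MvPolynomial (Fin m) K,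
      ∀ (f : MvPolynomial (Fin m) K) (w : E L m), aeval w (R f) = aeval (rtr B P w) f := by
  -- the values of the form as polynomials
  have hl : ∃ p : MvPolynomial (Fin m) K, ∀ w : E L m, aeval w p = B.b P w := by
    refine ⟨∑ i, C ⟨B.b P (fun l => if i = l then 1 else 0), hB _ _ hP (rt_basis i)⟩ * X i,
      fun w => ?_⟩
    rw [map_sum, LinearMap.pi_apply_eq_sum_univ (B.b P) w]
    refine Finset.sum_congr rfl fun i _ => ?_
    rw [map_mul, aeval_X, aeval_C, smul_eq_mul, mul_comm]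
    rfl
  have hq : ∃ p : MvPolynomial (Fin m) K, ∀ w : E L m, aeval w p = B.b w w := by
    refine ⟨∑ i, ∑ j, X i * (X j * C ⟨B.b (fun l => if i = l then 1 else 0)
      (fun l => if j = l then 1 else 0), hB _ _ (rt_basis i) (rt_basis j)⟩), fun w => ?_⟩
    rw [map_sum, B.expand w w]
    refine Finset.sum_congr rfl fun i _ => ?_
    rw [map_sum]
    refine Finset.sum_congr rfl fun j _ => ?_
    rw [map_mul, map_mul, aeval_X, aeval_X, aeval_C]
    rfl
  obtain ⟨l, hl⟩ := hl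
  obtain ⟨q, hq⟩ := hq
  obtain ⟨P, rfl⟩ := exists_co hP
  refine ⟨aeval fun i => 2 * l * X i - q * C (P i), fun f w => ?_⟩
  rw [← AlgHom.comp_apply]
  congr 1
  apply MvPolynomial.algHom_ext
  intro i
  rw [AlgHom.comp_apply, aeval_X, aeval_X, map_sub, map_mul, map_mul, map_mul, aeval_X, aeval_C,
    hl, hq, map_ofNat]
  rfl

/-- the set of common zeros -/
def ZZ (B₁ B₂ : Bil L m) (K : Subfield L) : Set (E L m) :=
  {v | Rt K v ∧ B₁.b v v = 0 ∧ B₂.b v v = 0}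

/-- the part of the intersection off the polar hyperplane -/
theorem pair_open [ProperSpace L] {B₁ B₂ : Bil L m} (hB₁ : Rat2 B₁ K) (hB₂ : Rat2 B₂ K)
    {P : E L m} (hP : Rt K P) (h₁ : B₁.b P P = 0) (h₂ : B₂.b P P = 0) :
    FS K (cn {v | Rt K v ∧ (B₁.b v v = 0 ∧ B₂.b v v = 0) ∧ B₁.b P v ≠ 0}) := by
  set A : Set (E L m) := cn {v | Rt K v ∧ (B₁.b v v = 0 ∧ B₂.b v v = 0) ∧ B₁.b P v ≠ 0} with hA
  set Φ := pcub B₁ B₂ P with hΦ
  have hΦr : Rat3 Φ K := pcub_rat hB₁ hB₂ hP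
  have hfin := main_FS (K := K) m Φ hΦr
  obtain ⟨R, hR⟩ := exists_pull hB₁ hP
  refine FS.of_dense subset_closure subset_closure ?_
  refine (hfin.image (Ideal.comap R)).subset ?_
  rintro _ ⟨x, hx, rfl⟩
  refine ⟨J K (Cn Φ K) x, ⟨x, rfl⟩, ?_⟩
  -- the points of `A`
  have hA1 : ∀ y ∈ A, B₁.b P y ≠ 0 ∧ y ∈ Cn Φ K ∧ rtr B₁ P y = (2 * B₁.b P y) • y := by
    rintro _ ⟨r, u, hr, ⟨hu1, ⟨hu2, hu3⟩, hu4⟩, rfl⟩
    refine ⟨?_, ⟨r, u, hr, ⟨hu1, ?_⟩, rfl⟩, ?_⟩
    · rw [map_smul]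
      exact mul_ne_zero hr hu4
    · rw [hΦ, pcub_apply, hu2, hu3]
      ring
    · simp only [rtr, map_smul, LinearMap.smul_apply, smul_eq_mul, hu2, mul_zero, zero_smul,
        sub_zero]
  have hA2 : ∀ w ∈ Cn Φ K, B₁.b P w ≠ 0 → rtr B₁ P w ∈ A := by
    rintro _ ⟨r, u, hr, ⟨hu1, hu2⟩, rfl⟩ hw
    have hu : B₁.b P u ≠ 0 := by
      rw [map_smul] at hw
      exact right_ne_zero_of_mul hw
    obtain ⟨e1, e2, e3⟩ := rtr_zero B₁ B₂ h₁ h₂ hu2
    have h5 : rtr B₁ P (r • u) = r ^ 2 • rtr B₁ P u := by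
      simp only [rtr, map_smul, LinearMap.smul_apply, smul_eq_mul, smul_sub, smul_smul]
      congr 2 <;> ring
    refine ⟨r ^ 2, rtr B₁ P u, pow_ne_zero _ hr, ⟨rtr_rt hB₁ hP hu1, ⟨e1, e2⟩, ?_⟩, h5⟩
    rw [e3]
    exact mul_ne_zero two_ne_zero (pow_ne_zero _ hu)
  -- homogeneity
  have hVL : ∀ (f : MvPolynomial (Fin m) K) (w : E L m),
      VL (R f) w ↔ VL f (rtr B₁ P w) := by
    intro f w
    have hsc : ∀ t : L, rtr B₁ P (t • w) = t ^ 2 • rtr B₁ P w := by
      intro t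
      simp only [rtr, map_smul, LinearMap.smul_apply, smul_eq_mul, smul_sub, smul_smul]
      congr 2 <;> ring
    constructor
    · intro h
      have h3 : PL fun t : L => aeval (t • rtr B₁ P w) f := PL.aeval
        (γ := fun t => t • rtr B₁ P w) (fun i => PL.id.mul (PL.const _)) _
      refine h3.zero_inf (S := Set.range fun n : ℕ => (n : L) ^ 2) ?_ ?_
      · refine Set.infinite_range_of_injective fun a b hab => ?_
        have h4 : (((a ^ 2 : ℕ)) : L) = ((b ^ 2 : ℕ) : L) := by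
          push_cast
          exact hab
        exact Nat.pow_left_injective two_ne_zero (Nat.cast_injective h4)
      · rintro _ ⟨n, rfl⟩
        have h4 := h (n : L)
        rw [hR, hsc] at h4
        exact h4
    · intro h t
      rw [hR, hsc]
      exact h _
  obtain ⟨hx1, -, hx3⟩ := hA1 x hx
  have hc0 : 2 * B₁.b P x ≠ 0 := mul_ne_zero two_ne_zero hx1
  have hne : ∀ᶠ w in 𝓝 x, B₁.b P w ≠ 0 :=
    (B₁.cont continuous_const continuous_id).continuousAt.eventually_ne hx1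
  ext f
  rw [Ideal.mem_comap, mem_J]
  constructor
  · intro hf
    rw [mem_J]
    filter_upwards [hf] with u hu huA
    obtain ⟨hu1, hu2, hu3⟩ := hA1 u huA
    have h5 := (hVL f u).1 (hu hu2)
    rw [hu3] at h5
    have h6 := h5.smul (2 * B₁.b P u)⁻¹
    rwa [smul_smul, inv_mul_cancel₀ (mul_ne_zero two_ne_zero hu1), one_smul] at h6
  · intro hf
    change f ∈ J K A x at hf
    rw [← J_smul (cn_con _) x hc0, ← hx3] at hf
    filter_upwards [hne, ((rtr_cont B₁ P).tendsto x).eventually hf] with w hw1 hw2 hw3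
    rw [hVL]
    exact hw2 (hA2 w hw3 hw1)

/-- **intersections of two quadrics** -/
theorem pair_FS [ProperSpace L] : ∀ (m : ℕ) (B₁ B₂ : Bil L m), Rat2 B₁ K → Rat2 B₂ K →
    FS K (cn {v | Rt K v ∧ (B₁.b v v = 0 ∧ B₂.b v v = 0)}) := by
  intro m
  induction m with
  | zero => intro B₁ B₂ _ _; exact FS.zero_dim _
  | succ m ih =>
    intro B₁ B₂ hB₁ hB₂
    have hyp : ∀ a : Fin (m + 1) → K, a ≠ 0 →
        FS K (cn {v | Rt K v ∧ (B₁.b v v = 0 ∧ B₂.b v v = 0)} ∩ {v | dt a v = 0}) := by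
      intro a ha
      obtain ⟨j, hj⟩ := Function.ne_iff.1 ha
      refine FS.hyp (p := fun v => B₁.b v v = 0 ∧ B₂.b v v = 0) hj ?_
      exact ih (B₁.comap (par a j)) (B₂.comap (par a j))
        (fun v w hv hw => hB₁ _ _ (par_rt hv) (par_rt hw))
        (fun v w hv hw => hB₂ _ _ (par_rt hv) (par_rt hw))
    -- a common zero which is not in the radical of the first form
    have step : ∀ (B₁ B₂ : Bil L (m + 1)), Rat2 B₁ K → Rat2 B₂ K →
        (∀ a : Fin (m + 1) → K, a ≠ 0 →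
          FS K (cn {v | Rt K v ∧ (B₁.b v v = 0 ∧ B₂.b v v = 0)} ∩ {v | dt a v = 0})) →
        ∀ P, Rt K P → B₁.b P P = 0 → B₂.b P P = 0 → (∃ e, B₁.b P e ≠ 0) →
        FS K (cn {v | Rt K v ∧ (B₁.b v v = 0 ∧ B₂.b v v = 0)}) := by
      intro B₁ B₂ hB₁ hB₂ hyp P hP h₁ h₂ ⟨e, he⟩
      obtain ⟨a, ha⟩ := exists_dt (K := K) (B₁.b P) fun v hv => hB₁ _ _ hP hv
      have ha0 : a ≠ 0 := by
        rintro rfl
        apply he
        rw [← ha e]
        simp [dt_apply]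
      have heq : cn {v | Rt K v ∧ (B₁.b v v = 0 ∧ B₂.b v v = 0)} =
          cn {v | Rt K v ∧ (B₁.b v v = 0 ∧ B₂.b v v = 0) ∧ B₁.b P v ≠ 0} ∪
          (cn {v | Rt K v ∧ (B₁.b v v = 0 ∧ B₂.b v v = 0)} ∩ {v | dt a v = 0}) := by
        ext y
        constructor
        · rintro ⟨r, u, hr, ⟨hu1, hu2⟩, rfl⟩
          by_cases h1 : B₁.b P u = 0
          · refine Or.inr ⟨⟨r, u, hr, ⟨hu1, hu2⟩, rfl⟩, ?_⟩
            change dt a (r • u) = 0
            rw [map_smul, ha, h1, smul_zero]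
          · exact Or.inl ⟨r, u, hr, ⟨hu1, hu2, h1⟩, rfl⟩
        · rintro (⟨r, u, hr, ⟨hu1, hu2, -⟩, rfl⟩ | h)
          · exact ⟨r, u, hr, ⟨hu1, hu2⟩, rfl⟩
          · exact h.1
      rw [heq]
      exact FS.union (pair_open hB₁ hB₂ hP h₁ h₂) (hyp a ha0)
    by_cases h0 : ∃ P, Rt K P ∧ B₁.b P P = 0 ∧ B₂.b P P = 0 ∧ ∃ e, B₁.b P e ≠ 0
    · obtain ⟨P, hP, h₁, h₂, he⟩ := h0
      exact step B₁ B₂ hB₁ hB₂ hyp P hP h₁ h₂ he
    by_cases h0' : ∃ P, Rt K P ∧ B₁.b P P = 0 ∧ B₂.b P P = 0 ∧ ∃ e, B₂.b P e ≠ 0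
    · obtain ⟨P, hP, h₁, h₂, he⟩ := h0'
      have hsw : {v : E L (m + 1) | Rt K v ∧ (B₁.b v v = 0 ∧ B₂.b v v = 0)} =
          {v | Rt K v ∧ (B₂.b v v = 0 ∧ B₁.b v v = 0)} := by
        ext v
        exact ⟨fun h => ⟨h.1, h.2.2, h.2.1⟩, fun h => ⟨h.1, h.2.2, h.2.1⟩⟩
      rw [hsw] at hyp ⊢
      exact step B₂ B₁ hB₂ hB₁ hyp P hP h₂ h₁ he
    push Not at h0 h0'
    by_cases h1 : ∃ u e, Rt K u ∧ B₁.b u e ≠ 0
    · obtain ⟨u, e, hu, he⟩ := h1
      obtain ⟨a, ha⟩ := exists_dt (K := K) (B₁.b u) fun v hv => hB₁ _ _ hu hv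
      have ha0 : a ≠ 0 := by
        rintro rfl
        apply he
        rw [← ha e]
        simp [dt_apply]
      have heq : cn {v | Rt K v ∧ (B₁.b v v = 0 ∧ B₂.b v v = 0)} =
          cn {v | Rt K v ∧ (B₁.b v v = 0 ∧ B₂.b v v = 0)} ∩ {v | dt a v = 0} := by
        refine (inter_eq_left.2 ?_).symm
        rintro _ ⟨r, v, hr, ⟨hv1, hv2, hv3⟩, rfl⟩
        change dt a (r • v) = 0
        rw [map_smul, ha, B₁.symm, h0 v hv1 hv2 hv3 u, smul_zero]
      rw [heq]
      exact hyp a ha0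
    push Not at h1
    by_cases h2 : ∃ u e, Rt K u ∧ B₂.b u e ≠ 0
    · obtain ⟨u, e, hu, he⟩ := h2
      obtain ⟨a, ha⟩ := exists_dt (K := K) (B₂.b u) fun v hv => hB₂ _ _ hu hv
      have ha0 : a ≠ 0 := by
        rintro rfl
        apply he
        rw [← ha e]
        simp [dt_apply]
      have heq : cn {v | Rt K v ∧ (B₁.b v v = 0 ∧ B₂.b v v = 0)} =
          cn {v | Rt K v ∧ (B₁.b v v = 0 ∧ B₂.b v v = 0)} ∩ {v | dt a v = 0} := by
        refine (inter_eq_left.2 ?_).symm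
        rintro _ ⟨r, v, hr, ⟨hv1, hv2, hv3⟩, rfl⟩
        change dt a (r • v) = 0
        rw [map_smul, ha, B₂.symm, h0' v hv1 hv2 hv3 u, smul_zero]
      rw [heq]
      exact hyp a ha0
    push Not at h2
    have heq : {v : E L (m + 1) | Rt K v ∧ (B₁.b v v = 0 ∧ B₂.b v v = 0)} = {v | Rt K v} := by
      ext w
      exact ⟨fun hw => hw.1, fun hw => ⟨hw, h1 w w hw, h2 w w hw⟩⟩
    rw [heq]
    exact FS.all

end Pool.Agent.TH729.CV
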