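import Pool.Agent.TH729.CV.Hom
import Pool.Agent.W279.Tri.LocComp

/-!
# Local ideals of cubic hypersurfaces over a number field (helper729)
-/

set_option autoImplicit false
set_option linter.unusedSimpArgs false
set_option linter.unusedTactic false
set_option linter.unusedSectionVars false

namespace Pool.Agent.TH729.CV

open Set Filter Topology MvPolynomial

variable {L : Type*} [NontriviallyNormedField L] [CompleteSpace L] [CharZero L]

variable {k : Type*} [Field k]

/-- the map on polynomials -/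
noncomputable def mp {n : ℕ} (σ : k →+* L) (f : MvPolynomial (Fin n) k) :
    MvPolynomial (Fin n) σ.fieldRange := map σ.rangeRestrictField f

lemma aeval_mp {n : ℕ} (σ : k →+* L) (f : MvPolynomial (Fin n) k) (v : Fin n → L) :
    aeval v (mp σ f) = eval₂ σ v f := by
  rw [mp, aeval_def, eval₂_map]
  rfl

lemma eval₂_co {n : ℕ} (σ : k →+* L) (f : MvPolynomial (Fin n) k) (y : Fin n → k) :
    eval₂ σ (fun i => σ (y i)) f = σ (eval y f) := by
  have := eval₂_comp_left σ (RingHom.id k) y f
  rw [RingHom.comp_id] at this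
  exact this.symm

lemma rt_iff {n : ℕ} (σ : k →+* L) {v : Fin n → L} :
    Rt σ.fieldRange v ↔ ∃ y : Fin n → k, v = fun i => σ (y i) := by
  constructor
  · intro h
    choose y hy using h
    exact ⟨y, funext fun i => (hy i).symm⟩
  · rintro ⟨y, rfl⟩ i
    exact ⟨y i, rfl⟩

lemma hom_eval₂ {n d : ℕ} (σ : k →+* L) {f : MvPolynomial (Fin n) k} (hf : f.IsHomogeneous d)
    (c : L) (v : Fin n → L) : eval₂ σ (c • v) f = c ^ d * eval₂ σ v f := by
  rw [eval₂_sum, eval₂_sum, Finset.mul_sum]
  refine Finset.sum_congr rfl fun e he => ?_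
  have h1 : Multiset.card e.toMultiset = d := by
    rw [Finsupp.card_toMultiset]
    exact (hf.degree_eq_sum_deg_support he).symm
  have h2 : (e.toMultiset.map (c • v)).prod = c ^ d * (e.toMultiset.map v).prod := by
    rw [show (c • v) = fun i => c * v i from rfl, Multiset.prod_map_mul, Multiset.map_const',
      Multiset.prod_replicate, h1]
  rw [h2]
  ring

lemma dk_of_dense (σ : k →+* L) (hσ : DenseRange σ) : DK σ.fieldRange :=
  ⟨by rw [RingHom.coe_fieldRange]; exact hσ⟩

lemma VL_mp {n : ℕ} (σ : k →+* L) (hσ : DenseRange σ) (f : MvPolynomial (Fin n) k)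
    (y : Fin n → k) :
    VL (mp σ f) (fun i => σ (y i)) ↔ ∀ t : k, eval (t • y) f = 0 := by
  constructor
  · intro h t
    have h1 := h (σ t)
    rw [aeval_mp] at h1
    apply σ.injective
    rw [map_zero, ← eval₂_co, ← h1]
    congr 1
    funext i
    simp
  · intro h
    have hcl : IsClosed {t : L | aeval (t • (fun i => σ (y i)) : E L n) (mp σ f) = 0} := by
      refine isClosed_eq ((cont_aeval (mp σ f)).comp ?_) continuous_const
      fun_prop
    have hsub : Set.range σ ⊆ {t : L | aeval (t • (fun i => σ (y i)) : E L n) (mp σ f) = 0} := by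
      rintro _ ⟨t, rfl⟩
      have h1 : ((σ t) • (fun i => σ (y i)) : E L n) = fun i => σ ((t • y) i) := by
        funext i
        simp
      change aeval ((σ t) • (fun i => σ (y i)) : E L n) (mp σ f) = 0
      rw [h1, aeval_mp, eval₂_co, h t, map_zero]
    intro t
    exact closure_minimal hsub hcl (hσ t)

/-- **finitely many local ideals** -/
theorem fin_ideals [ProperSpace L] (σ : k →+* L) (hσ : DenseRange σ) {n d : ℕ}
    {F : MvPolynomial (Fin (n + 1)) k} (hF : F.IsHomogeneous d) (hd : d ≤ 3) :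
    {J : Set (MvPolynomial (Fin (n + 1)) k) |
      ∃ x : Fin (n + 1) → L, x ≠ 0 ∧ eval₂ σ x F = 0 ∧
        J = {f : MvPolynomial (Fin (n + 1)) k |
          ∃ U ∈ nhds x, ∀ y : Fin (n + 1) → k, y ≠ 0 → eval y F = 0 →
            (∃ c : L, c ≠ 0 ∧ (fun i => c * σ (y i)) ∈ U) →
            ∀ t : k, eval (t • y) f = 0}}.Finite := by
  have := dk_of_dense σ hσ
  have hdeg : F.totalDegree ≤ 3 := by
    by_cases h0 : F = 0
    · rw [h0, totalDegree_zero]
      omega
    · rw [hF.totalDegree h0]
      exact hd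
  obtain ⟨G, hG, hG'⟩ := rep_affine σ F hdeg
  have hfin := main_FS (K := σ.fieldRange) (n + 2) G hG
  refine (hfin.image fun I => {f : MvPolynomial (Fin (n + 1)) k |
    rename Fin.succ (mp σ f) ∈ I}).subset ?_
  rintro _ ⟨x, hx, -, rfl⟩
  refine ⟨_, ⟨aug x, rfl⟩, ?_⟩
  -- the values of the form
  have hGv : ∀ (s : L) (v : E L (n + 1)), s ≠ 0 → (G.f (Fin.cons s v) (Fin.cons s v)
      (Fin.cons s v) = 0 ↔ eval₂ σ v F = 0) := by
    intro s v hs
    have h1 : (Fin.cons s v : E L (n + 2)) = s • aug (s⁻¹ • v) := by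
      funext i
      refine Fin.cases ?_ (fun i => ?_) i
      · simp [aug]
      · simp only [aug, Fin.cons_succ, Pi.smul_apply, smul_eq_mul]
        field_simp
    rw [h1]
    simp only [map_smul, LinearMap.smul_apply, smul_eq_mul]
    rw [hG' (s⁻¹ • v)]
    simp only
    rw [hom_eval₂ σ hF]
    simp [hs]
  have hcf : Continuous fun z : E L (n + 2) => (fun i => z (Fin.succ i) : E L (n + 1)) :=
    continuous_pi fun i => continuous_apply _
  ext f
  rw [mem_ofPred_eq, mem_ofPred_eq, mem_J]
  constructor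
  · intro hf
    -- a neighbourhood
    have hcons : Continuous fun z : L × E L (n + 1) => (Fin.cons z.1 z.2 : E L (n + 2)) := by
      refine continuous_pi fun i => ?_
      refine Fin.cases ?_ (fun i => ?_) i
      · simpa using continuous_fst
      · simp only [Fin.cons_succ]
        exact (continuous_apply i).comp continuous_snd
    have h1 := (hcons.tendsto (1, x)).eventually hf
    rw [nhds_prod_eq] at h1
    obtain ⟨pa, hpa, pb, hpb, hab⟩ := eventually_prod_iff.1 h1
    refine ⟨{z | pb z}, hpb, fun y hy hyF ⟨c, hc, hcy⟩ => ?_⟩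
    rw [← VL_mp σ hσ]
    -- a rational first coordinate
    have h2 : ∀ᶠ s in 𝓝 (1 : L), pa s ∧ s ≠ 0 := hpa.and (isOpen_ne.mem_nhds one_ne_zero)
    have hct : Tendsto (fun s : L => c * s) (𝓝 (c⁻¹)) (𝓝 1) := by
      have : Tendsto (fun s : L => c * s) (𝓝 (c⁻¹)) (𝓝 (c * c⁻¹)) := tendsto_id.const_mul c
      rwa [mul_inv_cancel₀ hc] at this
    obtain ⟨_, ⟨h3, h4⟩, ⟨s₀, rfl⟩⟩ := mem_closure_iff_nhds.1 (hσ c⁻¹) _ (hct.eventually h2)
    have hs₀ : σ s₀ ≠ 0 := right_ne_zero_of_mul h4
    have hmem : (Fin.cons (c * σ s₀) (fun i => c * σ (y i)) : E L (n + 2)) ∈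
        Cn G σ.fieldRange := by
      refine ⟨c, Fin.cons (σ s₀) fun i => σ (y i), hc, ⟨?_, ?_⟩, ?_⟩
      · intro i
        refine Fin.cases ?_ (fun i => ?_) i
        · exact ⟨s₀, rfl⟩
        · exact ⟨y i, rfl⟩
      · rw [hGv _ _ hs₀, eval₂_co, hyF, map_zero]
      · funext i
        refine Fin.cases ?_ (fun i => ?_) i
        · simp
        · simp
    have h5 := hab h3 hcy hmem
    intro t
    have h6 := h5 (t * c⁻¹)
    rw [aeval_rename] at h6
    rw [← h6]
    congr 2
    funext i
    simp only [Pi.smul_apply, smul_eq_mul, Function.comp_apply, Fin.cons_succ]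
    field_simp
  · rintro ⟨U, hU, hf⟩
    have h0 : ∀ᶠ w in 𝓝 (aug x), (w : E L (n + 2)) 0 ≠ 0 :=
      (continuous_apply (A := fun _ : Fin (n + 2) => L) 0).continuousAt.eventually_ne
        (by rw [aug_zero]; exact one_ne_zero)
    have h1 : Tendsto (fun z : E L (n + 2) => (fun i => z (Fin.succ i) : E L (n + 1)))
        (𝓝 (aug x)) (𝓝 x) := hcf.tendsto (aug x)
    have h2 : ∀ᶠ v in 𝓝 x, v ∈ U ∧ v ≠ 0 :=
      (Filter.eventually_of_mem hU fun v hv => hv).and (isOpen_ne.mem_nhds hx)
    filter_upwards [h0, h1.eventually h2] with w hw0 ⟨hwU, hw1⟩ hw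
    obtain ⟨r, u, hr, ⟨hu1, hu2⟩, rfl⟩ := hw
    obtain ⟨u, rfl⟩ := (rt_iff σ).1 hu1
    have hu0 : σ (u 0) ≠ 0 := by
      intro h
      apply hw0
      simp [h]
    have hsplit : (fun i => σ (u i) : E L (n + 2)) =
        Fin.cons (σ (u 0)) fun i => σ (u i.succ) := by
      funext i
      refine Fin.cases ?_ (fun i => ?_) i
      · simp
      · simp
    rw [hsplit, hGv _ _ hu0, eval₂_co] at hu2
    have hF0 : eval (fun i : Fin (n + 1) => u i.succ) F = 0 :=
      σ.injective (by rw [hu2, map_zero])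
    have hy0 : (fun i : Fin (n + 1) => u i.succ) ≠ 0 := by
      intro h
      apply hw1
      funext i
      have := congrFun h i
      simp only [Pi.zero_apply] at this
      simp [this]
    have h3 := hf _ hy0 hF0 ⟨r, hr, hwU⟩
    rw [← VL_mp σ hσ] at h3
    intro t
    have h4 := h3 (t * r)
    rw [aeval_rename, ← h4]
    congr 2
    funext i
    simp only [Pi.smul_apply, smul_eq_mul, Function.comp_apply]
    ring

end Pool.Agent.TH729.CV
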