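import Pool.Agent.TH729.CV.TQ

/-!
# Local ideals of intersections of two quadrics over a number field (helper729)
-/

set_option autoImplicit false
set_option linter.unusedSimpArgs false
set_option linter.unusedTactic false
set_option linter.unusedSectionVars false

namespace Pool.Agent.TH729.CV

open Set Filter Topology MvPolynomial

variable {L : Type*} [NontriviallyNormedField L] [CompleteSpace L] [CharZero L]

variable {k : Type*} [Field k]

/-- **finitely many local ideals**, the general form: `p` describes the cone over the affine cone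
of the variety `V` -/
theorem fin_ideals_gen (σ : k →+* L) (hσ : DenseRange σ) {n : ℕ} {V : (Fin (n + 1) → k) → Prop}
    {p : E L (n + 2) → Prop}
    (hp : ∀ (s : k) (y : Fin (n + 1) → k), s ≠ 0 →
      (p (Fin.cons (σ s) fun i => σ (y i)) ↔ V y))
    (hfin : FS σ.fieldRange (cn {v | Rt σ.fieldRange v ∧ p v})) :
    {J : Set (MvPolynomial (Fin (n + 1)) k) |
      ∃ x : Fin (n + 1) → L, x ≠ 0 ∧
        J = {f : MvPolynomial (Fin (n + 1)) k |
          ∃ U ∈ nhds x, ∀ y : Fin (n + 1) → k, y ≠ 0 → V y →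
            (∃ c : L, c ≠ 0 ∧ (fun i => c * σ (y i)) ∈ U) →
            ∀ t : k, eval (t • y) f = 0}}.Finite := by
  have := dk_of_dense σ hσ
  refine (hfin.image fun I => {f : MvPolynomial (Fin (n + 1)) k |
    rename Fin.succ (mp σ f) ∈ I}).subset ?_
  rintro _ ⟨x, hx, rfl⟩
  refine ⟨_, ⟨aug x, rfl⟩, ?_⟩
  have hcf : Continuous fun z : E L (n + 2) => (fun i => z (Fin.succ i) : E L (n + 1)) :=
    continuous_pi fun i => continuous_apply _
  ext f
  rw [mem_ofPred_eq, mem_ofPred_eq, mem_J]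
  constructor
  · intro hf
    -- a neighbourhood
    have hcons : Continuous fun z : L × E L (n + 1) => (Fin.cons z.1 z.2 : E L (n + 2)) := by
      refine continuous_pi fun i => ?_
      refine Fin.cases ?_ (fun i => ?_) i
      · simpa using continuous_fst
      · simp only [Fin.cons_succ]
        exact (continuous_apply i).comp continuous_snd
    have h1 := (hcons.tendsto (1, x)).eventually hf
    rw [nhds_prod_eq] at h1
    obtain ⟨pa, hpa, pb, hpb, hab⟩ := eventually_prod_iff.1 h1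
    refine ⟨{z | pb z}, hpb, fun y hy hyF ⟨c, hc, hcy⟩ => ?_⟩
    rw [← VL_mp σ hσ]
    -- a rational first coordinate
    have h2 : ∀ᶠ s in 𝓝 (1 : L), pa s ∧ s ≠ 0 := hpa.and (isOpen_ne.mem_nhds one_ne_zero)
    have hct : Tendsto (fun s : L => c * s) (𝓝 (c⁻¹)) (𝓝 1) := by
      have : Tendsto (fun s : L => c * s) (𝓝 (c⁻¹)) (𝓝 (c * c⁻¹)) := tendsto_id.const_mul c
      rwa [mul_inv_cancel₀ hc] at this
    obtain ⟨_, ⟨h3, h4⟩, ⟨s₀, rfl⟩⟩ := mem_closure_iff_nhds.1 (hσ c⁻¹) _ (hct.eventually h2)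
    have hs₀ : s₀ ≠ 0 := by
      rintro rfl
      simp at h4
    have hmem : (Fin.cons (c * σ s₀) (fun i => c * σ (y i)) : E L (n + 2)) ∈
        cn {v : E L (n + 2) | Rt σ.fieldRange v ∧ p v} := by
      refine ⟨c, Fin.cons (σ s₀) fun i => σ (y i), hc, ⟨?_, ?_⟩, ?_⟩
      · intro i
        refine Fin.cases ?_ (fun i => ?_) i
        · exact ⟨s₀, rfl⟩
        · exact ⟨y i, rfl⟩
      · exact (hp s₀ y hs₀).2 hyF
      · funext i
        refine Fin.cases ?_ (fun i => ?_) i
        · simp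
        · simp
    have h5 := hab h3 hcy hmem
    intro t
    have h6 := h5 (t * c⁻¹)
    rw [aeval_rename] at h6
    rw [← h6]
    congr 2
    funext i
    simp only [Pi.smul_apply, smul_eq_mul, Function.comp_apply, Fin.cons_succ]
    field_simp
  · rintro ⟨U, hU, hf⟩
    have h0 : ∀ᶠ w in 𝓝 (aug x), (w : E L (n + 2)) 0 ≠ 0 :=
      (continuous_apply (A := fun _ : Fin (n + 2) => L) 0).continuousAt.eventually_ne
        (by rw [aug_zero]; exact one_ne_zero)
    have h1 : Tendsto (fun z : E L (n + 2) => (fun i => z (Fin.succ i) : E L (n + 1)))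
        (𝓝 (aug x)) (𝓝 x) := hcf.tendsto (aug x)
    have h2 : ∀ᶠ v in 𝓝 x, v ∈ U ∧ v ≠ 0 :=
      (Filter.eventually_of_mem hU fun v hv => hv).and (isOpen_ne.mem_nhds hx)
    filter_upwards [h0, h1.eventually h2] with w hw0 ⟨hwU, hw1⟩ hw
    obtain ⟨r, u, hr, ⟨hu1, hu2⟩, rfl⟩ := hw
    obtain ⟨u, rfl⟩ := (rt_iff σ).1 hu1
    have hu0 : u 0 ≠ 0 := by
      intro h
      apply hw0
      simp [h]
    have hsplit : (fun i => σ (u i) : E L (n + 2)) =
        Fin.cons (σ (u 0)) fun i => σ (u i.succ) := by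
      funext i
      refine Fin.cases ?_ (fun i => ?_) i
      · simp
      · simp
    rw [hsplit, hp _ _ hu0] at hu2
    have hF0 := hu2
    have hy0 : (fun i : Fin (n + 1) => u i.succ) ≠ 0 := by
      intro h
      apply hw1
      funext i
      have := congrFun h i
      simp only [Pi.zero_apply] at this
      simp [this]
    have h3 := hf _ hy0 hF0 ⟨r, hr, hwU⟩
    rw [← VL_mp σ hσ] at h3
    intro t
    have h4 := h3 (t * r)
    rw [aeval_rename, ← h4]
    congr 2
    funext i
    simp only [Pi.smul_apply, smul_eq_mul, Function.comp_apply]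
    ring

/-! ### Polynomials of degree at most two -/

variable {m n : ℕ} {K : Subfield L}

/-- sums -/
def Bil.add (B B' : Bil L m) : Bil L m where
  b := B.b + B'.b
  symm v w := by
    simp only [LinearMap.add_apply]
    rw [B.symm, B'.symm]

/-- multiples -/
def Bil.smul (t : L) (B : Bil L m) : Bil L m where
  b := t • B.b
  symm v w := by
    simp only [LinearMap.smul_apply]
    rw [B.symm]

/-- the product of two linear functionals -/
noncomputable def Bil.prod (p q : E L m →ₗ[L] L) : Bil L m where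
  b := (1 / 2 : L) • (p.smulRight q + q.smulRight p)
  symm v w := by
    simp only [LinearMap.smul_apply, LinearMap.add_apply, LinearMap.smulRight_apply, smul_eq_mul]
    ring

lemma Bil.prod_apply (p q : E L m →ₗ[L] L) (v : E L m) : (Bil.prod p q).b v v = p v * q v := by
  simp only [Bil.prod, LinearMap.smul_apply, LinearMap.add_apply, LinearMap.smulRight_apply,
    smul_eq_mul]
  ring

lemma Bil.prod_rat {p q : E L m →ₗ[L] L} (hp : RL K p) (hq : RL K q) :
    Rat2 (Bil.prod p q) K := by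
  intro a b ha hb
  simp only [Bil.prod, LinearMap.smul_apply, LinearMap.add_apply, LinearMap.smulRight_apply,
    smul_eq_mul]
  have h6 : (1 / 2 : L) ∈ K := by
    refine K.div_mem K.one_mem ?_
    exact_mod_cast SubfieldClass.ratCast_mem K 2
  exact K.mul_mem h6 (K.add_mem (K.mul_mem (hp _ ha) (hq _ hb)) (K.mul_mem (hq _ ha) (hp _ hb)))

/-- representable functions -/
def Rep2 (K : Subfield L) (φ : E L n → E L m) (f : E L n → L) : Prop :=
  ∃ B : Bil L m, Rat2 B K ∧ ∀ x, B.b (φ x) (φ x) = f x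

lemma Rep2.zero (φ : E L n → E L m) : Rep2 K φ fun _ => 0 := by
  refine ⟨Bil.smul 0 (Bil.prod 0 0), ?_, ?_⟩
  · intro a b _ _
    simp only [Bil.smul, zero_smul, LinearMap.zero_apply]
    exact K.zero_mem
  · intro x
    simp only [Bil.smul, zero_smul, LinearMap.zero_apply]

lemma Rep2.add {φ : E L n → E L m} {f g : E L n → L} (hf : Rep2 K φ f) (hg : Rep2 K φ g) :
    Rep2 K φ fun x => f x + g x := by
  obtain ⟨F, hF, hF'⟩ := hf
  obtain ⟨G, hG, hG'⟩ := hg
  refine ⟨F.add G, ?_, ?_⟩
  · intro a b ha hb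
    exact K.add_mem (hF a b ha hb) (hG a b ha hb)
  · intro x
    simp only [Bil.add, LinearMap.add_apply, hF', hG']

lemma Rep2.smul {φ : E L n → E L m} {f : E L n → L} (hf : Rep2 K φ f) {t : L} (ht : t ∈ K) :
    Rep2 K φ fun x => t * f x := by
  obtain ⟨F, hF, hF'⟩ := hf
  refine ⟨F.smul t, ?_, ?_⟩
  · intro a b ha hb
    exact K.mul_mem ht (hF a b ha hb)
  · intro x
    simp only [Bil.smul, LinearMap.smul_apply, hF', smul_eq_mul]

lemma Rep2.sum {φ : E L n → E L m} {α : Type*} (s : Finset α) {f : α → E L n → L}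
    (h : ∀ a ∈ s, Rep2 K φ (f a)) : Rep2 K φ fun x => ∑ a ∈ s, f a x := by
  classical
  induction s using Finset.induction_on with
  | empty => simpa using Rep2.zero φ
  | insert a s ha ih =>
    have : (fun x => ∑ b ∈ insert a s, f b x) = fun x => f a x + ∑ b ∈ s, f b x := by
      funext x; rw [Finset.sum_insert ha]
    rw [this]
    exact (h a (by simp)).add (ih fun b hb => h b (by simp [hb]))

lemma Rep2.prod {φ : E L n → E L m} {p q : E L m →ₗ[L] L} (hp : RL K p) (hq : RL K q)
    {f : E L n → L} (h : ∀ x, f x = p (φ x) * q (φ x)) : Rep2 K φ f :=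
  ⟨Bil.prod p q, Bil.prod_rat hp hq, fun x => by rw [Bil.prod_apply, h]⟩

/-- polynomials of degree at most two -/
theorem rep_affine2 {R : Type*} [Field R] (σ : R →+* L) (f : MvPolynomial (Fin n) R)
    (hf : f.totalDegree ≤ 2) :
    Rep2 σ.fieldRange (aug : E L n → E L (n + 1)) (fun x => MvPolynomial.eval₂ σ x f) := by
  rw [show (fun x => MvPolynomial.eval₂ σ x f) = fun x =>
      ∑ d ∈ f.support, σ (f.coeff d) * (d.toMultiset.map x).prod from
    funext fun x => eval₂_sum σ f x]
  refine Rep2.sum _ fun d hd => Rep2.smul ?_ ⟨_, rfl⟩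
  have hcard : Multiset.card d.toMultiset ≤ 2 := by
    rw [Finsupp.card_toMultiset]
    exact (MvPolynomial.le_totalDegree hd).trans hf
  have hpr : ∀ i : Fin (n + 1), RL σ.fieldRange (LinearMap.proj i : E L (n + 1) →ₗ[L] L) :=
    fun i v hv => hv i
  have h0 : Multiset.card d.toMultiset = 0 ∨ Multiset.card d.toMultiset = 1 ∨
      Multiset.card d.toMultiset = 2 := by omega
  rcases h0 with h | h | h
  · rw [Multiset.card_eq_zero] at h
    refine Rep2.prod (hpr 0) (hpr 0) fun x => ?_
    rw [h]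
    simp [aug_zero]
  · obtain ⟨i, hi⟩ := Multiset.card_eq_one.1 h
    refine Rep2.prod (hpr i.succ) (hpr 0) fun x => ?_
    rw [hi]
    simp [aug_zero, aug_succ]
  · obtain ⟨i, j, hi⟩ := Multiset.card_eq_two.1 h
    refine Rep2.prod (hpr i.succ) (hpr j.succ) fun x => ?_
    rw [hi]
    simp [aug_succ]

lemma cons_aug {s : L} (hs : s ≠ 0) (v : E L n) :
    (Fin.cons s v : E L (n + 1)) = s • aug (s⁻¹ • v) := by
  funext i
  refine Fin.cases ?_ (fun i => ?_) i
  · simp [aug]
  · simp only [aug, Fin.cons_succ, Pi.smul_apply, smul_eq_mul]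
    field_simp

/-- **finitely many local ideals for two quadrics** -/
theorem fin_ideals_two [ProperSpace L] (σ : k →+* L) (hσ : DenseRange σ) {n d e : ℕ}
    {F G : MvPolynomial (Fin (n + 1)) k} (hF : F.IsHomogeneous d) (hd : d ≤ 2)
    (hG : G.IsHomogeneous e) (he : e ≤ 2) :
    {J : Set (MvPolynomial (Fin (n + 1)) k) |
      ∃ x : Fin (n + 1) → L, x ≠ 0 ∧
        J = {f : MvPolynomial (Fin (n + 1)) k |
          ∃ U ∈ nhds x, ∀ y : Fin (n + 1) → k, y ≠ 0 → (eval y F = 0 ∧ eval y G = 0) →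
            (∃ c : L, c ≠ 0 ∧ (fun i => c * σ (y i)) ∈ U) →
            ∀ t : k, eval (t • y) f = 0}}.Finite := by
  have := dk_of_dense σ hσ
  have hdeg : ∀ {d : ℕ} {F : MvPolynomial (Fin (n + 1)) k}, F.IsHomogeneous d → d ≤ 2 →
      F.totalDegree ≤ 2 := by
    intro d F hF hd
    by_cases h0 : F = 0
    · rw [h0, totalDegree_zero]
      omega
    · rw [hF.totalDegree h0]
      exact hd
  obtain ⟨B₁, hB₁, hB₁'⟩ := rep_affine2 σ F (hdeg hF hd)
  obtain ⟨B₂, hB₂, hB₂'⟩ := rep_affine2 σ G (hdeg hG he)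
  have hval : ∀ {d : ℕ} {F : MvPolynomial (Fin (n + 1)) k} {B : Bil L (n + 2)},
      F.IsHomogeneous d → (∀ x, B.b (aug x) (aug x) = eval₂ σ x F) →
      ∀ (s : k) (y : Fin (n + 1) → k), s ≠ 0 →
        (B.b (Fin.cons (σ s) fun i => σ (y i)) (Fin.cons (σ s) fun i => σ (y i)) = 0 ↔
          eval y F = 0) := by
    intro d F B hF hB s y hs
    have hs' : σ s ≠ 0 := (map_ne_zero σ).2 hs
    rw [cons_aug hs']
    simp only [map_smul, LinearMap.smul_apply, smul_eq_mul]
    rw [hB, hom_eval₂ σ hF, eval₂_co]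
    simp [hs']
  exact fin_ideals_gen (V := fun y => eval y F = 0 ∧ eval y G = 0)
    (p := fun v => B₁.b v v = 0 ∧ B₂.b v v = 0) σ hσ
    (fun s y hs => and_congr (hval hF hB₁' s y hs) (hval hG hB₂' s y hs))
    (pair_FS (n + 2) B₁ B₂ hB₁ hB₂)

end Pool.Agent.TH729.CV
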